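import Pool.Agent.Work.MP_7ec17a_gt_W.Interface

/-!
# MP_7ec17a_gt, Theorem E, block CLOSE: support points of nearby directions are near
-/

set_option autoImplicit false

open Set

namespace Pool.MP_7ec17a_gt.D

theorem stmt_CLOSE : Stmt_CLOSE := by
  intro f c c' s0 ϑ κ hf hκ h
  set J : Set ℝ := Icc c c' ∩ {s | κ ≤ |s - s0|} with hJ
  have hJc : IsCompact J := by
    refine isCompact_Icc.inter_right ?_
    exact isClosed_le continuous_const (by fun_prop)
  set U : Set (ℝ × ℝ) := {z | ∃ x, up z.2 (f x - f z.1) < 0} with hU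
  have hUo : IsOpen U := by
    have : U = ⋃ x : ℝ, {z : ℝ × ℝ | up z.2 (f x - f z.1) < 0} := by
      ext z
      simp [hU]
    rw [this]
    refine isOpen_iUnion (fun x => ?_)
    refine isOpen_lt ?_ continuous_const
    unfold up
    have h1 : Continuous fun z : ℝ × ℝ => f x - f z.1 :=
      continuous_const.sub (hf.comp continuous_fst)
    exact ((Complex.continuous_im.comp h1).mul (Real.continuous_cos.comp continuous_snd)).sub
      ((Complex.continuous_re.comp h1).mul (Real.continuous_sin.comp continuous_snd))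
  have hsub : J ×ˢ {ϑ} ⊆ U := by
    rintro ⟨s, φ⟩ ⟨hs, hφ⟩
    have hφ' : φ = ϑ := hφ
    subst hφ'
    refine h s hs.1.1 hs.1.2 ?_
    rintro rfl
    have := hs.2
    simp only [sub_self, abs_zero, mem_setOf_eq] at this
    linarith
  obtain ⟨u, v, -, hv, hu1, hv1, huv⟩ := generalized_tube_lemma hJc isCompact_singleton hUo hsub
  obtain ⟨ε, hε, hball⟩ := Metric.isOpen_iff.1 hv ϑ (hv1 rfl)
  refine ⟨ε, hε, ?_⟩
  intro φ hφ s hs1 hs2 hup
  by_contra hcon
  have hsJ : s ∈ J := ⟨⟨hs1, hs2⟩, not_lt.1 hcon⟩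
  have hmem : (s, φ) ∈ U := huv ⟨hu1 hsJ, hball (by rwa [Metric.mem_ball, Real.dist_eq])⟩
  obtain ⟨x, hx⟩ := hmem
  exact absurd (hup x) (not_le.2 hx)

end Pool.MP_7ec17a_gt.D
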