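import Pool.Agent.Work.MP_7ec17a_gt_W.InterfaceB

/-! # Block CONT: the area is continuous in the half plane -/

set_option autoImplicit false

open Set MeasureTheory Filter Topology

namespace Pool.MP_7ec17a_gt.B

theorem vol_vertical (u : ℝ) : volume {w : ℂ | w.re = u} = 0 := by
  have h := Complex.volume_preserving_equiv_real_prod
  have h1 : {w : ℂ | w.re = u} =
      Complex.measurableEquivRealProd ⁻¹' ({u} ×ˢ (univ : Set ℝ)) := by
    ext w
    simp [Complex.measurableEquivRealProd_apply]
  rw [h1, h.measure_preimage_equiv, Measure.volume_eq_prod, Measure.prod_prod]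
  simp

theorem vol_line (e : ℂ) (he : ‖e‖ = 1) (u : ℝ) : volume {z : ℂ | (z * e).re = u} = 0 := by
  have he' : e ∈ Submonoid.unitSphere ℂ := by
    rw [Submonoid.unitSphere, ← SetLike.mem_coe]
    simpa using he
  let c : Circle := ⟨e, he'⟩
  have h := (rotation c).measurePreserving
  have h1 : {z : ℂ | (z * e).re = u} = (rotation c) ⁻¹' {w : ℂ | w.re = u} := by
    ext z
    simp only [mem_setOf_eq, mem_preimage, rotation_apply]
    rw [mul_comm]
  rw [h1, h.measure_preimage, vol_vertical]
  exact (measurableSet_eq_fun Complex.measurable_re measurable_const).nullMeasurableSet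

theorem ar_eq (K : Set ℂ) (e : ℂ) (u : ℝ) :
    ar K e u = ∫ z in K, ({z : ℂ | (z * e).re ≤ u}).indicator (fun _ => (1 : ℝ)) z := by
  have hm : MeasurableSet {z : ℂ | (z * e).re ≤ u} :=
    measurableSet_le (Complex.measurable_re.comp (measurable_id.mul_const e)) measurable_const
  rw [integral_indicator_const _ hm, ar, Measure.real, Measure.restrict_apply hm, inter_comm]
  simp

theorem stmt_CONT : Stmt_CONT := by
  intro K hK
  rintro ⟨e0, u0⟩ h0
  have he0 : ‖e0‖ = 1 := h0.1
  apply ContinuousAt.continuousWithinAt
  have hfin : IsFiniteMeasure (volume.restrict K) := ⟨by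
    rw [Measure.restrict_apply_univ]; exact hK.measure_lt_top⟩
  simp only [ar_eq]
  refine continuousAt_of_dominated (bound := fun _ => (1 : ℝ)) ?_ ?_ (integrable_const _) ?_
  · refine Eventually.of_forall fun p => ?_
    have hm : MeasurableSet {z : ℂ | (z * p.1).re ≤ p.2} :=
      measurableSet_le (Complex.measurable_re.comp (measurable_id.mul_const p.1)) measurable_const
    exact (measurable_const.indicator hm).aestronglyMeasurable
  · refine Eventually.of_forall fun p => Eventually.of_forall fun z => ?_
    by_cases hz : z ∈ {z : ℂ | (z * p.1).re ≤ p.2}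
    · rw [indicator_of_mem hz]; simp
    · rw [indicator_of_notMem hz]; simp
  · have hne : ∀ᵐ z : ℂ ∂(volume.restrict K), (z * e0).re ≠ u0 := by
      apply ae_restrict_of_ae
      rw [ae_iff]
      simpa using vol_line e0 he0 u0
    filter_upwards [hne] with z hz
    have hc : ContinuousAt (fun p : ℂ × ℝ => (z * p.1).re - p.2) (e0, u0) := by
      fun_prop
    rcases lt_or_gt_of_ne hz with hlt | hgt
    · have hev : ∀ᶠ p in 𝓝 ((e0, u0) : ℂ × ℝ), (z * p.1).re - p.2 < 0 :=
        hc.eventually_lt continuousAt_const (by simpa using sub_neg.mpr hlt)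
      refine ContinuousAt.congr (f := fun _ => (1 : ℝ)) continuousAt_const ?_
      filter_upwards [hev] with p hp
      have hz' : z ∈ {z : ℂ | (z * p.1).re ≤ p.2} := by
        simp only [mem_setOf_eq]; linarith
      rw [indicator_of_mem hz']
    · have hev : ∀ᶠ p in 𝓝 ((e0, u0) : ℂ × ℝ), 0 < (z * p.1).re - p.2 :=
        continuousAt_const.eventually_lt hc (by simpa using sub_pos.mpr hgt)
      refine ContinuousAt.congr (f := fun _ => (0 : ℝ)) continuousAt_const ?_
      filter_upwards [hev] with p hp
      have hz' : z ∉ {z : ℂ | (z * p.1).re ≤ p.2} := by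
        simp only [mem_setOf_eq, not_le]; linarith
      rw [indicator_of_notMem hz']

end Pool.MP_7ec17a_gt.B
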