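import Pool.Agent.Work.MP_7ec17a_gt_W.InterfaceB

/-!
# MP_7ec17a_gt, part B, block FIN: a rectangle from the optimal strip
-/

set_option autoImplicit false

open Set MeasureTheory Filter Topology

namespace Pool.MP_7ec17a_gt.B

namespace FIN_

theorem cont_mk : Continuous (fun p : ℝ × ℝ => (⟨p.1, p.2⟩ : ℂ)) :=
  Complex.equivRealProdCLM.symm.continuous

/-- vertical slices -/
def sl (K : Set ℂ) (c : ℝ) : Set ℝ := {y : ℝ | (⟨c, y⟩ : ℂ) ∈ K}

theorem sl_compact {K : Set ℂ} (hK : IsCompact K) (c : ℝ) : IsCompact (sl K c) := by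
  have h1 : Continuous (fun y : ℝ => (⟨c, y⟩ : ℂ)) :=
    cont_mk.comp (continuous_const.prodMk continuous_id)
  obtain ⟨M, hM⟩ := hK.isBounded.exists_norm_le
  refine Metric.isCompact_of_isClosed_isBounded (hK.isClosed.preimage h1) ?_
  refine (Metric.isBounded_closedBall (x := (0 : ℝ)) (r := M)).subset fun y hy => ?_
  rw [mem_closedBall_zero_iff, Real.norm_eq_abs]
  exact (Complex.abs_im_le_norm (⟨c, y⟩ : ℂ)).trans (hM _ hy)

theorem sl_convex {K : Set ℂ} (hK : Convex ℝ K) (c : ℝ) : Convex ℝ (sl K c) := by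
  intro y hy y' hy' a b ha hb hab
  have h := hK hy hy' ha hb hab
  have e : a • (⟨c, y⟩ : ℂ) + b • (⟨c, y'⟩ : ℂ) = ⟨c, a • y + b • y'⟩ := by
    apply Complex.ext
    · simp
      have : a * c + b * c = (a + b) * c := by ring
      rw [this, hab, one_mul]
    · simp
  rw [e] at h
  exact h

/-- the integral over a slice -/
noncomputable def S (K : Set ℂ) (c α β : ℝ) : ℝ := ∫ y in sl K c, (α + β * y)

theorem S_zero (K : Set ℂ) (c : ℝ) : S K c 0 0 = 0 := by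
  unfold S; simp

theorem S_one_nonneg (K : Set ℂ) (c : ℝ) : 0 ≤ S K c 1 0 := by
  unfold S; simp

theorem slice_Icc {K : Set ℂ} (hK : IsCompact K) (hc : Convex ℝ K) {c L : ℝ} (hL : 0 < L)
    (h : S K c 1 0 = L) : ∃ a b : ℝ, a ≤ b ∧ sl K c = Icc a b ∧ b - a = L ∧
      S K c 0 1 = (b ^ 2 - a ^ 2) / 2 := by
  have hne : (sl K c).Nonempty := by
    rw [nonempty_iff_ne_empty]
    intro he
    unfold S at h
    rw [he] at h
    simp at h
    linarith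
  have hconn : IsConnected (sl K c) := ⟨hne, (sl_convex hc c).isPreconnected⟩
  have e := eq_Icc_of_connected_compact hconn (sl_compact hK c)
  have hab : sInf (sl K c) ≤ sSup (sl K c) :=
    (csInf_le (sl_compact hK c).bddBelow (sl_compact hK c |>.sSup_mem hne))
  obtain ⟨a, ha⟩ : ∃ a, a = sInf (sl K c) := ⟨_, rfl⟩
  obtain ⟨b, hb⟩ : ∃ b, b = sSup (sl K c) := ⟨_, rfl⟩
  rw [← ha, ← hb] at e hab
  refine ⟨a, b, hab, e, ?_, ?_⟩
  · rw [← h]
    unfold S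
    rw [e, integral_Icc_eq_integral_Ioc, ← intervalIntegral.integral_of_le hab]
    simp
  · unfold S
    rw [e, integral_Icc_eq_integral_Ioc, ← intervalIntegral.integral_of_le hab]
    simp

theorem frontier_lo {K : Set ℂ} {c a : ℝ} (h : (⟨c, a⟩ : ℂ) ∈ K) (ha : ∀ y ∈ sl K c, a ≤ y) :
    (⟨c, a⟩ : ℂ) ∈ frontier K := by
  refine ⟨subset_closure h, fun hi => ?_⟩
  have h1 : Continuous (fun y : ℝ => (⟨c, y⟩ : ℂ)) :=
    cont_mk.comp (continuous_const.prodMk continuous_id)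
  have h2 := (isOpen_interior.preimage h1).mem_nhds hi
  obtain ⟨δ, hδ, hball⟩ := Metric.mem_nhds_iff.1 h2
  have h3 : a - δ / 2 ∈ Metric.ball a δ := by
    rw [Metric.mem_ball, Real.dist_eq, abs_lt]
    constructor <;> linarith
  have h4 : (⟨c, a - δ / 2⟩ : ℂ) ∈ interior K := hball h3
  have h5 : (⟨c, a - δ / 2⟩ : ℂ) ∈ K := interior_subset h4
  have := ha _ h5
  linarith

theorem frontier_hi {K : Set ℂ} {c a : ℝ} (h : (⟨c, a⟩ : ℂ) ∈ K) (ha : ∀ y ∈ sl K c, y ≤ a) :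
    (⟨c, a⟩ : ℂ) ∈ frontier K := by
  refine ⟨subset_closure h, fun hi => ?_⟩
  have h1 : Continuous (fun y : ℝ => (⟨c, y⟩ : ℂ)) :=
    cont_mk.comp (continuous_const.prodMk continuous_id)
  have h2 := (isOpen_interior.preimage h1).mem_nhds hi
  obtain ⟨δ, hδ, hball⟩ := Metric.mem_nhds_iff.1 h2
  have h3 : a + δ / 2 ∈ Metric.ball a δ := by
    rw [Metric.mem_ball, Real.dist_eq, abs_lt]
    constructor <;> linarith
  have h4 : (⟨c, a + δ / 2⟩ : ℂ) ∈ interior K := hball h3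
  have h5 : (⟨c, a + δ / 2⟩ : ℂ) ∈ K := interior_subset h4
  have := ha _ h5
  linarith

/-- rotations preserve the area -/
theorem ar_rot (K : Set ℂ) (hK : IsCompact K) {e0 : ℂ} (he0 : ‖e0‖ = 1) (e : ℂ) (u : ℝ) :
    ar K (e0 * e) u = ar ((fun w => w * e0⁻¹) ⁻¹' K) e u := by
  have h0 : e0 ≠ 0 := by
    intro h; rw [h] at he0; simp at he0
  have hn : ‖e0⁻¹‖ = 1 := by rw [norm_inv, he0, inv_one]
  let a : Circle := ⟨e0⁻¹, mem_sphere_zero_iff_norm.2 hn⟩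
  have hmp := (rotation a).measurePreserving
  have hcl : IsClosed {z : ℂ | (z * (e0 * e)).re ≤ u} :=
    isClosed_le (by fun_prop) (by fun_prop)
  have hA : MeasurableSet (K ∩ {z : ℂ | (z * (e0 * e)).re ≤ u}) :=
    (hK.inter_right hcl).measurableSet
  have h1 := hmp.measure_preimage hA.nullMeasurableSet
  unfold ar
  rw [← h1]
  congr 2
  ext w
  have hw : rotation a w = w * e0⁻¹ := by
    rw [rotation_apply]
    exact mul_comm _ _
  simp only [mem_preimage, mem_inter_iff, mem_ofPred_eq]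
  rw [hw]
  have : w * e0⁻¹ * (e0 * e) = w * e := by
    field_simp
  rw [this]

/-- tilted half planes -/
theorem half (z : ℂ) (c α β ε : ℝ) :
    (z * (((Real.sqrt (1 + ε ^ 2 * β ^ 2))⁻¹ : ℝ) * (1 + (ε * β : ℝ) * Complex.I))).re
      ≤ (c + ε * α) * (Real.sqrt (1 + ε ^ 2 * β ^ 2))⁻¹ ↔ z.re ≤ c + ε * (α + β * z.im) := by
  have hN : 0 < (Real.sqrt (1 + ε ^ 2 * β ^ 2))⁻¹ := by positivity
  have e : (z * (((Real.sqrt (1 + ε ^ 2 * β ^ 2))⁻¹ : ℝ) * (1 + (ε * β : ℝ) * Complex.I))).re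
      = (z.re - ε * β * z.im) * (Real.sqrt (1 + ε ^ 2 * β ^ 2))⁻¹ := by
    obtain ⟨n, hn⟩ : ∃ n : ℝ, n = (Real.sqrt (1 + ε ^ 2 * β ^ 2))⁻¹ := ⟨_, rfl⟩
    obtain ⟨b, hb⟩ : ∃ b : ℝ, b = ε * β := ⟨_, rfl⟩
    rw [← hn, ← hb]
    simp
    ring
  rw [e, mul_le_mul_iff_left₀ hN]
  constructor <;> intro h <;> linarith

theorem unit (β ε : ℝ) :
    ‖(((Real.sqrt (1 + ε ^ 2 * β ^ 2))⁻¹ : ℝ) : ℂ) * (1 + (ε * β : ℝ) * Complex.I)‖ = 1 := by
  have hp : 0 < 1 + ε ^ 2 * β ^ 2 := by positivity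
  have h1 : ‖(1 + (ε * β : ℝ) * Complex.I : ℂ)‖ = Real.sqrt (1 + ε ^ 2 * β ^ 2) := by
    have := Complex.norm_add_mul_I 1 (ε * β)
    push_cast at this ⊢
    rw [this]
    congr 1
    ring
  rw [norm_mul, h1, Complex.norm_real, Real.norm_eq_abs, abs_of_pos (by positivity)]
  exact inv_mul_cancel₀ (Real.sqrt_pos.2 hp).ne'

end FIN_

open FIN_ in
theorem stmt_FIN (hSLICE : Stmt_SLICE) : Stmt_FIN := by
  intro K r e0 x0 y0 hK hs hr he0 hJ hmax
  have h0 : e0 ≠ 0 := by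
    intro h; rw [h] at he0; simp at he0
  have h0' : e0⁻¹ ≠ 0 := inv_ne_zero h0
  -- the rotated set
  obtain ⟨K', hK'd⟩ : ∃ K' : Set ℂ, K' = (fun w => w * e0⁻¹) ⁻¹' K := ⟨_, rfl⟩
  have hKc : IsCompact K' := by
    rw [hK'd]
    exact (Homeomorph.mulRight₀ e0⁻¹ h0').isCompact_preimage.2 hK
  have hKs : StrictConvex ℝ K' := by
    rw [hK'd]
    have h1 : Continuous (LinearMap.mulRight ℝ e0⁻¹ : ℂ →ₗ[ℝ] ℂ) := by
      have : (⇑(LinearMap.mulRight ℝ e0⁻¹ : ℂ →ₗ[ℝ] ℂ)) = fun w => w * e0⁻¹ := rfl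
      rw [this]; fun_prop
    exact hs.linear_preimage (LinearMap.mulRight ℝ e0⁻¹) h1 (mul_left_injective₀ h0')
  have hfr : ∀ w : ℂ, w ∈ frontier K' → w * e0⁻¹ ∈ frontier K := by
    intro w hw
    rw [hK'd] at hw
    have := (Homeomorph.mulRight₀ e0⁻¹ h0').preimage_frontier K
    have h2 : w ∈ (Homeomorph.mulRight₀ e0⁻¹ h0') ⁻¹' frontier K := by
      rw [this]; exact hw
    exact h2
  -- first variation
  have key : ∀ α1 α2 β : ℝ, S K' y0 α2 β - S K' x0 α1 β - r * (y0 - x0) * (α2 - α1) = 0 := by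
    intro α1 α2 β
    have d2 := hSLICE K' y0 α2 β hKc hKs
    have d1 := hSLICE K' x0 α1 β hKc hKs
    have d3 : HasDerivAt (fun ε : ℝ => r / 2 * ((y0 - x0 + ε * (α2 - α1)) ^ 2
        / (1 + ε ^ 2 * β ^ 2))) (r * (y0 - x0) * (α2 - α1)) 0 := by
      have a1 : HasDerivAt (fun ε : ℝ => (y0 - x0 + ε * (α2 - α1)) ^ 2)
          (2 * (y0 - x0) * (α2 - α1)) 0 := by
        have b1 : HasDerivAt (fun ε : ℝ => y0 - x0 + ε * (α2 - α1)) (α2 - α1) 0 := by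
          have := ((hasDerivAt_id (0 : ℝ)).mul_const (α2 - α1)).const_add (y0 - x0)
          simpa using this
        have b2 := b1.pow 2
        refine b2.congr_deriv ?_
        simp
      have a2 : HasDerivAt (fun ε : ℝ => 1 + ε ^ 2 * β ^ 2) 0 0 := by
        have b1 := (((hasDerivAt_id (0 : ℝ)).pow 2).mul_const (β ^ 2)).const_add 1
        simpa using b1
      have a3 := a1.div a2 (by positivity)
      have a4 := a3.const_mul (r / 2)
      refine a4.congr_deriv ?_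
      simp
      ring
    have dJ := (d2.sub d1).sub d3
    have hval : ∀ ε : ℝ,
        (volume (K' ∩ {z : ℂ | z.re ≤ y0 + ε * (α2 + β * z.im)})).toReal
        - (volume (K' ∩ {z : ℂ | z.re ≤ x0 + ε * (α1 + β * z.im)})).toReal
        - r / 2 * ((y0 - x0 + ε * (α2 - α1)) ^ 2 / (1 + ε ^ 2 * β ^ 2))
        = J K r (e0 * (((Real.sqrt (1 + ε ^ 2 * β ^ 2))⁻¹ : ℝ) * (1 + (ε * β : ℝ) * Complex.I)))
          ((x0 + ε * α1) * (Real.sqrt (1 + ε ^ 2 * β ^ 2))⁻¹)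
          ((y0 + ε * α2) * (Real.sqrt (1 + ε ^ 2 * β ^ 2))⁻¹) := by
      intro ε
      unfold J
      rw [ar_rot K hK he0, ar_rot K hK he0, ← hK'd]
      unfold ar
      have c2 : {z : ℂ | (z * (((Real.sqrt (1 + ε ^ 2 * β ^ 2))⁻¹ : ℝ)
          * (1 + (ε * β : ℝ) * Complex.I))).re ≤ (y0 + ε * α2) * (Real.sqrt (1 + ε ^ 2 * β ^ 2))⁻¹}
          = {z : ℂ | z.re ≤ y0 + ε * (α2 + β * z.im)} := by
        ext z; exact half z y0 α2 β ε
      have c1 : {z : ℂ | (z * (((Real.sqrt (1 + ε ^ 2 * β ^ 2))⁻¹ : ℝ)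
          * (1 + (ε * β : ℝ) * Complex.I))).re ≤ (x0 + ε * α1) * (Real.sqrt (1 + ε ^ 2 * β ^ 2))⁻¹}
          = {z : ℂ | z.re ≤ x0 + ε * (α1 + β * z.im)} := by
        ext z; exact half z x0 α1 β ε
      rw [c1, c2]
      congr 2
      have hp : 0 < 1 + ε ^ 2 * β ^ 2 := by positivity
      have hq : ((Real.sqrt (1 + ε ^ 2 * β ^ 2))⁻¹) ^ 2 = (1 + ε ^ 2 * β ^ 2)⁻¹ := by
        rw [inv_pow, Real.sq_sqrt hp.le]
      rw [← sub_mul, mul_pow, hq, div_eq_mul_inv]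
      congr 2
      ring
    have hmx : IsLocalMax (fun ε : ℝ =>
        (volume (K' ∩ {z : ℂ | z.re ≤ y0 + ε * (α2 + β * z.im)})).toReal
        - (volume (K' ∩ {z : ℂ | z.re ≤ x0 + ε * (α1 + β * z.im)})).toReal
        - r / 2 * ((y0 - x0 + ε * (α2 - α1)) ^ 2 / (1 + ε ^ 2 * β ^ 2))) 0 := by
      refine Eventually.of_forall fun ε => ?_
      simp only []
      rw [hval ε, hval 0]
      refine (hmax _ _ _ ?_).trans (le_of_eq ?_)
      · rw [norm_mul, he0, one_mul]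
        exact unit β ε
      · congr 1 <;> simp
    have := hmx.hasDerivAt_eq_zero dJ
    exact this
  -- the three equations
  have k1 := key 0 1 0
  have k2 := key 1 0 0
  have k3 := key 0 0 1
  rw [S_zero] at k1 k2
  have hxy : x0 < y0 := by
    have h1 := S_one_nonneg K' y0
    have h2 : 0 ≤ r * (y0 - x0) := by linarith
    have h3 : 0 ≤ y0 - x0 := nonneg_of_mul_nonneg_right h2 hr
    rcases eq_or_lt_of_le h3 with h4 | h4
    · exfalso
      have : x0 = y0 := by linarith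
      unfold J at hJ
      rw [this] at hJ
      simp at hJ
    · linarith
  have hL : 0 < r * (y0 - x0) := mul_pos hr (by linarith)
  obtain ⟨a2, b2, hab2, i2, l2, m2⟩ := slice_Icc hKc hKs.convex (c := y0) hL (by linarith)
  obtain ⟨a1, b1, hab1, i1, l1, m1⟩ := slice_Icc hKc hKs.convex (c := x0) hL (by linarith)
  have hsum : b1 + a1 = b2 + a2 := by
    have e1 : (b1 + a1) * (r * (y0 - x0)) = (b2 + a2) * (r * (y0 - x0)) := by
      have f1 : (b1 + a1) * (r * (y0 - x0)) = b1 ^ 2 - a1 ^ 2 := by rw [← l1]; ring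
      have f2 : (b2 + a2) * (r * (y0 - x0)) = b2 ^ 2 - a2 ^ 2 := by rw [← l2]; ring
      rw [f1, f2]
      linarith
    exact mul_right_cancel₀ hL.ne' e1
  have ea : a2 = a1 := by linarith
  have eb : b2 = b1 := by linarith
  have eb1 : b1 = a1 + r * (y0 - x0) := by linarith
  rw [ea, eb] at i2
  -- the four points
  have q1 : (⟨x0, a1⟩ : ℂ) ∈ frontier K' := by
    have hm : a1 ∈ sl K' x0 := by rw [i1]; exact left_mem_Icc.2 hab1
    exact frontier_lo hm fun y hy => by rw [i1] at hy; exact hy.1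
  have q2 : (⟨y0, a1⟩ : ℂ) ∈ frontier K' := by
    have hm : a1 ∈ sl K' y0 := by rw [i2]; exact left_mem_Icc.2 hab1
    exact frontier_lo hm fun y hy => by rw [i2] at hy; exact hy.1
  have q3 : (⟨y0, b1⟩ : ℂ) ∈ frontier K' := by
    have hm : b1 ∈ sl K' y0 := by rw [i2]; exact right_mem_Icc.2 hab1
    exact frontier_hi hm fun y hy => by rw [i2] at hy; exact hy.2
  have q4 : (⟨x0, b1⟩ : ℂ) ∈ frontier K' := by
    have hm : b1 ∈ sl K' x0 := by rw [i1]; exact right_mem_Icc.2 hab1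
    exact frontier_hi hm fun y hy => by rw [i1] at hy; exact hy.2
  refine ⟨⟨x0, a1⟩ * e0⁻¹, ((y0 - x0 : ℝ) : ℂ) * e0⁻¹, ?_, hfr _ q1, ?_, ?_, ?_⟩
  · refine mul_ne_zero ?_ h0'
    exact_mod_cast (sub_pos.2 hxy).ne'
  · have e1 : (⟨x0, a1⟩ : ℂ) * e0⁻¹ + ((y0 - x0 : ℝ) : ℂ) * e0⁻¹ = (⟨y0, a1⟩ : ℂ) * e0⁻¹ := by
      have e2 : (⟨x0, a1⟩ : ℂ) + ((y0 - x0 : ℝ) : ℂ) = ⟨y0, a1⟩ := by
        apply Complex.ext <;> simp
      rw [← add_mul, e2]
    rw [e1]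
    exact hfr _ q2
  · have e1 : (⟨x0, a1⟩ : ℂ) * e0⁻¹ + ((y0 - x0 : ℝ) : ℂ) * e0⁻¹
        + Complex.I * (r : ℂ) * (((y0 - x0 : ℝ) : ℂ) * e0⁻¹) = (⟨y0, b1⟩ : ℂ) * e0⁻¹ := by
      have e2 : (⟨x0, a1⟩ : ℂ) + ((y0 - x0 : ℝ) : ℂ)
          + Complex.I * (r : ℂ) * ((y0 - x0 : ℝ) : ℂ) = ⟨y0, b1⟩ := by
        rw [eb1]
        apply Complex.ext <;> simp
      rw [← e2]
      ring
    rw [e1]
    exact hfr _ q3
  · have e1 : (⟨x0, a1⟩ : ℂ) * e0⁻¹
        + Complex.I * (r : ℂ) * (((y0 - x0 : ℝ) : ℂ) * e0⁻¹) = (⟨x0, b1⟩ : ℂ) * e0⁻¹ := by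
      have e2 : (⟨x0, a1⟩ : ℂ)
          + Complex.I * (r : ℂ) * ((y0 - x0 : ℝ) : ℂ) = ⟨x0, b1⟩ := by
        rw [eb1]
        apply Complex.ext <;> simp
      rw [← e2]
      ring
    rw [e1]
    exact hfr _ q4

end Pool.MP_7ec17a_gt.B
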