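import Pool.Agent.Work.MP_7ec17a_gt_W.Interface
import Pool.Agent.Work.MP_7ec17a_gt_D.SUPP
import Pool.Agent.Work.MP_7ec17a_gt_D.MONO

/-!
# MP_7ec17a_gt, Theorem E, block HULL (helper44)
-/

set_option autoImplicit false

open Set

namespace Pool.MP_7ec17a_gt.D

lemma hull_up_neg (ψ : ℝ) (z w : ℂ) : up ψ (z - w) = -up ψ (w - z) := by
  unfold up
  simp only [Complex.sub_re, Complex.sub_im]
  ring

lemma hull_cont {f : ℝ → ℂ} (hf : Continuous f) (x : ℝ) :
    Continuous (fun p : ℝ × ℝ => up p.1 (f x - f p.2)) := by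
  unfold up
  simp only [Complex.sub_re, Complex.sub_im]
  have h2 : Continuous (fun p : ℝ × ℝ => f p.2) := hf.comp continuous_snd
  have hre : Continuous (fun p : ℝ × ℝ => (f p.2).re) := Complex.continuous_re.comp h2
  have him : Continuous (fun p : ℝ × ℝ => (f p.2).im) := Complex.continuous_im.comp h2
  have hc : Continuous (fun p : ℝ × ℝ => Real.cos p.1) := Real.continuous_cos.comp continuous_fst
  have hs : Continuous (fun p : ℝ × ℝ => Real.sin p.1) := Real.continuous_sin.comp continuous_fst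
  exact ((continuous_const.sub him).mul hc).sub ((continuous_const.sub hre).mul hs)

lemma hull_closed {f : ℝ → ℂ} (hf : Continuous f) (κ c d : ℝ) :
    IsClosed {ψ : ℝ | ∃ s, c ≤ s ∧ s ≤ d ∧ ∀ x, 0 ≤ up (ψ + κ) (f x - f s)} := by
  have hT : IsClosed {p : ℝ × Icc c d | ∀ x, 0 ≤ up (p.1 + κ) (f x - f (p.2 : ℝ))} := by
    rw [Set.ofPred_forall]
    apply isClosed_iInter
    intro x
    have hc : Continuous (fun p : ℝ × Icc c d => up (p.1 + κ) (f x - f (p.2 : ℝ))) := by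
      have h1 : Continuous (fun p : ℝ × Icc c d => ((p.1 + κ, (p.2 : ℝ)) : ℝ × ℝ)) :=
        (continuous_fst.add continuous_const).prodMk (continuous_subtype_val.comp continuous_snd)
      exact (hull_cont hf x).comp h1
    exact isClosed_le continuous_const hc
  have h2 := isClosedMap_fst_of_compactSpace (X := ℝ) (Y := Icc c d) _ hT
  have h3 : {ψ : ℝ | ∃ s, c ≤ s ∧ s ≤ d ∧ ∀ x, 0 ≤ up (ψ + κ) (f x - f s)}
      = Prod.fst '' {p : ℝ × Icc c d | ∀ x, 0 ≤ up (p.1 + κ) (f x - f (p.2 : ℝ))} := by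
    ext ψ
    constructor
    · rintro ⟨s, h1, h2, h3⟩
      exact ⟨(ψ, ⟨s, h1, h2⟩), h3, rfl⟩
    · rintro ⟨⟨ψ', s, hs⟩, h3, rfl⟩
      exact ⟨s, hs.1, hs.2, h3⟩
  rw [h3]
  exact h2

lemma hull_int {f : ℝ → ℂ} (hf : Crv f) {s s' a b : ℝ} (h : f s = f s') (h1 : a ≤ s)
    (h2 : s ≤ b) (h3 : a ≤ s') (h4 : s' ≤ b) (hab : b < a + 1) : s = s' := by
  obtain ⟨n, hn⟩ := hf.inj s s' h
  have hn1 : (n : ℝ) < 1 := by linarith
  have hn2 : (-1 : ℝ) < n := by linarith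
  have h5 : n < 1 := by exact_mod_cast hn1
  have h6 : -1 < n := by exact_mod_cast hn2
  have h7 : n = 0 := by omega
  rw [hn, h7]
  simp

lemma hull_core {f : ℝ → ℂ} {θ : ℝ × ℝ → ℝ} {ϑa ϑb κ sa sb : ℝ} (hSUPP : Stmt_SUPP)
    (hMONO : Stmt_MONO) (hf : Crv f) (hθ : Lift f θ) (hab : ϑa < ϑb)
    (hU : ∀ ψ, ϑa ≤ ψ → ψ ≤ ϑb → ∀ s, Sup f θ s (ψ + κ) →
      ∀ x, up (ψ + κ) (f x - f s) ≤ 0 → f x = f s)
    (hE : ∀ ψ, ϑa ≤ ψ → ψ ≤ ϑb → ∃ s, Sup f θ s (ψ + κ))
    (ha : Sup f θ sa (ϑa + κ)) (hb : Sup f θ sb (ϑb + κ)) (hs : sb < sa + 1) :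
    ∀ s, sa ≤ s → s ≤ sb → ∃ ψ, ϑa ≤ ψ ∧ ψ ≤ ϑb ∧ Sup f θ s (ψ + κ) := by
  intro s h1 h2
  have hpre := isPreconnected_closed_iff.1 (isPreconnected_Icc (a := ϑa) (b := ϑb))
    _ _ (hull_closed hf.cont κ sa s) (hull_closed hf.cont κ s sb) ?_
    ⟨ϑa, ⟨le_rfl, hab.le⟩, sa, le_rfl, h1, ha.above⟩
    ⟨ϑb, ⟨hab.le, le_rfl⟩, sb, h2, le_rfl, hb.above⟩
  · obtain ⟨ψ, ⟨p1, p2⟩, ⟨s', q1, q2, q3⟩, s'', r1, r2, r3⟩ := hpre
    obtain ⟨S, hS⟩ := hE ψ p1 p2
    have e1 : f s' = f S := by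
      apply hU ψ p1 p2 S hS
      have := q3 S
      rw [hull_up_neg]
      linarith
    have e2 : f s'' = f S := by
      apply hU ψ p1 p2 S hS
      have := r3 S
      rw [hull_up_neg]
      linarith
    have e3 : s' = s'' := hull_int hf (e1.trans e2.symm) q1 (q2.trans h2) (h1.trans r1) r2 hs
    have e4 : s' = s := le_antisymm q2 (e3 ▸ r1)
    rw [e4] at q3
    rcases p1.lt_or_eq with p3 | p3
    · rcases p2.lt_or_eq with p4 | p4
      · obtain ⟨n, hn⟩ := hSUPP f θ s (ψ + κ) hf hθ q3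
        have m1 := hMONO f θ sa (s + n) (ϑa + κ) (ψ + κ) hf hθ ha hn (by linarith)
        have m2 := hMONO f θ (s + n) sb (ψ + κ) (ϑb + κ) hf hθ hn hb (by linarith)
        have hn1 : (n : ℝ) < 1 := by linarith
        have hn2 : (-1 : ℝ) < n := by linarith
        have h5 : n < 1 := by exact_mod_cast hn1
        have h6 : -1 < n := by exact_mod_cast hn2
        have h7 : n = 0 := by omega
        rw [h7, Int.cast_zero, add_zero] at hn
        exact ⟨ψ, p1, p2, hn⟩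
      · have e5 : f s = f sb := by
          apply hU ϑb hab.le le_rfl sb hb
          have := q3 sb
          rw [p4] at this
          rw [hull_up_neg]
          linarith
        have e6 : s = sb := hull_int hf e5 h1 h2 (h1.trans h2) le_rfl hs
        rw [e6]
        exact ⟨ϑb, hab.le, le_rfl, hb⟩
    · have e5 : f s = f sa := by
        apply hU ϑa le_rfl hab.le sa ha
        have := q3 sa
        rw [← p3] at this
        rw [hull_up_neg]
        linarith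
      have e6 : s = sa := hull_int hf e5 h1 h2 le_rfl (h1.trans h2) hs
      rw [e6]
      exact ⟨ϑa, le_rfl, hab.le, ha⟩
  · rintro ψ ⟨p1, p2⟩
    rcases p1.lt_or_eq with p3 | p3
    · rcases p2.lt_or_eq with p4 | p4
      · obtain ⟨S, hS⟩ := hE ψ p1 p2
        have m1 := hMONO f θ sa S (ϑa + κ) (ψ + κ) hf hθ ha hS (by linarith)
        have m2 := hMONO f θ S sb (ψ + κ) (ϑb + κ) hf hθ hS hb (by linarith)
        rcases le_total S s with h | h
        · exact Or.inl ⟨S, m1, h, hS.above⟩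
        · exact Or.inr ⟨S, h, m2, hS.above⟩
      · exact Or.inr ⟨sb, h2, le_rfl, by rw [p4]; exact hb.above⟩
    · exact Or.inl ⟨sa, le_rfl, h1, by rw [← p3]; exact ha.above⟩

theorem stmt_HULL (hUNI : Stmt_UNI) (hSUPS : Stmt_SUPS) : Stmt_HULL := by
  intro f θ D ϑa ϑb sa sb ta tb hW hsa hsb hta htb h1 h2
  have hab : ϑa < ϑb := by
    have := hW.wide
    have := Real.pi_pos
    linarith
  constructor
  · have h := hull_core (κ := 0) stmt_SUPP stmt_MONO hW.crv hW.lift hab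
      (fun ψ p1 p2 s hs x hx => by
        rw [add_zero] at hs hx
        exact ((hUNI f θ D ϑa ϑb ψ hW p1 p2).1 s hs).1 x hx)
      (fun ψ p1 p2 => by
        obtain ⟨s, t, h3, -, -, -⟩ := hSUPS f θ D ϑa ϑb ψ hW p1 p2
        exact ⟨s, by rw [add_zero]; exact h3⟩)
      (by rw [add_zero]; exact hsa) (by rw [add_zero]; exact hsb) h1
    intro s q1 q2
    obtain ⟨ψ, q3, q4, q5⟩ := h s q1 q2
    rw [add_zero] at q5
    exact ⟨ψ, q3, q4, q5⟩
  · exact hull_core (κ := Real.pi) stmt_SUPP stmt_MONO hW.crv hW.lift hab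
      (fun ψ p1 p2 t ht x hx => by
        rw [up_add_pi] at hx
        exact ((hUNI f θ D ϑa ϑb ψ hW p1 p2).2.1 t ht).1 x (by linarith))
      (fun ψ p1 p2 => by
        obtain ⟨s, t, -, h3, -, -⟩ := hSUPS f θ D ϑa ϑb ψ hW p1 p2
        exact ⟨t, h3⟩)
      hta htb h2

end Pool.MP_7ec17a_gt.D
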