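import Pool.Agent.Work.MP_7ec17a_gt_W.InterfaceB

set_option autoImplicit false

open Set MeasureTheory

namespace Pool.MP_7ec17a_gt.B

lemma maxi_re_lt {M : ℝ} {z e : ℂ} (hz : ‖z‖ < M) (he : ‖e‖ = 1) :
    -M < (z * e).re ∧ (z * e).re < M := by
  have h1 : |(z * e).re| ≤ ‖z * e‖ := Complex.abs_re_le_norm _
  rw [norm_mul, he, mul_one] at h1
  have h2 := abs_le.mp h1
  constructor <;> linarith [h2.1, h2.2]

lemma maxi_ar_top {K : Set ℂ} {M : ℝ} (hM : ∀ z ∈ K, ‖z‖ < M) {e : ℂ} (he : ‖e‖ = 1) {u : ℝ}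
    (hu : M ≤ u) : ar K e u = (volume K).toReal := by
  unfold ar
  congr 2
  ext z
  simp only [mem_inter_iff, mem_ofPred_eq, and_iff_left_iff_imp]
  intro hz
  exact ((maxi_re_lt (hM z hz) he).2.le).trans hu

lemma maxi_ar_bot {K : Set ℂ} {M : ℝ} (hM : ∀ z ∈ K, ‖z‖ < M) {e : ℂ} (he : ‖e‖ = 1) {u : ℝ}
    (hu : u ≤ -M) : ar K e u = 0 := by
  unfold ar
  have : K ∩ {z : ℂ | (z * e).re ≤ u} = ∅ := by
    ext z
    simp only [mem_inter_iff, mem_ofPred_eq, mem_empty_iff_false, iff_false, not_and, not_le]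
    intro hz
    exact lt_of_le_of_lt hu (maxi_re_lt (hM z hz) he).1
  rw [this]
  simp

lemma maxi_ar_clamp {K : Set ℂ} {M : ℝ} (hM0 : 0 < M) (hM : ∀ z ∈ K, ‖z‖ < M) {e : ℂ}
    (he : ‖e‖ = 1) (u : ℝ) : ar K e u = ar K e (max (-M) (min M u)) := by
  rcases le_total u (-M) with h | h
  · have h1 : min M u = u := min_eq_right (by linarith)
    rw [h1, max_eq_left h, maxi_ar_bot hM he h, maxi_ar_bot hM he le_rfl]
  · rcases le_total u M with h2 | h2
    · rw [min_eq_right h2, max_eq_right h]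
    · rw [min_eq_left h2, max_eq_right (by linarith), maxi_ar_top hM he h2,
        maxi_ar_top hM he le_rfl]

lemma maxi_clamp_lip (M x y : ℝ) :
    |max (-M) (min M y) - max (-M) (min M x)| ≤ |y - x| := by
  have h1 : |max (-M) (min M y) - max (-M) (min M x)| ≤ max |-M - -M| |min M y - min M x| :=
    abs_max_sub_max_le_max (-M) (min M y) (-M) (min M x)
  have h2 : |min M y - min M x| ≤ max |M - M| |y - x| := abs_min_sub_min_le_max M y M x
  have e1 : max |-M - -M| |min M y - min M x| = |min M y - min M x| := by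
    rw [sub_self, abs_zero]; exact max_eq_right (abs_nonneg _)
  have e2 : max |M - M| |y - x| = |y - x| := by
    rw [sub_self, abs_zero]; exact max_eq_right (abs_nonneg _)
  rw [e1] at h1
  rw [e2] at h2
  exact h1.trans h2

lemma maxi_J_clamp {K : Set ℂ} {M r : ℝ} (hr : 0 < r) (hM0 : 0 < M) (hM : ∀ z ∈ K, ‖z‖ < M)
    {e : ℂ} (he : ‖e‖ = 1) (x y : ℝ) :
    J K r e x y ≤ J K r e (max (-M) (min M x)) (max (-M) (min M y)) := by
  unfold J
  rw [← maxi_ar_clamp hM0 hM he x, ← maxi_ar_clamp hM0 hM he y]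
  have h := maxi_clamp_lip M x y
  have h2 : (max (-M) (min M y) - max (-M) (min M x)) ^ 2 ≤ (y - x) ^ 2 := sq_le_sq.mpr h
  have h3 := mul_le_mul_of_nonneg_left h2 (by linarith : (0 : ℝ) ≤ r / 2)
  linarith

/-- The area of a rectangle. -/
lemma maxi_volume_box (a b c d : ℝ) :
    volume {z : ℂ | (a < z.re ∧ z.re ≤ b) ∧ (c < z.im ∧ z.im ≤ d)} =
      ENNReal.ofReal (b - a) * ENNReal.ofReal (d - c) := by
  have h := Complex.volume_preserving_equiv_real_prod
  have h1 : {z : ℂ | (a < z.re ∧ z.re ≤ b) ∧ (c < z.im ∧ z.im ≤ d)} =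
      Complex.measurableEquivRealProd ⁻¹' (Ioc a b ×ˢ Ioc c d) := by
    ext z
    simp [Complex.measurableEquivRealProd_apply]
  rw [h1, h.measure_preimage ((measurableSet_Ioc.prod measurableSet_Ioc).nullMeasurableSet),
    Measure.volume_eq_prod, Measure.prod_prod, Real.volume_Ioc, Real.volume_Ioc]

lemma maxi_pos {K : Set ℂ} {r : ℝ} (hK : IsCompact K) (hint : (interior K).Nonempty)
    (hr : 0 < r) : ∃ x y : ℝ, 0 < J K r 1 x y := by
  obtain ⟨z0, hz0⟩ := hint
  obtain ⟨ρ, hρ, hball⟩ := Metric.isOpen_iff.mp isOpen_interior z0 hz0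
  set σ := ρ / 4 with hσ
  have hσ0 : 0 < σ := by positivity
  set δ := min σ (σ / r) with hδ
  have hδ0 : 0 < δ := lt_min hσ0 (div_pos hσ0 hr)
  have hδσ : δ ≤ σ := min_le_left _ _
  have hrδ : r * δ ≤ σ := by
    have : δ ≤ σ / r := min_le_right _ _
    calc r * δ ≤ r * (σ / r) := mul_le_mul_of_nonneg_left this hr.le
      _ = σ := by field_simp
  refine ⟨z0.re, z0.re + δ, ?_⟩
  set Q : Set ℂ := {z : ℂ | (z0.re < z.re ∧ z.re ≤ z0.re + δ) ∧
    (z0.im - σ < z.im ∧ z.im ≤ z0.im + σ)} with hQ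
  have hvQ : volume Q = ENNReal.ofReal δ * ENNReal.ofReal (2 * σ) := by
    rw [hQ, maxi_volume_box]
    congr 2 <;> ring
  have hQK : Q ⊆ K := by
    intro z hz
    obtain ⟨⟨h1, h2⟩, h3, h4⟩ := hz
    refine interior_subset (hball ?_)
    rw [Metric.mem_ball, dist_eq_norm]
    have h5 := Complex.norm_le_abs_re_add_abs_im (z - z0)
    have h6 : |(z - z0).re| ≤ σ := by
      rw [Complex.sub_re, abs_le]; constructor <;> linarith
    have h7 : |(z - z0).im| ≤ σ := by
      rw [Complex.sub_im, abs_le]; constructor <;> linarith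
    have h8 : ‖z - z0‖ ≤ 2 * σ := by linarith
    have h9 : 2 * σ < ρ := by rw [hσ]; linarith
    exact h8.trans_lt h9
  have hfin : volume K ≠ ⊤ := hK.measure_lt_top.ne
  have hfin' : ∀ S : Set ℂ, volume (K ∩ S) ≠ ⊤ := fun S =>
    ((measure_mono inter_subset_left).trans_lt hK.measure_lt_top).ne
  have hmeasQ : MeasurableSet Q := by
    rw [hQ]
    refine MeasurableSet.inter (MeasurableSet.inter ?_ ?_) (MeasurableSet.inter ?_ ?_)
    · exact measurableSet_lt measurable_const Complex.measurable_re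
    · exact measurableSet_le Complex.measurable_re measurable_const
    · exact measurableSet_lt measurable_const Complex.measurable_im
    · exact measurableSet_le Complex.measurable_im measurable_const
  have hkey : ar K 1 z0.re + δ * (2 * σ) ≤ ar K 1 (z0.re + δ) := by
    unfold ar
    have hdis : Disjoint (K ∩ {z : ℂ | (z * 1).re ≤ z0.re}) Q := by
      rw [Set.disjoint_left]
      rintro z ⟨_, h1⟩ ⟨⟨h2, _⟩, _⟩
      simp only [mul_one, mem_ofPred_eq] at h1
      linarith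
    have hsub : (K ∩ {z : ℂ | (z * 1).re ≤ z0.re}) ∪ Q ⊆ K ∩ {z : ℂ | (z * 1).re ≤ z0.re + δ} := by
      rintro z (⟨h1, h2⟩ | h1)
      · refine ⟨h1, ?_⟩
        simp only [mul_one, mem_ofPred_eq] at h2 ⊢
        linarith
      · refine ⟨hQK h1, ?_⟩
        simp only [mul_one, mem_ofPred_eq]
        exact h1.1.2
    have h1 := measure_mono (μ := volume) hsub
    rw [measure_union hdis hmeasQ, hvQ] at h1
    have h2 := ENNReal.toReal_mono (hfin' _) h1
    rw [ENNReal.toReal_add (hfin' _) (by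
      exact ENNReal.mul_ne_top ENNReal.ofReal_ne_top ENNReal.ofReal_ne_top), ENNReal.toReal_mul,
      ENNReal.toReal_ofReal hδ0.le, ENNReal.toReal_ofReal (by positivity)] at h2
    exact h2
  unfold J
  have h1 : z0.re + δ - z0.re = δ := by ring
  rw [h1]
  have h2 : r / 2 * δ ^ 2 ≤ σ / 2 * δ := by nlinarith
  have h3 : 0 < δ * σ := mul_pos hδ0 hσ0
  nlinarith

theorem stmt_MAXI (hCONT : Stmt_CONT) : Stmt_MAXI := by
  intro K r hK hint hr
  obtain ⟨M, hM0, hM⟩ : ∃ M : ℝ, 0 < M ∧ ∀ z ∈ K, ‖z‖ < M := by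
    obtain ⟨C, hC⟩ := hK.isBounded.exists_norm_le
    refine ⟨max C 0 + 1, by positivity, fun z hz => ?_⟩
    have := hC z hz
    have h2 := le_max_left C 0
    linarith
  set T : Set (ℂ × ℝ × ℝ) := Metric.sphere (0 : ℂ) 1 ×ˢ (Icc (-M) M ×ˢ Icc (-M) M) with hT
  have hTc : IsCompact T := (isCompact_sphere _ _).prod (isCompact_Icc.prod isCompact_Icc)
  have hTne : T.Nonempty := ⟨(1, 0, 0), by simp, ⟨by linarith, hM0.le⟩, ⟨by linarith, hM0.le⟩⟩
  have hcont : ContinuousOn (fun p : ℂ × ℝ × ℝ => J K r p.1 p.2.1 p.2.2) T := by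
    have h := hCONT K hK
    unfold J
    refine ContinuousOn.sub (ContinuousOn.sub ?_ ?_) ?_
    · refine (h.comp (g := fun p : ℂ × ℝ => ar K p.1 p.2)
        (f := fun p : ℂ × ℝ × ℝ => (p.1, p.2.2)) ?_ ?_)
      · exact (continuous_fst.prodMk (continuous_snd.comp continuous_snd)).continuousOn
      · rintro p ⟨hp, _⟩
        exact ⟨by simpa using hp, mem_univ _⟩
    · refine (h.comp (g := fun p : ℂ × ℝ => ar K p.1 p.2)
        (f := fun p : ℂ × ℝ × ℝ => (p.1, p.2.1)) ?_ ?_)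
      · exact (continuous_fst.prodMk (continuous_fst.comp continuous_snd)).continuousOn
      · rintro p ⟨hp, _⟩
        exact ⟨by simpa using hp, mem_univ _⟩
    · exact (Continuous.continuousOn (by fun_prop))
  obtain ⟨⟨e0, x0, y0⟩, hmem, hmax⟩ := hTc.exists_isMaxOn hTne hcont
  have he0 : ‖e0‖ = 1 := by simpa using hmem.1
  have hall : ∀ (e : ℂ) (x y : ℝ), ‖e‖ = 1 → J K r e x y ≤ J K r e0 x0 y0 := by
    intro e x y he
    refine (maxi_J_clamp hr hM0 hM he x y).trans ?_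
    have hc : ∀ u : ℝ, max (-M) (min M u) ∈ Icc (-M) M := fun u =>
      ⟨le_max_left _ _, max_le (by linarith) (min_le_left _ _)⟩
    exact hmax (a := (e, max (-M) (min M x), max (-M) (min M y)))
      ⟨by simpa using he, hc x, hc y⟩
  obtain ⟨x, y, hxy⟩ := maxi_pos hK hint hr
  exact ⟨e0, x0, y0, he0, hxy.trans_le (hall 1 x y (by simp)), hall⟩

end Pool.MP_7ec17a_gt.B
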