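import Pool.Agent.Work.MP_7ec17a_gt_W.Interface
import Pool.Agent.Work.MP_7ec17a_gt_D.SUPP
import Pool.Agent.Work.MP_7ec17a_gt_D.MONO

/-!
# MP_7ec17a_gt, Theorem E: block NARR
-/

set_option autoImplicit false

open Set

namespace Pool.MP_7ec17a_gt.D

open Pool.MP_7ec17a_gt.T Pool.MP_7ec17a_gt.M

theorem stmt_NARR : Stmt_NARR := by
  intro f θ D ψ α β s0 t0 hf hθ hD hdiam hup hα hβ hαβ hwα hwβ
  have hpi := Real.pi_pos
  set w : ℂ := ⟨Real.cos ψ, -Real.sin ψ⟩ with hw
  have hre : ∀ z : ℂ, (w * z).re = rt ψ z := fun z => by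
    rw [Complex.mul_re]
    simp only [hw]
    unfold rt
    ring
  have him : ∀ z : ℂ, (w * z).im = up ψ z := fun z => by
    rw [Complex.mul_im]
    simp only [hw]
    unfold up
    ring
  have hcs := Real.sin_sq_add_cos_sq ψ
  have hwc : (starRingEnd ℂ) w * w = 1 := by
    rw [mul_comm, Complex.mul_conj]
    have : Complex.normSq w = 1 := by
      rw [Complex.normSq_apply]
      simp only [hw]
      linarith only [hcs, show Real.cos ψ * Real.cos ψ = Real.cos ψ ^ 2 by ring,
        show -Real.sin ψ * -Real.sin ψ = Real.sin ψ ^ 2 by ring]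
    rw [this, Complex.ofReal_one]
  have hwn : ‖w‖ = 1 := by
    have h1 : ‖(starRingEnd ℂ) w * w‖ = 1 := by rw [hwc, norm_one]
    rw [norm_mul, Complex.norm_conj] at h1
    have h2 := norm_nonneg w
    nlinarith only [h1, h2]
  have hw0 : w ≠ 0 := by
    intro h
    rw [h, norm_zero] at hwn
    exact zero_ne_one hwn
  have hupr : ∀ (φ : ℝ) (z : ℂ), up φ (w * z) = up (ψ + φ) z := fun φ z => by
    have e : up φ (w * z) = (w * z).im * Real.cos φ - (w * z).re * Real.sin φ := rfl
    rw [e, hre, him]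
    unfold up rt
    rw [Real.cos_add, Real.sin_add]
    ring
  set g : ℝ → ℂ := fun t => w * f t with hg
  have hgs : ∀ s t, g t - g s = w * (f t - f s) := fun s t => by
    simp only [hg]
    ring
  have gC : Crv g := by
    refine ⟨?_, fun t => ?_, fun s t h => ?_⟩
    · exact continuous_const.mul hf.cont
    · simp only [hg, hf.per]
    · exact hf.inj s t (mul_left_cancel₀ hw0 h)
  have gL : Lift g (fun z => θ z - ψ) := by
    refine ⟨hθ.cont.sub continuousOn_const, fun z hz => ?_, fun s s' h1 h2 => ?_⟩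
    · have h := hθ.pol z hz
      have e1 := rt_pol h ψ
      have e2 := up_pol h ψ
      rw [hgs]
      constructor
      · rw [hre, e1, norm_mul, hwn, one_mul]
      · rw [him, e2, norm_mul, hwn, one_mul]
    · show θ (s', s + 1) - ψ = θ (s, s') - ψ + Real.pi
      rw [hθ.turn s s' h1 h2]
      ring
  have gdiam : ∀ s t, ‖g t - g s‖ ≤ D := fun s t => by
    rw [hgs, norm_mul, hwn, one_mul]
    exact hdiam s t
  have gim : (g t0 - g s0).im = D := by
    rw [hgs, him, hup]
  have gre : (g t0 - g s0).re = 0 := by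
    have h1 := Complex.sq_norm (g t0 - g s0)
    rw [Complex.normSq_apply] at h1
    have h2 := gdiam s0 t0
    have h3 := norm_nonneg (g t0 - g s0)
    rw [gim] at h1
    have h4 : ‖g t0 - g s0‖ ^ 2 ≤ D ^ 2 := pow_le_pow_left₀ h3 h2 2
    have h5 : (g t0 - g s0).re ^ 2 ≤ 0 := by nlinarith only [h1, h4]
    exact pow_eq_zero_iff (two_ne_zero) |>.1 (le_antisymm h5 (sq_nonneg _))
  obtain ⟨θ1, a1, a2, sp, tm, a3, a4, a5⟩ := trap_left (f := g) (s0 := s0) (t0 := t0) (D := D)
    (ϑ := 0) (θe := α) gC hD hα (by rw [gre, Real.sin_zero]; ring)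
    (by rw [gim, Real.cos_zero]; ring) gdiam (fun s t => by rw [hgs, hupr]; exact hwα s t)
  obtain ⟨θ2, b1, b2, sm, tp, b3, b4, b5⟩ := trap_right (f := g) (s0 := s0) (t0 := t0) (D := D)
    (ϑ := 0) (θe := -β) gC hD (by linarith) (by rw [gre, Real.sin_zero]; ring)
    (by rw [gim, Real.cos_zero]; ring) gdiam
    (fun s t => by rw [hgs, hupr, ← sub_eq_add_neg]; exact hwβ s t)
  obtain ⟨R, hR, H⟩ := assem stmt_SUPP stmt_MONO gC gL (θ1 := θ1) (θ2 := θ2) (by linarith)
    (by linarith) (by linarith) (by linarith) a3 a4 a5 b3 b4 b5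
  refine ⟨R, hR, fun r hr => ?_⟩
  obtain ⟨s, s', t, t', v, hv, e1, e2, e3⟩ := H r hr
  have hc0 : (starRingEnd ℂ) w ≠ 0 := by
    intro h
    rw [h, zero_mul] at hwc
    exact zero_ne_one hwc
  have hback : ∀ z, f z = (starRingEnd ℂ) w * g z := fun z => by
    simp only [hg]
    rw [← mul_assoc, hwc, one_mul]
  refine ⟨s, s', t, t', (starRingEnd ℂ) w * v, mul_ne_zero hc0 hv, ?_, ?_, ?_⟩
  · rw [hback s', e1, hback s]; ring
  · rw [hback t', e2, hback s]; ring
  · rw [hback t, e3, hback s]; ring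

end Pool.MP_7ec17a_gt.D
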