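import Pool.Agent.Work.MP_7ec17a_gt_W.Interface

set_option autoImplicit false

open Set

namespace Pool.MP_7ec17a_gt.D

/-- Points of a periodic set far to the right. -/
theorem plat_right (Θ : Set ℝ) (hp : ∀ ψ, ψ ∈ Θ → ψ + Real.pi ∈ Θ) (x : ℝ) (hx : x ∈ Θ) (n : ℕ) :
    x + n * Real.pi ∈ Θ := by
  induction n with
  | zero => simpa using hx
  | succ n ih =>
    have h := hp _ ih
    have e : x + ((n + 1 : ℕ) : ℝ) * Real.pi = x + n * Real.pi + Real.pi := by
      push_cast
      ring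
    rw [e]
    exact h

/-- Points of a periodic set far to the left. -/
theorem plat_left (Θ : Set ℝ) (hm : ∀ ψ, ψ ∈ Θ → ψ - Real.pi ∈ Θ) (x : ℝ) (hx : x ∈ Θ) (n : ℕ) :
    x - n * Real.pi ∈ Θ := by
  induction n with
  | zero => simpa using hx
  | succ n ih =>
    have h := hm _ ih
    have e : x - ((n + 1 : ℕ) : ℝ) * Real.pi = x - n * Real.pi - Real.pi := by
      push_cast
      ring
    rw [e]
    exact h

/-- An open condition at the end point of an interval. -/
theorem plat_end (Θ : Set ℝ) (hc : IsClosed Θ) (y : ℝ) (hy : y ∉ Θ) (d : ℝ) (hd : 0 < d) :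
    ∃ e : ℝ, 0 < e ∧ e < d ∧ y - e ∉ Θ ∧ y + e ∉ Θ := by
  obtain ⟨r, hr, hball⟩ := Metric.isOpen_iff.1 hc.isOpen_compl y hy
  refine ⟨min r d / 2, by positivity, ?_, ?_, ?_⟩
  · have h1 : min r d ≤ d := min_le_right _ _
    linarith [min_le_right r d]
  · refine hball ?_
    have h1 : min r d ≤ r := min_le_left _ _
    have h2 : 0 < min r d := lt_min hr hd
    rw [Metric.mem_ball, Real.dist_eq, abs_lt]
    constructor <;> linarith
  · refine hball ?_
    have h1 : min r d ≤ r := min_le_left _ _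
    have h2 : 0 < min r d := lt_min hr hd
    rw [Metric.mem_ball, Real.dist_eq, abs_lt]
    constructor <;> linarith

theorem stmt_PLAT : Stmt_PLAT := by
  intro Θ hc hne hp hm hex h
  obtain ⟨ψ0, hψ0⟩ := hex
  obtain ⟨x0, hx0⟩ := hne
  have hpi := Real.pi_pos
  -- the next point to the right
  have hUne : (Θ ∩ Ici ψ0).Nonempty := by
    obtain ⟨n, hn⟩ := exists_nat_gt ((ψ0 - x0) / Real.pi)
    refine ⟨x0 + n * Real.pi, plat_right Θ hp x0 hx0 n, ?_⟩
    rw [div_lt_iff₀ hpi] at hn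
    show ψ0 ≤ x0 + n * Real.pi
    linarith
  have hUc : IsClosed (Θ ∩ Ici ψ0) := hc.inter isClosed_Ici
  have hUb : BddBelow (Θ ∩ Ici ψ0) := ⟨ψ0, fun y hy => hy.2⟩
  have hb := hUc.csInf_mem hUne hUb
  set b := sInf (Θ ∩ Ici ψ0) with hbdef
  -- the next point to the left
  have hLne : (Θ ∩ Iic ψ0).Nonempty := by
    obtain ⟨n, hn⟩ := exists_nat_gt ((x0 - ψ0) / Real.pi)
    refine ⟨x0 - n * Real.pi, plat_left Θ hm x0 hx0 n, ?_⟩
    rw [div_lt_iff₀ hpi] at hn
    show x0 - n * Real.pi ≤ ψ0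
    linarith
  have hLc : IsClosed (Θ ∩ Iic ψ0) := hc.inter isClosed_Iic
  have hLb : BddAbove (Θ ∩ Iic ψ0) := ⟨ψ0, fun y hy => hy.2⟩
  have ha := hLc.csSup_mem hLne hLb
  set a := sSup (Θ ∩ Iic ψ0) with hadef
  have haψ : a < ψ0 := lt_of_le_of_ne ha.2 (fun e => hψ0 (e ▸ ha.1))
  have hψb : ψ0 < b := lt_of_le_of_ne hb.2 (fun e => hψ0 (e ▸ hb.1))
  have hgap : ∀ x, a < x → x < b → x ∉ Θ := by
    intro x h1 h2 hx
    rcases le_total ψ0 x with h3 | h3
    · have := csInf_le hUb ⟨hx, h3⟩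
      linarith
    · have := le_csSup hLb ⟨hx, h3⟩
      linarith
  -- (1)
  have r1 : ∀ x, 0 < x → x < Real.pi / 2 → b + x ∈ Θ := by
    intro x hx1 hx2
    by_contra hx
    have hβ : 0 < min ((b - a) / 2) (Real.pi / 2 - x) := lt_min (by linarith) (by linarith)
    have h1 := min_le_left ((b - a) / 2) (Real.pi / 2 - x)
    have h2 := min_le_right ((b - a) / 2) (Real.pi / 2 - x)
    exact h b x _ hb.1 hx1 hβ (by linarith) hx (hgap _ (by linarith) (by linarith))
  have r2 : b + Real.pi / 2 ∈ Θ := by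
    by_contra hx
    obtain ⟨e, he1, he2, he3, -⟩ := plat_end Θ hc _ hx (Real.pi / 2) (by linarith)
    refine he3 ?_
    have := r1 (Real.pi / 2 - e) (by linarith) (by linarith)
    have e1 : b + Real.pi / 2 - e = b + (Real.pi / 2 - e) := by ring
    rw [e1]
    exact this
  have R : ∀ x, 0 ≤ x → x ≤ Real.pi / 2 → b + x ∈ Θ := by
    intro x hx1 hx2
    rcases hx1.eq_or_lt with h1 | h1
    · rw [← h1, add_zero]
      exact hb.1
    · rcases hx2.eq_or_lt with h2 | h2
      · rw [h2]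
        exact r2
      · exact r1 x h1 h2
  -- (2)
  have L : ∀ x, 0 ≤ x → x < Real.pi / 2 → a - x ∈ Θ := by
    intro x hx0 hx2
    rcases hx0.eq_or_lt with h1 | hx1
    · rw [← h1, sub_zero]
      exact ha.1
    · by_contra hx
      have hβ : 0 < min ((b - a) / 2) (Real.pi / 2 - x) := lt_min (by linarith) (by linarith)
      have h1 := min_le_left ((b - a) / 2) (Real.pi / 2 - x)
      have h2 := min_le_right ((b - a) / 2) (Real.pi / 2 - x)
      exact h a _ x ha.1 hβ hx1 (by linarith) (hgap _ (by linarith) (by linarith)) hx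
  -- (3)
  have hba : b - a ≤ Real.pi / 2 := by
    by_contra hlt
    push Not at hlt
    have h1 := hm _ r2
    exact hgap (b + Real.pi / 2 - Real.pi) (by linarith) (by linarith) h1
  refine ⟨b, a + Real.pi, by linarith, by linarith, ?_, ?_⟩
  · intro ψ h1 h2
    rcases le_total ψ (b + Real.pi / 2) with h3 | h3
    · have := R (ψ - b) (by linarith) (by linarith)
      have e : b + (ψ - b) = ψ := by ring
      rw [e] at this
      exact this
    · have h4 := L (a - (ψ - Real.pi)) (by linarith) (by linarith)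
      have h5 := hp _ h4
      have e : a - (a - (ψ - Real.pi)) + Real.pi = ψ := by ring
      rw [e] at h5
      exact h5
  · intro ψ h1 h2 h3
    exact hgap (ψ - Real.pi) (by linarith) (by linarith) (hm _ h3)

end Pool.MP_7ec17a_gt.D
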