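import Pool.Agent.Work.MP_7ec17a_gt_W.Interface
import Pool.Agent.Work.MP_7ec17a_gt_D.MONO

/-!
# MP_7ec17a_gt, Theorem E: block STR (strict inequalities at the corners)
-/

set_option autoImplicit false

open Set

namespace Pool.MP_7ec17a_gt.D

/-- the coordinates of a vector with given components -/
lemma str_coord {w : ℂ} {D ψ : ℝ} (h1 : up ψ w = D) (h2 : rt ψ w = 0) :
    w.re = -(D * Real.sin ψ) ∧ w.im = D * Real.cos ψ := by
  unfold up at h1
  unfold rt at h2
  have h3 := Real.sin_sq_add_cos_sq ψ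
  constructor
  · have : w.re * (Real.sin ψ ^ 2 + Real.cos ψ ^ 2) = -(D * Real.sin ψ) := by
      rw [← h1]
      linear_combination Real.cos ψ * h2
    rw [h3, mul_one] at this
    exact this
  · have : w.im * (Real.sin ψ ^ 2 + Real.cos ψ ^ 2) = D * Real.cos ψ := by
      rw [← h1]
      linear_combination Real.sin ψ * h2
    rw [h3, mul_one] at this
    exact this

/-- two such vectors in directions at an angle of at least `π / 2` are far apart -/
lemma str_far {w1 w2 : ℂ} {D ϑa ϑb : ℝ} (hD : 0 < D) (h : Real.pi / 2 ≤ ϑb - ϑa)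
    (h' : ϑb - ϑa < Real.pi) (u1 : up ϑa w1 = D) (r1 : rt ϑa w1 = 0) (u2 : up ϑb w2 = D)
    (r2 : rt ϑb w2 = 0) (hle : ‖w2 - w1‖ ≤ D) : False := by
  obtain ⟨a1, b1⟩ := str_coord u1 r1
  obtain ⟨a2, b2⟩ := str_coord u2 r2
  have hcos : Real.cos (ϑb - ϑa) ≤ 0 :=
    Real.cos_nonpos_of_pi_div_two_le_of_le h (by linarith [Real.pi_pos])
  have h1 : ‖w2 - w1‖ ^ 2 = D ^ 2 * (2 - 2 * Real.cos (ϑb - ϑa)) := by
    rw [Complex.sq_norm, Complex.normSq_apply, Complex.sub_re, Complex.sub_im, a1, b1, a2, b2,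
      Real.cos_sub]
    have e1 := Real.sin_sq_add_cos_sq ϑa
    have e2 := Real.sin_sq_add_cos_sq ϑb
    linear_combination D ^ 2 * e1 + D ^ 2 * e2
  have h2 : ‖w2 - w1‖ ^ 2 ≤ D ^ 2 := pow_le_pow_left₀ (norm_nonneg _) hle 2
  rw [h1] at h2
  nlinarith [pow_pos hD 2]

theorem stmt_STR (hUNI : Stmt_UNI) : Stmt_STR := by
  intro f θ D ϑa ϑb sa sb ta tb hW hsa hsb hta htb
  have hpi := Real.pi_pos
  have hw := hW.wide
  have hg := hW.gap
  obtain ⟨ua1, ua2, ua3⟩ := hUNI f θ D ϑa ϑb ϑa hW le_rfl (by linarith)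
  obtain ⟨ub1, ub2, ub3⟩ := hUNI f θ D ϑa ϑb ϑb hW (by linarith) le_rfl
  obtain ⟨pa, qa⟩ := ua3 sa ta hsa hta
  obtain ⟨pb, qb⟩ := ub3 sb tb hsb htb
  refine ⟨fun h1 h2 => ?_, fun h1 h2 => ?_, ?_, ?_⟩
  · have e1 := (ua1 sa hsa).2 tb h1 h2
    have e2 := (ub2 tb htb).2 sa (by linarith) h1
    constructor
    · linarith [e2.1]
    · linarith [e1.2]
  · have e1 := (ub1 sb hsb).2 ta h1 h2
    have e2 := (ua2 ta hta).2 sb (by linarith) h1
    constructor
    · linarith [e1.1]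
    · linarith [e2.2]
  · rcases lt_or_eq_of_le (stmt_MONO f θ sa sb ϑa ϑb hW.crv hW.lift hsa hsb (by linarith)) with
      h | h
    · exact h
    · exfalso
      refine str_far hW.pos hw hg pa qa pb qb ?_
      have : f tb - f sb - (f ta - f sa) = f tb - f ta := by rw [h]; ring
      rw [this]
      exact hW.diam _ _
  · rcases lt_or_eq_of_le (stmt_MONO f θ ta tb (ϑa + Real.pi) (ϑb + Real.pi) hW.crv hW.lift hta
      htb (by linarith)) with h | h
    · exact h
    · exfalso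
      refine str_far hW.pos hw hg pa qa pb qb ?_
      have : f tb - f sb - (f ta - f sa) = f sa - f sb := by rw [h]; ring
      rw [this]
      exact hW.diam _ _

end Pool.MP_7ec17a_gt.D
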