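import Pool.Agent.Work.MP_7ec17a_gt_W.InterfaceB

/-!
# MP_7ec17a_gt, Theorem E, part B: block STRI

A compact set of constant width, equal to its diameter: the convex hull is strictly convex and its
boundary is contained in the set.
-/

set_option autoImplicit false

open Set MeasureTheory

namespace Pool.MP_7ec17a_gt.B

/-- Caratheodory: a convex hull as a finite union of images. -/
theorem stri_hull_eq {E : Type*} [NormedAddCommGroup E] [NormedSpace ℝ E]
    [FiniteDimensional ℝ E] (s : Set E) :
    convexHull ℝ s = ⋃ n ∈ Finset.range (Module.finrank ℝ E + 2),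
      (fun p : (Fin n → ℝ) × (Fin n → E) => ∑ i, p.1 i • p.2 i) ''
        (stdSimplex ℝ (Fin n) ×ˢ Set.pi Set.univ fun _ => s) := by
  apply Set.Subset.antisymm
  · intro x hx
    rw [convexHull_eq_union] at hx
    simp only [Set.mem_iUnion] at hx
    obtain ⟨t, hts, hai, hx⟩ := hx
    rw [Finset.mem_convexHull] at hx
    obtain ⟨w, hw0, hw1, hx⟩ := hx
    rw [Finset.centerMass_eq_of_sum_1 _ _ hw1] at hx
    have hcard := hai.card_le_finrank_succ
    rw [Fintype.card_coe] at hcard
    have hfr : Module.finrank ℝ (vectorSpan ℝ (Set.range ((↑) : t → E))) ≤ Module.finrank ℝ E :=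
      Submodule.finrank_le _
    simp only [Set.mem_iUnion]
    refine ⟨t.card, Finset.mem_range.2 (by omega), ?_⟩
    set e := t.equivFin with he
    refine ⟨(fun i => w (e.symm i : E), fun i => (e.symm i : E)), ⟨⟨?_, ?_⟩, ?_⟩, ?_⟩
    · exact fun i => hw0 _ (e.symm i).2
    · have h1 : ∑ i, w (e.symm i : E) = ∑ y : t, w (y : E) := Equiv.sum_comp e.symm fun y => w (y : E)
      simp only
      rw [h1, Finset.sum_coe_sort t w]
      exact hw1
    · intro i _
      exact hts (e.symm i).2
    · have h1 : ∑ i, w (e.symm i : E) • (e.symm i : E) = ∑ y : t, w (y : E) • (y : E) :=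
        Equiv.sum_comp e.symm fun y => w (y : E) • (y : E)
      simp only
      rw [h1, Finset.sum_coe_sort t (fun y => w y • y)]
      exact hx
  · intro x hx
    simp only [Set.mem_iUnion] at hx
    obtain ⟨n, -, ⟨w, z⟩, ⟨⟨hw0, hw1⟩, hz⟩, rfl⟩ := hx
    exact (convex_convexHull ℝ s).sum_mem (fun i _ => hw0 i) hw1
      fun i _ => subset_convexHull ℝ s (hz i (Set.mem_univ i))

/-- The convex hull of a compact set of the plane is compact. -/
theorem stri_compact_hull {s : Set ℂ} (hs : IsCompact s) : IsCompact (convexHull ℝ s) := by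
  rw [stri_hull_eq]
  apply Finset.isCompact_biUnion
  intro n _
  apply IsCompact.image
  · exact (isCompact_stdSimplex ℝ (Fin n)).prod (isCompact_univ_pi fun _ => hs)
  · fun_prop

/-- A complex number of norm at most `D` and real part at least `D` is `D`. -/
theorem stri_eq_of_norm_le {u : ℂ} {D : ℝ} (hD : 0 < D) (h1 : ‖u‖ ≤ D) (h2 : D ≤ u.re) :
    u = (D : ℂ) := by
  have h3 : u.re ≤ D := (Complex.re_le_norm u).trans h1
  have h4 : u.re = D := le_antisymm h3 h2
  have h5 : ‖u‖ ^ 2 = u.re ^ 2 + u.im ^ 2 := by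
    rw [← Complex.normSq_eq_norm_sq, Complex.normSq_apply]; ring
  have h6 : ‖u‖ ^ 2 ≤ D ^ 2 := by
    have := norm_nonneg u
    nlinarith
  have h7 : u.im ^ 2 ≤ 0 := by rw [h5, h4] at h6; linarith
  have h8 : u.im = 0 := by
    have := sq_nonneg u.im
    exact pow_eq_zero_iff (two_ne_zero) |>.1 (le_antisymm h7 this)
  apply Complex.ext
  · rw [h4]; simp
  · rw [h8]; simp

/-- A real linear functional on the plane. -/
theorem stri_functional (f : ℂ →ₗ[ℝ] ℝ) (z : ℂ) : f z = (z * (⟨f 1, -f Complex.I⟩ : ℂ)).re := by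
  have h : z = z.re • (1 : ℂ) + z.im • Complex.I := by
    apply Complex.ext <;> simp
  conv_lhs => rw [h]
  rw [map_add, map_smul, map_smul, Complex.mul_re]
  simp

/-- Normalisation of a functional: if `f` is not zero there are a unit vector `e` and `c > 0` such that
the real part of `z * e` is `c * f z`. -/
theorem stri_unit (f : ℂ →ₗ[ℝ] ℝ) (hf : f ≠ 0) :
    ∃ (e : ℂ) (c : ℝ), ‖e‖ = 1 ∧ 0 < c ∧ ∀ z : ℂ, (z * e).re = c * f z := by
  set d : ℂ := ⟨f 1, -f Complex.I⟩ with hd
  have hd0 : d ≠ 0 := by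
    intro h
    apply hf
    refine LinearMap.ext fun z => ?_
    rw [stri_functional f z, ← hd, h, mul_zero]
    rfl
  have hn : 0 < ‖d‖ := norm_pos_iff.2 hd0
  refine ⟨(‖d‖⁻¹ : ℝ) • d, ‖d‖⁻¹, ?_, inv_pos.2 hn, fun z => ?_⟩
  · rw [norm_smul, Real.norm_eq_abs, abs_of_pos (inv_pos.2 hn)]
    exact inv_mul_cancel₀ hn.ne'
  · rw [mul_smul_comm, Complex.smul_re, stri_functional f z, smul_eq_mul]

theorem stmt_STRI : Stmt_STRI := by
  intro X D hX hD hdiam hwid
  set K : Set ℂ := convexHull ℝ X with hK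
  have hKcompact : IsCompact K := stri_compact_hull hX
  have hKconv : Convex ℝ K := convex_convexHull ℝ X
  have hXK : X ⊆ K := subset_convexHull ℝ X
  -- diameter of the hull
  have hd1 : ∀ z ∈ K, ∀ w ∈ X, ‖w - z‖ ≤ D := by
    intro z hz w hw
    have h1 : X ⊆ Metric.closedBall w D := fun z' hz' => by
      rw [mem_closedBall_iff_norm]
      exact hdiam w hw z' hz'
    have h2 : K ⊆ Metric.closedBall w D := convexHull_min h1 (convex_closedBall w D)
    have h3 := h2 hz
    rw [mem_closedBall_iff_norm'] at h3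
    exact h3
  have hd2 : ∀ z ∈ K, ∀ w ∈ K, ‖w - z‖ ≤ D := by
    intro z hz w hw
    have h1 : X ⊆ Metric.closedBall z D := fun z' hz' => by
      rw [mem_closedBall_iff_norm]
      exact hd1 z hz z' hz'
    have h2 : K ⊆ Metric.closedBall z D := convexHull_min h1 (convex_closedBall z D)
    have h3 := h2 hw
    rw [mem_closedBall_iff_norm] at h3
    exact h3
  -- unique maximum points
  have hmax : ∀ e : ℂ, ‖e‖ = 1 → ∃ q ∈ X, ∀ p ∈ K, (∀ z ∈ K, (z * e).re ≤ (p * e).re) → p = q := by
    intro e he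
    obtain ⟨z0, hz0, w0, hw0, h⟩ := hwid e he
    have he0 : e ≠ 0 := fun h0 => by rw [h0, norm_zero] at he; norm_num at he
    refine ⟨w0, hw0, fun p hp hpm => ?_⟩
    have a1 : (w0 - z0) * e = (D : ℂ) := by
      refine stri_eq_of_norm_le hD ?_ h.ge
      rw [norm_mul, he, mul_one]
      exact hdiam z0 hz0 w0 hw0
    have a2 : (p - z0) * e = (D : ℂ) := by
      refine stri_eq_of_norm_le hD ?_ ?_
      · rw [norm_mul, he, mul_one]
        exact hd2 z0 (hXK hz0) p hp
      · have b1 := hpm w0 (hXK hw0)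
        have b2 : ((w0 - z0) * e).re = (w0 * e).re - (z0 * e).re := by rw [sub_mul, Complex.sub_re]
        have b3 : ((p - z0) * e).re = (p * e).re - (z0 * e).re := by rw [sub_mul, Complex.sub_re]
        rw [b3]
        rw [b2] at h
        linarith
    have a3 : p - z0 = w0 - z0 := mul_right_cancel₀ he0 (a2.trans a1.symm)
    exact sub_left_injective a3
  -- the interior
  have hint : (interior K).Nonempty := by
    rw [hK, interior_convexHull_nonempty_iff_affineSpan_eq_top]
    obtain ⟨z1, hz1, _⟩ := hwid 1 (by simp)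
    rw [AffineSubspace.affineSpan_eq_top_iff_vectorSpan_eq_top_of_nonempty ℝ ℂ ℂ ⟨z1, hz1⟩]
    by_contra hne
    obtain ⟨f, hf, hker⟩ := Submodule.exists_le_ker_of_lt_top (vectorSpan ℝ X)
      (lt_top_iff_ne_top.2 hne)
    obtain ⟨e, c, he, hc, hec⟩ := stri_unit f hf
    obtain ⟨z0, hz0, w0, hw0, h⟩ := hwid e he
    have h0 : f (w0 - z0) = 0 := by
      have : w0 -ᵥ z0 ∈ vectorSpan ℝ X := vsub_mem_vectorSpan ℝ hw0 hz0
      exact hker this
    rw [hec, h0, mul_zero] at h
    exact hD.ne h
  -- supporting functionals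
  have hsupp : ∀ p ∈ K, p ∉ interior K → ∃ e : ℂ, ‖e‖ = 1 ∧ ∀ z ∈ K, (z * e).re ≤ (p * e).re := by
    intro p _ hpi
    obtain ⟨f, hf⟩ := geometric_hahn_banach_open_point hKconv.interior isOpen_interior hpi
    have hf0 : (f : ℂ →ₗ[ℝ] ℝ) ≠ 0 := by
      intro h0
      obtain ⟨a, ha⟩ := hint
      have := hf a ha
      have e1 : f a = 0 := by
        have : (f : ℂ →ₗ[ℝ] ℝ) a = 0 := by rw [h0]; rfl
        exact this
      have e2 : f p = 0 := by
        have : (f : ℂ →ₗ[ℝ] ℝ) p = 0 := by rw [h0]; rfl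
        exact this
      rw [e1, e2] at this
      exact lt_irrefl _ this
    obtain ⟨e, c, he, hc, hec⟩ := stri_unit (f : ℂ →ₗ[ℝ] ℝ) hf0
    refine ⟨e, he, fun z hz => ?_⟩
    have hcl : z ∈ closure (interior K) := by
      rw [hKconv.closure_interior_eq_closure_of_nonempty_interior hint]
      exact subset_closure hz
    have hle : f z ≤ f p := by
      have hclosed : IsClosed {z : ℂ | f z ≤ f p} := isClosed_le f.continuous continuous_const
      exact closure_minimal (fun a ha => (hf a ha).le) hclosed hcl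
    rw [hec, hec]
    exact mul_le_mul_of_nonneg_left hle hc.le
  refine ⟨hKcompact, ?_, hint, ?_⟩
  · intro x hx y hy hxy a b ha hb hab
    by_contra hni
    have hp : a • x + b • y ∈ K := hKconv hx hy ha.le hb.le hab
    obtain ⟨e, he, hes⟩ := hsupp _ hp hni
    obtain ⟨q, _, hq⟩ := hmax e he
    have hexp : ((a • x + b • y) * e).re = a * (x * e).re + b * (y * e).re := by
      rw [add_mul, Complex.add_re, smul_mul_assoc, smul_mul_assoc, Complex.smul_re,
        Complex.smul_re, smul_eq_mul, smul_eq_mul]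
    have hx' := hes x hx
    have hy' := hes y hy
    rw [hexp] at hx' hy'
    have hbe : b = 1 - a := by linarith
    have hxy1 : (x * e).re = (y * e).re := by
      subst hbe
      have c1 : (1 - a) * ((x * e).re - (y * e).re) ≤ 0 := by nlinarith
      have c2 : a * ((y * e).re - (x * e).re) ≤ 0 := by nlinarith
      have c3 : (x * e).re - (y * e).re ≤ 0 := by
        by_contra hcon
        push Not at hcon
        nlinarith [mul_pos hb hcon]
      have c4 : (y * e).re - (x * e).re ≤ 0 := by
        by_contra hcon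
        push Not at hcon
        nlinarith [mul_pos ha hcon]
      linarith
    have hmx : ∀ z ∈ K, (z * e).re ≤ (x * e).re := by
      intro z hz
      have := hes z hz
      rw [hexp, ← hxy1] at this
      have : (z * e).re ≤ (a + b) * (x * e).re := by linarith
      rwa [hab, one_mul] at this
    have h1 := hq x hx hmx
    have h2 := hq y hy (by rw [← hxy1]; exact hmx)
    exact hxy (h1.trans h2.symm)
  · intro p hp
    have hpK : p ∈ K := hKcompact.isClosed.frontier_subset hp
    have hpi : p ∉ interior K := hp.2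
    obtain ⟨e, he, hes⟩ := hsupp p hpK hpi
    obtain ⟨q, hqX, hq⟩ := hmax e he
    rw [hq p hpK hes]
    exact hqX

end Pool.MP_7ec17a_gt.B
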