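import Pool.Agent.Work.MP_7ec17a_gt_W.Interface
import Pool.Agent.Work.MP_7ec17a_gt_D.SUPP
import Pool.Agent.Work.MP_7ec17a_gt_D.MONO

/-!
# MP_7ec17a_gt, Theorem E: the two lifted support points of a direction of the plateau
-/

set_option autoImplicit false

open Set

namespace Pool.MP_7ec17a_gt.D

theorem stmt_SUPS : Stmt_SUPS := by
  intro f θ D ϑa ϑb ψ hW h1 h2
  have hpi := Real.pi_pos
  obtain ⟨s0, t0, hst⟩ := hW.plat ψ h1 h2
  have hs0 : ∀ x, 0 ≤ up ψ (f x - f s0) := by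
    intro x
    have h3 : up ψ (f t0 - f x) ≤ D := (up_le_norm _ _).trans (hW.diam _ _)
    rw [up_sub] at h3 hst ⊢
    linarith
  have ht0 : ∀ x, 0 ≤ up (ψ + Real.pi) (f x - f t0) := by
    intro x
    have h3 : up ψ (f x - f s0) ≤ D := (up_le_norm _ _).trans (hW.diam _ _)
    rw [up_add_pi]
    rw [up_sub] at h3 hst ⊢
    linarith
  obtain ⟨n, hn⟩ := stmt_SUPP f θ s0 ψ hW.crv hW.lift hs0
  obtain ⟨m, hm⟩ := stmt_SUPP f θ t0 (ψ + Real.pi) hW.crv hW.lift ht0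
  have hD : up ψ (f (t0 + m) - f (s0 + n)) = D := by
    rw [crv_int hW.crv, crv_int hW.crv]
    exact hst
  have hle : s0 + n ≤ t0 + m :=
    stmt_MONO f θ _ _ ψ (ψ + Real.pi) hW.crv hW.lift hn hm (by linarith)
  have hle' : t0 + m ≤ s0 + n + 1 :=
    stmt_MONO f θ _ _ (ψ + Real.pi) (ψ + 2 * Real.pi) hW.crv hW.lift hm
      (sup_shift hW.crv hW.lift hn) (by linarith)
  have hpos := hW.pos
  have h0 : ∀ z : ℂ, up ψ (z - z) = 0 := by
    intro z
    rw [up_sub, sub_self]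
  refine ⟨s0 + n, t0 + m, hn, hm, lt_of_le_of_ne hle ?_, lt_of_le_of_ne hle' ?_⟩
  · intro h
    rw [h, h0] at hD
    linarith
  · intro h
    rw [h, hW.crv.per, h0] at hD
    linarith

end Pool.MP_7ec17a_gt.D
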