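import Pool.Agent.Work.MP_7ec17a_gt_W.Interface

/-!
# MP_7ec17a_gt, Theorem E: block TIL
-/

set_option autoImplicit false

open Set

namespace Pool.MP_7ec17a_gt.D

open Pool.MP_7ec17a_gt.T Pool.MP_7ec17a_gt.M

lemma til_up (ψ : ℝ) (z : ℂ) : up (Real.pi - ψ) ((starRingEnd ℂ) z) = up ψ z := by
  unfold up
  rw [Real.cos_pi_sub, Real.sin_pi_sub, Complex.conj_re, Complex.conj_im]
  ring

lemma til_rt (ψ : ℝ) (z : ℂ) : rt (-ψ) ((starRingEnd ℂ) z) = rt ψ z := by
  unfold rt
  rw [Real.cos_neg, Real.sin_neg, Complex.conj_re, Complex.conj_im]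
  ring

lemma til_sub (f : ℝ → ℂ) (s t : ℝ) :
    tf f t - tf f s = (starRingEnd ℂ) (f (-t) - f (-s)) := by
  simp only [tf, map_sub]

lemma til_crv {f : ℝ → ℂ} (hf : Crv f) : Crv (tf f) := by
  refine ⟨?_, fun t => ?_, fun s t h => ?_⟩
  · exact Complex.continuous_conj.comp (hf.cont.comp continuous_neg)
  · have h := hf.per (-(t + 1))
    have e : -(t + 1) + 1 = -t := by ring
    rw [e] at h
    show (starRingEnd ℂ) (f (-(t + 1))) = (starRingEnd ℂ) (f (-t))
    rw [h]
  · have h1 : f (-s) = f (-t) := (starRingEnd ℂ).injective h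
    obtain ⟨n, hn⟩ := hf.inj _ _ h1
    refine ⟨-n, ?_⟩
    push_cast
    linarith

lemma til_strip {z : ℝ × ℝ} (hz : z ∈ Strip) : (-z.2, -z.1) ∈ Strip := by
  have h1 : z.1 < z.2 := hz.1
  have h2 : z.2 < z.1 + 1 := hz.2
  constructor
  · show -z.2 < -z.1
    linarith
  · show -z.1 < -z.2 + 1
    linarith

lemma til_lift {f : ℝ → ℂ} {θ : ℝ × ℝ → ℝ} (hθ : Lift f θ) : Lift (tf f) (tθ θ) := by
  refine ⟨?_, fun z hz => ?_, fun s s' h1 h2 => ?_⟩
  · have hc : ContinuousOn (fun z : ℝ × ℝ => θ (-z.2, -z.1)) Strip :=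
      hθ.cont.comp (by fun_prop) fun z hz => til_strip hz
    exact continuousOn_const.sub hc
  · have h := hθ.pol _ (til_strip hz)
    rw [til_sub]
    have e : (starRingEnd ℂ) (f (-z.2) - f (-z.1)) = -(starRingEnd ℂ) (f (-z.1) - f (-z.2)) := by
      rw [← map_neg]
      congr 1
      ring
    rw [e]
    have h1 := h.1
    have h2 := h.2
    simp only at h1 h2
    constructor
    · rw [Complex.neg_re, Complex.conj_re, norm_neg, Complex.norm_conj, h1]
      show _ = _ * Real.cos (Real.pi - θ (-z.2, -z.1))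
      rw [Real.cos_pi_sub]
      ring
    · rw [Complex.neg_im, Complex.conj_im, norm_neg, Complex.norm_conj, h2]
      show _ = _ * Real.sin (Real.pi - θ (-z.2, -z.1))
      rw [Real.sin_pi_sub]
      ring
  · have h := hθ.turn (-(s + 1)) (-s') (by linarith) (by linarith)
    have e : -(s + 1) + 1 = -s := by ring
    rw [e] at h
    show Real.pi - θ (-(s + 1), -s') = Real.pi - θ (-s', -s) + Real.pi
    linarith

lemma til_sup {f : ℝ → ℂ} {θ : ℝ × ℝ → ℝ} {s ψ : ℝ} (h : Sup f θ s ψ) {s1 ψ1 : ℝ} (hs : s1 = -s)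
    (hψ : ψ1 = Real.pi - ψ) : Sup (tf f) (tθ θ) s1 ψ1 := by
  subst hs hψ
  refine ⟨fun t => ?_, fun s' h1 h2 => ?_, fun s' h1 h2 => ?_⟩
  · rw [til_sub, til_up, neg_neg]
    exact h.above _
  · have := h.col (-s') (by linarith) (by linarith)
    show Real.pi - ψ ≤ Real.pi - θ (-s', -(-s)) ∧ Real.pi - θ (-s', -(-s)) ≤ _
    rw [neg_neg]
    constructor <;> linarith [this.1, this.2]
  · have := h.row (-s') (by linarith) (by linarith)
    show Real.pi - ψ - Real.pi ≤ Real.pi - θ (-(-s), -s') ∧ Real.pi - θ (-(-s), -s') ≤ _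
    rw [neg_neg]
    constructor <;> linarith [this.1, this.2]

theorem stmt_TIL : Stmt_TIL := by
  intro f θ ϑa ϑb θ1 θ2 k1 k2 l sm sa sb sp tp ta tb tm h
  have hpi := Real.pi_pos
  have hr : ∀ (ψ t : ℝ), rt (-ψ) (tf f t) = rt ψ (f (-t)) := fun ψ t => til_rt ψ _
  have ht : ∀ s t : ℝ, tθ θ (s, t) = Real.pi - θ (-t, -s) := fun s t => rfl
  refine
    { crv := til_crv h.crv
      lift := til_lift h.lift
      wide := by linarith [h.wide]
      hθ2 := by linarith [h.hθ1]
      hθ1 := by linarith [h.hθ2]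
      gap := by linarith [h.gap]
      Sm := til_sup h.Tm rfl (by ring)
      Sa := til_sup h.Tb rfl (by ring)
      Sb := til_sup h.Ta rfl (by ring)
      Sp := til_sup h.Tp rfl (by ring)
      Tp := til_sup h.Sp rfl (by ring)
      Ta := til_sup h.Sb rfl (by ring)
      Tb := til_sup h.Sa rfl (by ring)
      Tm := til_sup h.Sm rfl (by ring)
      hullS := ?_
      hullT := ?_
      o1 := by linarith [h.o7]
      o2 := by linarith [h.o6]
      o3 := by linarith [h.o5]
      o4 := by linarith [h.o4]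
      o5 := by linarith [h.o3]
      o6 := by linarith [h.o2]
      o7 := by linarith [h.o1]
      o8 := by linarith [h.o8]
      hl := h.hl
      ol := by linarith [h.ol']
      ol' := by linarith [h.ol]
      c1 := by rw [hr, neg_neg]; exact h.c4
      c2 := by rw [hr, neg_neg]; exact h.c3
      c3 := by rw [hr, neg_neg]; exact h.c2
      c4 := by rw [hr, neg_neg]; exact h.c1
      e1 := fun s h1 h2 => by rw [hr]; exact h.e2 (-s) (by linarith) (by linarith)
      e2 := fun t h1 h2 => by rw [hr]; exact h.e1 (-t) (by linarith) (by linarith)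
      n1 := fun t h1 h2 h3 => by
        rw [ht, neg_neg]
        linarith [h.n1' (-t) (by linarith) (by linarith) (by linarith)]
      n1' := fun s h1 h2 h3 => by
        rw [ht, neg_neg]
        linarith [h.n1 (-s) (by linarith) (by linarith) (by linarith)]
      n2 := fun s t h1 h2 h3 h4 => by
        rw [ht]
        linarith [h.n2' (-t) (-s) (by linarith) (by linarith) (by linarith) (by linarith)]
      n2' := fun s t h1 h2 h3 h4 => by
        rw [ht]
        linarith [h.n2 (-t) (-s) (by linarith) (by linarith) (by linarith) (by linarith)]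
      n3 := fun s t h1 h2 h3 h4 => by
        rw [ht]
        linarith [h.n3' (-t) (-s) (by linarith) (by linarith) (by linarith) (by linarith)]
      n3' := fun s t h1 h2 h3 h4 => by
        rw [ht]
        linarith [h.n3 (-t) (-s) (by linarith) (by linarith) (by linarith) (by linarith)]
      n4 := fun h0 s t h1 h2 h3 h4 => by
        rw [ht]
        linarith [h.n4' (by linarith) (-t) (-s) (by linarith) (by linarith) (by linarith)
          (by linarith)]
      n4' := fun h0 s t h1 h2 h3 h4 => by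
        rw [ht]
        linarith [h.n4 (by linarith) (-t) (-s) (by linarith) (by linarith) (by linarith)
          (by linarith)] }
  · intro s h1 h2
    obtain ⟨ψ, a1, a2, a3⟩ := h.hullT (-s) (by linarith) (by linarith)
    exact ⟨-ψ, by linarith, by linarith, til_sup a3 (by ring) (by ring)⟩
  · intro t h1 h2
    obtain ⟨ψ, a1, a2, a3⟩ := h.hullS (-t) (by linarith) (by linarith)
    exact ⟨-ψ, by linarith, by linarith, til_sup a3 (by ring) (by ring)⟩

end Pool.MP_7ec17a_gt.D
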