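import Pool.Agent.Work.MP_7ec17a_gt_W.Interface

set_option autoImplicit false

open Set

namespace Pool.MP_7ec17a_gt.D

/-- The strip is open. -/
theorem tube_open : IsOpen Strip := by
  have h1 : IsOpen {z : ℝ × ℝ | z.1 < z.2} := isOpen_lt continuous_fst continuous_snd
  have h2 : IsOpen {z : ℝ × ℝ | z.2 < z.1 + 1} :=
    isOpen_lt continuous_snd (continuous_fst.add continuous_const)
  exact h1.inter h2

/-- Distance to an interval. -/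
theorem tube_clamp (x0 x1 κ s : ℝ) (h : x0 ≤ x1) (h1 : x0 - κ ≤ s) (h2 : s ≤ x1 + κ)
    (hκ : 0 ≤ κ) : ∃ s', x0 ≤ s' ∧ s' ≤ x1 ∧ |s - s'| ≤ κ := by
  rcases le_total s x0 with h3 | h3
  · refine ⟨x0, le_rfl, h, ?_⟩
    rw [abs_le]
    constructor <;> linarith
  · rcases le_total s x1 with h4 | h4
    · refine ⟨s, h3, h4, ?_⟩
      rw [sub_self, abs_zero]
      exact hκ
    · refine ⟨x1, h, le_rfl, ?_⟩
      rw [abs_le]
      constructor <;> linarith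

theorem stmt_TUBE : Stmt_TUBE := by
  intro g x0 x1 y0 y1 hg hx hy hpos
  have hK : IsCompact (Icc x0 x1 ×ˢ Icc y0 y1) := isCompact_Icc.prod isCompact_Icc
  have hKne : (Icc x0 x1 ×ˢ Icc y0 y1).Nonempty :=
    ⟨(x0, y0), ⟨⟨le_rfl, hx⟩, ⟨le_rfl, hy⟩⟩⟩
  have hKS : Icc x0 x1 ×ˢ Icc y0 y1 ⊆ Strip := fun z hz =>
    (hpos z.1 z.2 hz.1.1 hz.1.2 hz.2.1 hz.2.2).1
  obtain ⟨z0, hz0, hmin⟩ := hK.exists_isMinOn hKne (hg.mono hKS)
  have hm : 0 < g z0 := (hpos z0.1 z0.2 hz0.1.1 hz0.1.2 hz0.2.1 hz0.2.2).2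
  have hO : IsOpen (Strip ∩ g ⁻¹' Ioi (g z0 / 2)) := hg.isOpen_inter_preimage tube_open isOpen_Ioi
  have hKO : Icc x0 x1 ×ˢ Icc y0 y1 ⊆ Strip ∩ g ⁻¹' Ioi (g z0 / 2) := by
    intro z hz
    refine ⟨hKS hz, ?_⟩
    have h1 : g z0 ≤ g z := hmin hz
    show g z0 / 2 < g z
    linarith
  obtain ⟨δ, hδ, hth⟩ := hK.exists_thickening_subset_open hO hKO
  refine ⟨δ / 2, g z0 / 2, by positivity, by positivity, ?_⟩
  intro s t h1 h2 h3 h4
  obtain ⟨s', a1, a2, a3⟩ := tube_clamp x0 x1 (δ / 2) s hx h1 h2 (by linarith)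
  obtain ⟨t', b1, b2, b3⟩ := tube_clamp y0 y1 (δ / 2) t hy h3 h4 (by linarith)
  have hmem : (s, t) ∈ Metric.thickening δ (Icc x0 x1 ×ˢ Icc y0 y1) := by
    rw [Metric.mem_thickening_iff]
    refine ⟨(s', t'), ⟨⟨a1, a2⟩, ⟨b1, b2⟩⟩, ?_⟩
    rw [Prod.dist_eq, max_lt_iff, Real.dist_eq, Real.dist_eq]
    constructor
    · exact lt_of_le_of_lt a3 (by linarith)
    · exact lt_of_le_of_lt b3 (by linarith)
  have h5 := hth hmem
  refine ⟨h5.1, ?_⟩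
  have h6 : g z0 / 2 < g (s, t) := h5.2
  exact h6.le

end Pool.MP_7ec17a_gt.D
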