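import Pool.Agent.Work.MP_7ec17a_gt_W.Interface

/-!
# MP_7ec17a_gt, Theorem E: block UNI (uniqueness of the support points)
-/

set_option autoImplicit false

open Set

namespace Pool.MP_7ec17a_gt.D

lemma uni_sub (ψ : ℝ) (z w : ℂ) : up ψ (z - w) = up ψ z - up ψ w := by
  unfold up
  rw [Complex.sub_im, Complex.sub_re]
  ring

lemma uni_rsub (ψ : ℝ) (z w : ℂ) : rt ψ (z - w) = rt ψ z - rt ψ w := by
  unfold rt
  rw [Complex.sub_im, Complex.sub_re]
  ring

lemma uni_pi (ψ : ℝ) (z : ℂ) : up (ψ + Real.pi) z = -up ψ z := by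
  unfold up
  rw [Real.cos_add_pi, Real.sin_add_pi]
  ring

lemma uni_sq (ψ : ℝ) (z : ℂ) : up ψ z ^ 2 + rt ψ z ^ 2 = ‖z‖ ^ 2 := by
  have h3 := Real.sin_sq_add_cos_sq ψ
  rw [Complex.sq_norm, Complex.normSq_apply]
  unfold up rt
  linear_combination (z.re * z.re + z.im * z.im) * h3

lemma uni_zero {ψ : ℝ} {z : ℂ} (h1 : up ψ z = 0) (h2 : rt ψ z = 0) : z = 0 := by
  have h := uni_sq ψ z
  rw [h1, h2] at h
  have h4 : ‖z‖ ^ 2 = 0 := by rw [← h]; ring
  exact norm_eq_zero.1 (pow_eq_zero_iff (two_ne_zero) |>.1 h4)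

/-- a chord whose height is at least the diameter -/
lemma uni_diam {ψ D : ℝ} {z : ℂ} (hD : 0 < D) (h : ‖z‖ ≤ D) (h1 : D ≤ up ψ z) :
    up ψ z = D ∧ rt ψ z = 0 := by
  have h2 := uni_sq ψ z
  have h3 : ‖z‖ ^ 2 ≤ D ^ 2 := pow_le_pow_left₀ (norm_nonneg _) h 2
  have h4 : up ψ z ≤ D := by
    by_contra hc
    rw [not_le] at hc
    nlinarith [sq_nonneg (rt ψ z)]
  have h5 : up ψ z = D := le_antisymm h4 h1
  refine ⟨h5, ?_⟩
  rw [h5] at h2
  have h6 : rt ψ z ^ 2 = 0 := le_antisymm (by linarith) (sq_nonneg _)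
  exact pow_eq_zero_iff (two_ne_zero) |>.1 h6

lemma uni_ne {f : ℝ → ℂ} (hf : Crv f) {s t : ℝ} (h1 : s < t) (h2 : t < s + 1) : f t ≠ f s := by
  intro h
  obtain ⟨n, hn⟩ := hf.inj t s h
  have h3 : (0 : ℝ) < n := by linarith
  have h4 : (n : ℝ) < 1 := by linarith
  have h5 : 0 < n := by exact_mod_cast h3
  have h6 : n < 1 := by exact_mod_cast h4
  omega

lemma uni_str {w : ℂ} {φ ψ : ℝ} (hp : Pool.MP_7ec17a_gt.M.Pol w φ) (h : 0 < up ψ w)
    (h1 : ψ ≤ φ) (h2 : φ ≤ ψ + Real.pi) : ψ < φ ∧ φ < ψ + Real.pi := by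
  rw [up_pol hp] at h
  constructor
  · rcases h1.lt_or_eq with h3 | h3
    · exact h3
    · rw [h3, sub_self, Real.sin_zero, mul_zero] at h
      exact absurd h (lt_irrefl _)
  · rcases h2.lt_or_eq with h3 | h3
    · exact h3
    · rw [h3, add_sub_cancel_left, Real.sin_pi, mul_zero] at h
      exact absurd h (lt_irrefl _)

theorem stmt_UNI : Stmt_UNI := by
  intro f θ D ϑa ϑb ψ hW ha hb
  obtain ⟨s0, t0, h0⟩ := hW.plat ψ ha hb
  have hD := hW.pos
  have hd := hW.diam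
  rw [uni_sub] at h0
  refine ⟨fun s hs => ?_, fun t ht => ?_, fun s t hs ht => ?_⟩
  · have a0 := hs.above s0
    have key : ∀ x, up ψ (f x - f s) ≤ 0 → f x = f s := by
      intro x hx
      rw [uni_sub] at a0 hx
      have b1 := uni_diam (ψ := ψ) hD (hd s t0) (by rw [uni_sub]; linarith)
      have b2 := uni_diam (ψ := ψ) hD (hd x t0) (by rw [uni_sub]; linarith)
      rw [uni_sub, uni_rsub] at b1 b2
      have : f x - f s = 0 := uni_zero (ψ := ψ) (by rw [uni_sub]; linarith [b1.1, b2.1])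
        (by rw [uni_rsub]; linarith [b1.2, b2.2])
      exact sub_eq_zero.1 this
    refine ⟨key, fun t h1 h2 => ?_⟩
    have c1 : 0 < up ψ (f t - f s) := by
      by_contra hc
      exact uni_ne hW.crv h1 h2 (key t (not_lt.1 hc))
    obtain ⟨r1, r2⟩ := hs.row t h1 h2
    exact uni_str (hW.lift.pol (s, t) ⟨h1, h2⟩) c1 r1 r2
  · have a0 := ht.above t0
    have key : ∀ x, 0 ≤ up ψ (f x - f t) → f x = f t := by
      intro x hx
      rw [uni_pi, uni_sub] at a0
      rw [uni_sub] at hx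
      have b1 := uni_diam (ψ := ψ) hD (hd s0 t) (by rw [uni_sub]; linarith)
      have b2 := uni_diam (ψ := ψ) hD (hd s0 x) (by rw [uni_sub]; linarith)
      rw [uni_sub, uni_rsub] at b1 b2
      have : f x - f t = 0 := uni_zero (ψ := ψ) (by rw [uni_sub]; linarith [b1.1, b2.1])
        (by rw [uni_rsub]; linarith [b1.2, b2.2])
      exact sub_eq_zero.1 this
    refine ⟨key, fun s h1 h2 => ?_⟩
    have c1 : 0 < up ψ (f t - f s) := by
      by_contra hc
      rw [not_lt, uni_sub] at hc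
      exact uni_ne hW.crv h2 (by linarith) (key s (by rw [uni_sub]; linarith)).symm
    obtain ⟨r1, r2⟩ := ht.col s h1 h2
    exact uni_str (hW.lift.pol (s, t) ⟨h2, by linarith⟩) c1 (by linarith) r2
  · have a1 := hs.above s0
    have a2 := ht.above t0
    rw [uni_pi, uni_sub] at a2
    rw [uni_sub] at a1
    exact uni_diam hD (hd s t) (by rw [uni_sub]; linarith)

end Pool.MP_7ec17a_gt.D
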