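import Pool.Agent.Work.MP_7ec17a_gt_W.GEO

/-!
# Assembly for a configuration
-/

set_option autoImplicit false

open Set

namespace Pool.MP_7ec17a_gt.D

open Pool.MP_7ec17a_gt.T Pool.MP_7ec17a_gt.M

lemma rt_tf (f : ℝ → ℂ) (φ u : ℝ) : rt (-φ) (tf f u) = rt φ (f (-u)) := by
  unfold rt tf
  rw [Complex.conj_re, Complex.conj_im, Real.cos_neg, Real.sin_neg]
  ring

lemma rt_ge_of_arg {f : ℝ → ℂ} {θ : ℝ × ℝ → ℝ} (hθ : Lift f θ) {s t : ℝ} (h1 : s ≤ t)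
    (h2 : t < s + 1) {φ : ℝ} (a : s < t → -(Real.pi / 2) ≤ θ (s, t) - φ)
    (b : s < t → θ (s, t) - φ ≤ Real.pi / 2) : rt φ (f s) ≤ rt φ (f t) := by
  rcases lt_or_eq_of_le h1 with h | h
  · have e := rt_chord hθ h h2 φ
    rw [rt_sub] at e
    have hc : 0 ≤ Real.cos (θ (s, t) - φ) :=
      Real.cos_nonneg_of_neg_pi_div_two_le_of_le (a h) (b h)
    have := mul_nonneg (norm_nonneg (f t - f s)) hc
    linarith
  · rw [h]

section
variable {f : ℝ → ℂ} {θ : ℝ × ℝ → ℝ} {ϑa ϑb θ1 θ2 k1 k2 l sm sa sb sp tp ta tb tm : ℝ}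

lemma geo_a (C : Conf f θ ϑa ϑb θ1 θ2 k1 k2 l sm sa sb sp tp ta tb tm) : k2 < rt θ2 (f sa) := by
  have hpi := Real.pi_pos
  have hlen : sa < sm + 1 := by
    linarith [C.o1, C.o2, C.o3, C.o4, C.o5, C.o6, C.o7, C.o8, C.hl]
  have h := rt_ge_of_arg C.lift C.o1 hlen (φ := θ2) (fun h => by
    linarith [(C.Sm.row sa h hlen).1]) (fun h => by
    linarith [(C.Sa.col sm (by linarith) h).2, C.wide, C.gap, C.hθ1])
  linarith [C.c1]

lemma geo_b (C : Conf f θ ϑa ϑb θ1 θ2 k1 k2 l sm sa sb sp tp ta tb tm) : rt θ1 (f sb) < k1 := by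
  have hpi := Real.pi_pos
  have hlen : sp < sb + 1 := by
    linarith [C.o1, C.o2, C.o3, C.o4, C.o5, C.o6, C.o7, C.o8, C.hl]
  have h := rt_ge_of_arg C.lift C.o3 hlen (φ := θ1) (fun h => by
    linarith [(C.Sb.row sp h hlen).1, C.wide, C.gap, C.hθ2]) (fun h => by
    linarith [(C.Sp.col sb (by linarith) h).2])
  linarith [C.c3]

lemma geo1' (hTIL : Stmt_TIL) (C : Conf f θ ϑa ϑb θ1 θ2 k1 k2 l sm sa sb sp tp ta tb tm) {s : ℝ}
    (h1 : sm ≤ s) (h2 : s ≤ sp + l) (h3 : tm < s + 1) (g : sb ≤ s → rt θ1 (f s) ≤ k1) :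
    θ (s, tm) ≤ θ1 + Real.pi / 2 := by
  have h := geo1 (hTIL f θ _ _ _ _ _ _ _ _ _ _ _ _ _ _ _ C) (t := -s) (by linarith)
    (by linarith) (by linarith) (fun h => by
      rw [rt_tf, neg_neg]
      exact g (by linarith))
  unfold tθ at h
  simp only [neg_neg] at h
  linarith

lemma geo3' (hTIL : Stmt_TIL) (C : Conf f θ ϑa ϑb θ1 θ2 k1 k2 l sm sa sb sp tp ta tb tm) {s t : ℝ}
    (h1 : sm ≤ s) (h2 : s ≤ sp + l) (h3 : tp - l ≤ t) (h4 : t ≤ tp)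
    (g : s ≤ sa → k2 ≤ rt θ2 (f s)) : θ2 + Real.pi / 2 ≤ θ (s, t) := by
  have h := geo3 (hTIL f θ _ _ _ _ _ _ _ _ _ _ _ _ _ _ _ C) (s := -t) (t := -s) (by linarith)
    (by linarith) (by linarith) (by linarith) (fun h => by
      rw [rt_tf, neg_neg]
      exact g (by linarith))
  unfold tθ at h
  simp only [neg_neg] at h
  linarith

/-- The assembly with an abstract base direction `η` and an abstract base length `M`. -/
theorem asm (hTIL : Stmt_TIL) (C : Conf f θ ϑa ϑb θ1 θ2 k1 k2 l sm sa sb sp tp ta tb tm)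
    {η M : ℝ × ℝ → ℝ} (hη : ContinuousOn η (Icc sm (sp + l) ×ˢ Icc (tp - l) tm))
    (hM : Continuous M) {μ : ℝ} (hμ : 0 < μ) (hMμ : ∀ z, μ ≤ M z)
    (η1 : ∀ t, tp - l ≤ t → t ≤ tm → (t ≤ ta → rt θ2 (f t) ≤ k2) → θ2 ≤ η (sm, t))
    (η2 : ∀ s t, sb ≤ s → s ≤ sp + l → tp - l ≤ t → t ≤ tm → θ1 - Real.pi / 2 ≤ η (s, t))
    (η3 : ∀ s t, sp ≤ s → s ≤ sp + l → tp - l ≤ t → t ≤ tm → (tb ≤ t → k1 ≤ rt θ1 (f t)) →
      η (s, t) ≤ θ1)
    (η4 : sm < sa → ∀ s t, sm ≤ s → s ≤ sa → tp - l ≤ t → t ≤ tm → η (s, t) ≤ θ2 + Real.pi / 2)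
    (η1' : ∀ s, sm ≤ s → s ≤ sp + l → (sb ≤ s → rt θ1 (f s) ≤ k1) → η (s, tm) ≤ θ1)
    (η2' : ∀ s t, sm ≤ s → s ≤ sp + l → tp - l ≤ t → t ≤ ta → η (s, t) ≤ θ2 + Real.pi / 2)
    (η3' : ∀ s t, sm ≤ s → s ≤ sp + l → tp - l ≤ t → t ≤ tp → (s ≤ sa → k2 ≤ rt θ2 (f s)) →
      θ2 ≤ η (s, t))
    (η4' : tb < tm → ∀ s t, sm ≤ s → s ≤ sp + l → tb ≤ t → t ≤ tm → θ1 - Real.pi / 2 ≤ η (s, t))
    (gen : ∀ s s' t t', sm - l ≤ s → s < s' → sm ≤ s' → s' ≤ sp + l → tp - l ≤ t → t ≤ tm →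
      t < t' → t' ≤ tm + l → θ (s, s') = η (s', t) → θ (t, t') - Real.pi = η (s', t) →
      (s', t) ∈ Strip ∧ η (s', t) = θ (s', t) - Real.pi / 2 ∧ M (s', t) = ‖f t - f s'‖) :
    ∃ R : ℝ, 0 < R ∧ ∀ r : ℝ, R ≤ r → ∃ (s s' t t' : ℝ) (v : ℂ), v ≠ 0 ∧ f s' = f s + v ∧
      f t' = f s + Complex.I * (r : ℂ) * v ∧ f t = f s + v + Complex.I * (r : ℂ) * v := by
  have hpi := Real.pi_pos
  have C' := hTIL f θ _ _ _ _ _ _ _ _ _ _ _ _ _ _ _ C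
  obtain ⟨ρ1, hρ1, Q1⟩ := stmt_QUADW f θ sm sa sb sp θ1 θ2 k1 k2 l C.crv.cont C.lift.cont C.lift.pol
    (crv_ne C.crv) C.o1 C.o2 C.o3 C.hl C.ol C.Sm.row C.Sm.col C.Sp.row C.Sp.col C.c1 (geo_a C) C.c3
    (geo_b C)
  obtain ⟨ρ2, hρ2, Q2⟩ := stmt_QUADW (tf f) (tθ θ) (-tm) (-tb) (-ta) (-tp) (-θ2) (-θ1) k2 k1 l
    C'.crv.cont C'.lift.cont C'.lift.pol (crv_ne C'.crv) C'.o1 C'.o2 C'.o3 C'.hl C'.ol C'.Sm.row
    C'.Sm.col C'.Sp.row C'.Sp.col C'.c1 (geo_a C') C'.c3 (geo_b C')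
  obtain ⟨C0, hC0⟩ := (isCompact_Icc.prod isCompact_Icc).exists_bound_of_continuousOn
    (s := Icc sm (sp + l) ×ˢ Icc (tp - l) tm) (f := M) hM.continuousOn
  have hmem : ∀ s' t, sm ≤ s' → s' ≤ sp + l → tp - l ≤ t → t ≤ tm → M (s', t) ≤ max C0 1 := by
    intro s' t a b c d
    have := hC0 (s', t) ⟨⟨a, b⟩, ⟨c, d⟩⟩
    rw [Real.norm_eq_abs] at this
    exact (le_abs_self _).trans (this.trans (le_max_left _ _))
  have hC1 : 0 < max C0 1 := lt_of_lt_of_le one_pos (le_max_right _ _)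
  have hmin : 0 < min ρ1 ρ2 := lt_min hρ1 hρ2
  refine ⟨max C0 1 / min ρ1 ρ2, by positivity, fun r hr => ?_⟩
  have hr0 : 0 < r := lt_of_lt_of_le (by positivity) hr
  have h1r : 0 < 1 / r := by positivity
  have hρ : max C0 1 * (1 / r) ≤ min ρ1 ρ2 := by
    rw [div_le_iff₀ hmin] at hr
    rw [mul_one_div, div_le_iff₀ hr0]
    linarith
  have hδ : 0 < μ * (1 / r) := mul_pos hμ h1r
  obtain ⟨q1, q2, cq1, cq2, dq, q0, q1', qn, qf⟩ := Q1 (μ * (1 / r)) hδ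
  obtain ⟨g1, g2, cg1, cg2, dg, g0, g1', gn, gf⟩ := Q2 (μ * (1 / r)) hδ
  have htn : ∀ z w : ℂ, ‖(starRingEnd ℂ) z - (starRingEnd ℂ) w‖ = ‖w - z‖ := fun z w => by
    rw [← map_sub, Complex.norm_conj, norm_sub_rev]
  refine core (θ := θ) (η := η) (m := fun z => M z * (1 / r)) (A0 := sm - l) (A1 := sp + l)
    (B0 := tp - l) (B1 := tm + l) (a0 := sm) (b1 := tm) C.crv.cont C.lift.cont C.lift.pol C.ol C.ol'
    hη (hM.mul continuous_const).continuousOn hr0 hδ (ρ := min ρ1 ρ2)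
    (q1 := q1) (q2 := q2) (g1 := fun z => -g2 z) (g2 := fun z => -g1 z)
    (GA := fun s => (s ≤ sa → k2 ≤ rt θ2 (f s)) ∧ (sb ≤ s → rt θ1 (f s) ≤ k1))
    (GB := fun t => (t ≤ ta → rt θ2 (f t) ≤ k2) ∧ (tb ≤ t → k1 ≤ rt θ1 (f t)))
    ?_ cq1 cq2 cg2.neg cg1.neg ?_ ?_ ?_ ?_ ?_ ?_ ?_ ?_ ?_ ?_ ?_
  · intro s' t a b c d
    exact ⟨mul_le_mul_of_nonneg_right (hMμ _) h1r.le,
      (mul_le_mul_of_nonneg_right (hmem s' t a b c d) h1r.le).trans hρ⟩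
  · intro x hx y hy
    obtain ⟨a1, a2, a3, a4, a5, a6⟩ := dq x hx y hy
    exact ⟨a1, a2, a3, a4, a5, a6⟩
  · intro x hx y hy
    obtain ⟨a1, a2, a3, a4, a5, a6⟩ := dg x hx y hy
    refine ⟨by linarith, by linarith, by linarith, by linarith, fun h => ?_, fun h => ?_⟩
    · have := a6 (by linarith)
      rw [rt_tf] at this
      exact this
    · have := a5 (by linarith)
      rw [rt_tf] at this
      exact this
  · -- the start face of the first chord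
    intro y hy t b1 b2 b3
    obtain ⟨a1, a2, a3, a4, a5, a6⟩ := dq 0 ⟨le_rfl, zero_le_one⟩ y hy
    rcases q0 y hy with ⟨h1, h2⟩ | ⟨h1, h2⟩
    · have := η1 t b1 b2 b3.1
      rw [← h1] at this
      linarith
    · have := η2 (q2 (0, y)) t h1 a4 b1 b2
      linarith
  · -- the end face of the first chord
    intro y hy t b1 b2 b3
    obtain ⟨a1, a2, a3, a4, a5, a6⟩ := dq 1 ⟨zero_le_one, le_rfl⟩ y hy
    rcases q1' y hy with ⟨h1, h2⟩ | ⟨h0, h1, h2⟩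
    · have := η3 (q2 (1, y)) t h1 a4 b1 b2 b3.2
      linarith
    · have := η4 h0 (q2 (1, y)) t a3 h1 b1 b2
      linarith
  · -- the start face of the second chord
    intro y hy s b1 b2 b3
    obtain ⟨a1, a2, a3, a4, a5, a6⟩ := dg 0 ⟨le_rfl, zero_le_one⟩ y hy
    rcases g0 y hy with ⟨h1, h2⟩ | ⟨h1, h2⟩
    · have := η1' s b1 b2 b3.2
      unfold tθ at h2
      rw [h1] at h2 ⊢
      simp only [neg_neg] at h2 ⊢
      linarith
    · have := η2' s (-g2 (0, y)) b1 b2 (by linarith) (by linarith)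
      unfold tθ at h2
      simp only at h2
      linarith
  · intro y hy s b1 b2 b3
    obtain ⟨a1, a2, a3, a4, a5, a6⟩ := dg 1 ⟨zero_le_one, le_rfl⟩ y hy
    rcases g1' y hy with ⟨h1, h2⟩ | ⟨h0, h1, h2⟩
    · have := η3' s (-g2 (1, y)) b1 b2 (by linarith) (by linarith) b3.1
      unfold tθ at h2
      simp only at h2
      linarith
    · have := η4' (by linarith) s (-g2 (1, y)) b1 b2 (by linarith) (by linarith)
      unfold tθ at h2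
      simp only at h2
      linarith
  · exact qn
  · intro x hx
    exact (min_le_left _ _).trans (qf x hx)
  · intro x hx
    have := gn x hx
    unfold tf at this
    rwa [htn] at this
  · intro x hx
    have := gf x hx
    unfold tf at this
    rw [htn] at this
    exact (min_le_right _ _).trans this
  · intro s s' t t' a1 a2 a3 a4 a5 a6 a7 a8 a9 a10 h1 h2
    obtain ⟨e1, e2, e3⟩ := gen s s' t t' a1 a2 a3 a4 a5 a6 a7 a8 h1 h2
    exact ⟨e1, e2, by simp only [e3]⟩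

end

end Pool.MP_7ec17a_gt.D
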