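import Pool.Agent.Work.MP_7ec17a_gt_W.ASM

/-!
# A configuration gives all large aspect ratios
-/

set_option autoImplicit false

open Set

namespace Pool.MP_7ec17a_gt.D

open Pool.MP_7ec17a_gt.T Pool.MP_7ec17a_gt.M

lemma isOpen_Strip : IsOpen Strip := by
  have h : Strip = {z : ℝ × ℝ | z.1 < z.2} ∩ {z : ℝ × ℝ | z.2 < z.1 + 1} := rfl
  rw [h]
  exact (isOpen_lt continuous_fst continuous_snd).inter
    (isOpen_lt continuous_snd (continuous_fst.add continuous_const))

/-- The least chord length on a box in the strip. -/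
lemma box_min {f : ℝ → ℂ} (hf : Crv f) {x0 x1 y0 y1 : ℝ} (hx : x0 ≤ x1) (hy : y0 ≤ y1)
    (h : x1 < y0) (h' : y1 < x0 + 1) :
    ∃ μ : ℝ, 0 < μ ∧ ∀ s t, x0 ≤ s → s ≤ x1 → y0 ≤ t → t ≤ y1 → μ ≤ ‖f t - f s‖ := by
  have hfc := hf.cont
  obtain ⟨z0, hz0, hzmin⟩ := (isCompact_Icc.prod isCompact_Icc).exists_isMinOn
    (s := Icc x0 x1 ×ˢ Icc y0 y1) (f := fun z : ℝ × ℝ => ‖f z.2 - f z.1‖)
    ⟨(x0, y0), ⟨by linarith, by linarith⟩, ⟨by linarith, by linarith⟩⟩ (by fun_prop)
  refine ⟨‖f z0.2 - f z0.1‖, ?_, fun s t a b c d => ?_⟩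
  swap
  · have hst : (s, t) ∈ Icc x0 x1 ×ˢ Icc y0 y1 := ⟨⟨a, b⟩, ⟨c, d⟩⟩
    exact hzmin hst
  rw [norm_pos_iff, sub_ne_zero]
  refine crv_ne hf z0 ⟨?_, ?_⟩
  · linarith [hz0.1.2, hz0.2.1]
  · linarith [hz0.1.1, hz0.2.2]

section
variable {f : ℝ → ℂ} {θ : ℝ × ℝ → ℝ} {ϑa ϑb θ1 θ2 k1 k2 l sm sa sb sp tp ta tb tm : ℝ}

/-- The case without a corner. -/
theorem conf1 (hTIL : Stmt_TIL) (C : Conf f θ ϑa ϑb θ1 θ2 k1 k2 l sm sa sb sp tp ta tb tm)
    (h : tm < sm + 1) :
    ∃ R : ℝ, 0 < R ∧ ∀ r : ℝ, R ≤ r → ∃ (s s' t t' : ℝ) (v : ℂ), v ≠ 0 ∧ f s' = f s + v ∧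
      f t' = f s + Complex.I * (r : ℂ) * v ∧ f t = f s + v + Complex.I * (r : ℂ) * v := by
  have hpi := Real.pi_pos
  have hfc := C.crv.cont
  obtain ⟨μ, hμ, hmin⟩ := box_min C.crv (x0 := sm) (x1 := sp + l) (y0 := tp - l) (y1 := tm)
    (by linarith [C.o1, C.o2, C.o3, C.hl]) (by linarith [C.o5, C.o6, C.o7, C.hl]) C.o4 h
  have hst : ∀ s t, sm ≤ s → s ≤ sp + l → tp - l ≤ t → t ≤ tm → s < t ∧ t < s + 1 :=
    fun s t a b c d => ⟨by linarith [C.o4], by linarith⟩
  refine asm hTIL C (η := fun z => θ z - Real.pi / 2) (M := fun z => max ‖f z.2 - f z.1‖ μ)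
    ?_ (by fun_prop) hμ (fun z => le_max_right _ _) ?_ ?_ ?_ ?_ ?_ ?_ ?_ ?_ ?_
  · refine ContinuousOn.sub ?_ continuousOn_const
    refine C.lift.cont.mono fun z hz => ?_
    exact hst z.1 z.2 hz.1.1 hz.1.2 hz.2.1 hz.2.2
  · intro t a b c
    have := geo1 C a b (by linarith) c
    linarith
  · intro s t a b c d
    have := C.n2 s t a b c d
    linarith
  · intro s t a b c d e
    have := geo3 C a b c d e
    linarith
  · intro h0 s t a b c d
    have := C.n4 h0 s t a b c d
    linarith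
  · intro s a b c
    have := geo1' hTIL C a b (by linarith) c
    linarith
  · intro s t a b c d
    have := C.n2' s t a b c d
    linarith
  · intro s t a b c d e
    have := geo3' hTIL C a b c d e
    linarith
  · intro h0 s t a b c d
    have := C.n4' h0 s t a b c d
    linarith
  · intro s s' t t' a1 a2 a3 a4 a5 a6 a7 a8 h1 h2
    exact ⟨hst s' t a3 a4 a5 a6, rfl, max_eq_left (hmin s' t a3 a4 a5 a6)⟩

/-- The case with a corner. -/
theorem conf2 (hTIL : Stmt_TIL) (hMONO : Stmt_MONO)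
    (C : Conf f θ ϑa ϑb θ1 θ2 k1 k2 l sm sa sb sp tp ta tb tm)
    (h : tm = sm + 1) (hs : sm = sa) (ht : tm = tb) {ss ts ψ1 ψ2 : ℝ} (hss : sa < ss)
    (hss' : ss ≤ sb) (hts : ta ≤ ts) (hts' : ts < tb) (S1 : Sup f θ ss ψ1)
    (S2 : Sup f θ ts (ψ2 + Real.pi)) (hψ : ψ1 < ψ2) :
    ∃ R : ℝ, 0 < R ∧ ∀ r : ℝ, R ≤ r → ∃ (s s' t t' : ℝ) (v : ℂ), v ≠ 0 ∧ f s' = f s + v ∧
      f t' = f s + Complex.I * (r : ℂ) * v ∧ f t = f s + v + Complex.I * (r : ℂ) * v := by
  have hpi := Real.pi_pos
  have hfc := C.crv.cont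
  have hw1 := C.o3
  have hw2 := C.o4
  have hw3 := C.o5
  have hw4 := C.hl
  obtain ⟨μ1, hμ1, hmin1⟩ := box_min C.crv (x0 := ss) (x1 := sp + l) (y0 := tp - l) (y1 := tm)
    (by linarith) (by linarith) C.o4 (by linarith)
  obtain ⟨μ2, hμ2, hmin2⟩ := box_min C.crv (x0 := sm) (x1 := sp + l) (y0 := tp - l) (y1 := ts)
    (by linarith) (by linarith) C.o4 (by linarith)
  set μ := min μ1 μ2 with hμdef
  have hμ : 0 < μ := lt_min hμ1 hμ2
  have hst : ∀ s t, sm ≤ s → s ≤ sp + l → tp - l ≤ t → t ≤ tm → (sm < s ∨ t < tm) →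
      s < t ∧ t < s + 1 := fun s t a b c d e =>
    ⟨by linarith [C.o4], by rcases e with e | e <;> linarith⟩
  have d1 : 0 < ss - sm := by linarith
  have d2 : 0 < tm - ts := by linarith
  set u : ℝ × ℝ → ℝ := fun z => min ((ss - z.1) / (ss - sm)) ((z.2 - ts) / (tm - ts)) with hu
  have hucont : Continuous u := by fun_prop
  set χ : ℝ × ℝ → ℝ := fun z => cl (2 * u z) with hχ
  have hχc : Continuous χ := continuous_cl.comp (continuous_const.mul hucont)
  have hχm : ∀ z, 0 ≤ χ z ∧ χ z ≤ 1 := fun z => cl_mem _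
  have hχs : ∀ s t, ss ≤ s → χ (s, t) = 0 := by
    intro s t a
    simp only [hχ]
    apply cl_neg
    have h1 : u (s, t) ≤ 0 := (min_le_left _ _).trans
      (div_nonpos_of_nonpos_of_nonneg (by simp only; linarith) d1.le)
    linarith
  have hχt : ∀ s t, t ≤ ts → χ (s, t) = 0 := by
    intro s t a
    simp only [hχ]
    apply cl_neg
    have h1 : u (s, t) ≤ 0 := (min_le_right _ _).trans
      (div_nonpos_of_nonpos_of_nonneg (by simp only; linarith) d2.le)
    linarith
  have hu1 : u (sm, tm) = 1 := by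
    simp only [hu]
    rw [div_self d1.ne', div_self d2.ne', min_self]
  have hχ1 : ∀ z, 1 / 2 < u z → χ z = 1 := by
    intro z hz
    simp only [hχ]
    apply cl_big
    linarith
  have h21 : θ2 < θ1 := by linarith [C.hθ1, C.hθ2, C.wide]
  set η : ℝ × ℝ → ℝ := fun z => (1 - χ z) * (θ z - Real.pi / 2) + χ z * θ2 with hη
  have hη0 : ∀ z, χ z = 0 → η z = θ z - Real.pi / 2 := by
    intro z hz
    simp only [hη, hz]
    ring
  refine asm hTIL C (η := η) (M := fun z => max ‖f z.2 - f z.1‖ μ)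
    ?_ (by fun_prop) hμ (fun z => le_max_right _ _) ?_ ?_ ?_ ?_ ?_ ?_ ?_ ?_ ?_
  · intro z hz
    by_cases hz' : z ∈ Strip
    · apply ContinuousAt.continuousWithinAt
      have h1 : ContinuousAt θ z := C.lift.cont.continuousAt (isOpen_Strip.mem_nhds hz')
      have h2 : ContinuousAt χ z := hχc.continuousAt
      exact ((continuousAt_const.sub h2).mul (h1.sub continuousAt_const)).add
        (h2.mul continuousAt_const)
    · have hz1 : z = (sm, tm) := by
        have e1 := hst z.1 z.2 hz.1.1 hz.1.2 hz.2.1 hz.2.2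
        apply Prod.ext
        · show z.1 = sm
          by_contra hcon
          exact hz' (e1 (Or.inl (lt_of_le_of_ne hz.1.1 (Ne.symm hcon))))
        · show z.2 = tm
          by_contra hcon
          exact hz' (e1 (Or.inr (lt_of_le_of_ne hz.2.2 hcon)))
      rw [hz1]
      apply ContinuousAt.continuousWithinAt
      have hev : ∀ᶠ w in nhds (sm, tm), η w = θ2 := by
        have h3 : ∀ᶠ w in nhds (sm, tm), 1 / 2 < u w := by
          apply hucont.continuousAt.eventually_const_lt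
          rw [hu1]
          norm_num
        filter_upwards [h3] with w hw
        simp only [hη]
        rw [hχ1 w hw]
        ring
      have h4 : ContinuousAt (fun _ : ℝ × ℝ => θ2) (sm, tm) := continuousAt_const
      exact h4.congr (hev.mono fun w hw => hw.symm)
  · intro t a b c
    rcases lt_or_eq_of_le b with b' | b'
    · have h1 := geo1 C a b (by linarith) c
      have h2 := hχm (sm, t)
      simp only [hη]
      nlinarith [mul_nonneg (by linarith : 0 ≤ 1 - χ (sm, t))
        (by linarith : 0 ≤ θ (sm, t) - Real.pi / 2 - θ2)]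
    · rw [b']
      simp only [hη]
      rw [hχ1 (sm, tm) (by rw [hu1]; norm_num)]
      linarith
  · intro s t a b c d
    rw [hη0 _ (hχs s t (by linarith))]
    have := C.n2 s t a b c d
    linarith
  · intro s t a b c d e
    rw [hη0 _ (hχs s t (by linarith))]
    have := geo3 C a b c d e
    linarith
  · intro h0
    exact absurd h0 (by linarith)
  · intro s a b c
    rcases lt_or_eq_of_le a with a' | a'
    · have h1 := geo1' hTIL C a b (by linarith) c
      have h2 := hχm (s, tm)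
      simp only [hη]
      nlinarith [mul_nonneg (by linarith : 0 ≤ 1 - χ (s, tm))
        (by linarith : 0 ≤ θ1 - (θ (s, tm) - Real.pi / 2)),
        mul_nonneg h2.1 (by linarith : 0 ≤ θ1 - θ2)]
    · rw [← a']
      simp only [hη]
      rw [hχ1 (sm, tm) (by rw [hu1]; norm_num)]
      linarith
  · intro s t a b c d
    rw [hη0 _ (hχt s t (by linarith))]
    have := C.n2' s t a b c d
    linarith
  · intro s t a b c d e
    rw [hη0 _ (hχt s t (by linarith))]
    have := geo3' hTIL C a b c d e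
    linarith
  · intro h0
    exact absurd h0 (by linarith)
  · intro s s' t t' a1 a2 a3 a4 a5 a6 a7 a8 h1 h2
    have hout : ss < s' ∨ t < ts := by
      by_contra hcon
      push Not at hcon
      obtain ⟨b1, b2⟩ := hcon
      -- the first chord
      have c1 : θ (s, s') ≤ ψ1 := by
        rcases lt_or_eq_of_le b1 with b1' | b1'
        · obtain ⟨ψ, -, -, hψ'⟩ := C.hullS s' (by linarith) (by linarith)
          have e1 := (hψ'.col s (by linarith [C.ol]) a2).2
          by_contra hcon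
          push Not at hcon
          have := hMONO f θ ss s' ψ1 ψ C.crv C.lift S1 hψ' (by linarith)
          linarith
        · rw [b1']
          exact (S1.col s (by linarith [C.ol]) (by linarith)).2
      have c2 : ψ2 + Real.pi ≤ θ (t, t') := by
        rcases lt_or_eq_of_le b2 with b2' | b2'
        · obtain ⟨ψ, -, -, hψ'⟩ := C.hullT t (by linarith) (by linarith)
          have e1 := (hψ'.row t' a7 (by linarith [C.ol'])).1
          by_contra hcon
          push Not at hcon
          have := hMONO f θ t ts (ψ + Real.pi) (ψ2 + Real.pi) C.crv C.lift hψ' S2 (by linarith)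
          linarith
        · rw [← b2']
          exact (S2.row t' (by linarith) (by linarith [C.ol'])).1
      linarith
    rcases hout with h3 | h3
    · refine ⟨hst s' t a3 a4 a5 a6 (Or.inl (by linarith)), hη0 _ (hχs s' t h3.le), ?_⟩
      exact max_eq_left ((min_le_left _ _).trans (hmin1 s' t h3.le a4 a5 a6))
    · refine ⟨hst s' t a3 a4 a5 a6 (Or.inr (by linarith)), hη0 _ (hχt s' t h3.le), ?_⟩
      exact max_eq_left ((min_le_right _ _).trans (hmin2 s' t a3 a4 a5 h3.le))

end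

end Pool.MP_7ec17a_gt.D
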