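import Pool.Agent.Work.MP_7ec17a_gt_W.Interface

/-!
# The Poincare-Miranda step, with an abstract base direction and length
-/

set_option autoImplicit false

open Set

namespace Pool.MP_7ec17a_gt.D

open Pool.MP_7ec17a_gt.T Pool.MP_7ec17a_gt.M

/-- The final step: the four dimensional Poincare-Miranda theorem.  `η` and `m` are the direction and
the length prescribed for the two short chords; at a solution they are the true ones (`gen`). -/
theorem core {f : ℝ → ℂ} {θ : ℝ × ℝ → ℝ} (hf : Continuous f) (hθc : ContinuousOn θ Strip)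
    (hP : ∀ z ∈ Strip, Pol (f z.2 - f z.1) (θ z)) {A0 A1 B0 B1 a0 b1 : ℝ}
    (hA : A1 < A0 + 1) (hB : B1 < B0 + 1) {η m : ℝ × ℝ → ℝ}
    (hη : ContinuousOn η (Icc a0 A1 ×ˢ Icc B0 b1)) (hm : ContinuousOn m (Icc a0 A1 ×ˢ Icc B0 b1))
    {r δ ρ : ℝ} (hr : 0 < r) (hδ : 0 < δ)
    (hmb : ∀ s' t, a0 ≤ s' → s' ≤ A1 → B0 ≤ t → t ≤ b1 → δ ≤ m (s', t) ∧ m (s', t) ≤ ρ)
    {q1 q2 g1 g2 : ℝ × ℝ → ℝ}
    (c1 : Continuous q1) (c2 : Continuous q2) (c3 : Continuous g1) (c4 : Continuous g2)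
    {GA GB : ℝ → Prop}
    (dq : ∀ x ∈ Icc (0 : ℝ) 1, ∀ y ∈ Icc (0 : ℝ) 1, A0 ≤ q1 (x, y) ∧ q1 (x, y) < q2 (x, y) ∧
      a0 ≤ q2 (x, y) ∧ q2 (x, y) ≤ A1 ∧ GA (q2 (x, y)))
    (dg : ∀ x ∈ Icc (0 : ℝ) 1, ∀ y ∈ Icc (0 : ℝ) 1, B0 ≤ g1 (x, y) ∧ g1 (x, y) < g2 (x, y) ∧
      g2 (x, y) ≤ B1 ∧ g1 (x, y) ≤ b1 ∧ GB (g1 (x, y)))
    (q0 : ∀ y ∈ Icc (0 : ℝ) 1, ∀ t, B0 ≤ t → t ≤ b1 → GB t →
      θ (q1 (0, y), q2 (0, y)) ≤ η (q2 (0, y), t))
    (q1' : ∀ y ∈ Icc (0 : ℝ) 1, ∀ t, B0 ≤ t → t ≤ b1 → GB t →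
      η (q2 (1, y), t) ≤ θ (q1 (1, y), q2 (1, y)))
    (g0 : ∀ y ∈ Icc (0 : ℝ) 1, ∀ s', a0 ≤ s' → s' ≤ A1 → GA s' →
      η (s', g1 (0, y)) ≤ θ (g1 (0, y), g2 (0, y)) - Real.pi)
    (g1' : ∀ y ∈ Icc (0 : ℝ) 1, ∀ s', a0 ≤ s' → s' ≤ A1 → GA s' →
      θ (g1 (1, y), g2 (1, y)) - Real.pi ≤ η (s', g1 (1, y)))
    (qn : ∀ x ∈ Icc (0 : ℝ) 1, ‖f (q2 (x, 0)) - f (q1 (x, 0))‖ ≤ δ)
    (qf : ∀ x ∈ Icc (0 : ℝ) 1, ρ ≤ ‖f (q2 (x, 1)) - f (q1 (x, 1))‖)
    (gn : ∀ x ∈ Icc (0 : ℝ) 1, ‖f (g2 (x, 0)) - f (g1 (x, 0))‖ ≤ δ)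
    (gf : ∀ x ∈ Icc (0 : ℝ) 1, ρ ≤ ‖f (g2 (x, 1)) - f (g1 (x, 1))‖)
    (gen : ∀ s s' t t', A0 ≤ s → s < s' → a0 ≤ s' → s' ≤ A1 → B0 ≤ t → t ≤ b1 → t < t' → t' ≤ B1 →
      GA s' → GB t → θ (s, s') = η (s', t) → θ (t, t') - Real.pi = η (s', t) →
      (s', t) ∈ Strip ∧ η (s', t) = θ (s', t) - Real.pi / 2 ∧
        m (s', t) = ‖f t - f s'‖ * (1 / r)) :
    ∃ (s s' t t' : ℝ) (v : ℂ), v ≠ 0 ∧ f s' = f s + v ∧
      f t' = f s + Complex.I * (r : ℂ) * v ∧ f t = f s + v + Complex.I * (r : ℂ) * v := by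
  have hpi := Real.pi_pos
  have h1r : 0 < 1 / r := by positivity
  -- the coordinates
  have hbox : ∀ x ∈ Icc (0 : Fin 4 → ℝ) 1, ∀ i, x i ∈ Icc (0 : ℝ) 1 := fun x hx i =>
    ⟨hx.1 i, hx.2 i⟩
  set S : (Fin 4 → ℝ) → ℝ := fun x => q1 (x 0, x 1) with hS
  set S' : (Fin 4 → ℝ) → ℝ := fun x => q2 (x 0, x 1) with hS'
  set T : (Fin 4 → ℝ) → ℝ := fun x => g1 (x 2, x 3) with hT
  set T' : (Fin 4 → ℝ) → ℝ := fun x => g2 (x 2, x 3) with hT'
  have cS : Continuous S := by fun_prop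
  have cS' : Continuous S' := by fun_prop
  have cT : Continuous T := by fun_prop
  have cT' : Continuous T' := by fun_prop
  have DS : ∀ x ∈ Icc (0 : Fin 4 → ℝ) 1, _ := fun x hx => dq (x 0) (hbox x hx 0) (x 1) (hbox x hx 1)
  have DT : ∀ x ∈ Icc (0 : Fin 4 → ℝ) 1, _ := fun x hx => dg (x 2) (hbox x hx 2) (x 3) (hbox x hx 3)
  have sS : ∀ x ∈ Icc (0 : Fin 4 → ℝ) 1, (S x, S' x) ∈ Strip := fun x hx => by
    obtain ⟨a1, a2, a3, a4, -⟩ := DS x hx
    exact ⟨a2, by show S' x < S x + 1; simp only [hS, hS']; linarith⟩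
  have sT : ∀ x ∈ Icc (0 : Fin 4 → ℝ) 1, (T x, T' x) ∈ Strip := fun x hx => by
    obtain ⟨a1, a2, a3, -, -⟩ := DT x hx
    exact ⟨a2, by show T' x < T x + 1; simp only [hT, hT']; linarith⟩
  have sB : ∀ x ∈ Icc (0 : Fin 4 → ℝ) 1, (S' x, T x) ∈ Icc a0 A1 ×ˢ Icc B0 b1 := fun x hx => by
    obtain ⟨a1, a2, a3, a4, -⟩ := DS x hx
    obtain ⟨b1, b2, b3, b4, -⟩ := DT x hx
    exact ⟨⟨a3, a4⟩, ⟨b1, b4⟩⟩
  have cθS : ContinuousOn (fun x => θ (S x, S' x)) (Icc (0 : Fin 4 → ℝ) 1) :=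
    hθc.comp (by fun_prop) sS
  have cθT : ContinuousOn (fun x => θ (T x, T' x)) (Icc (0 : Fin 4 → ℝ) 1) :=
    hθc.comp (by fun_prop) sT
  have cη : ContinuousOn (fun x => η (S' x, T x)) (Icc (0 : Fin 4 → ℝ) 1) :=
    hη.comp (by fun_prop) sB
  have cm : ContinuousOn (fun x => m (S' x, T x)) (Icc (0 : Fin 4 → ℝ) 1) :=
    hm.comp (by fun_prop) sB
  have cnS : Continuous (fun x => ‖f (S' x) - f (S x)‖) := by fun_prop
  have cnT : Continuous (fun x => ‖f (T' x) - f (T x)‖) := by fun_prop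
  set G : (Fin 4 → ℝ) → (Fin 4 → ℝ) := fun x => ![θ (S x, S' x) - η (S' x, T x),
    ‖f (S' x) - f (S x)‖ - m (S' x, T x), η (S' x, T x) - (θ (T x, T' x) - Real.pi),
    ‖f (T' x) - f (T x)‖ - m (S' x, T x)] with hG
  obtain ⟨x, hx, hx0⟩ := Pool.Agent.Work.Brouwer70.poincare_miranda_box (0 : Fin 4 → ℝ) 1
    zero_le_one G (by
      rw [continuousOn_pi]
      intro i
      fin_cases i
      · exact cθS.sub cη
      · exact cnS.continuousOn.sub cm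
      · exact cη.sub (cθT.sub continuousOn_const)
      · exact cnT.continuousOn.sub cm)
    (by
      intro x hx i hi
      have hx' := hbox x hx
      obtain ⟨a1, a2, a3, a4, a5⟩ := DS x hx
      obtain ⟨b1, b2, b3, b4, b5⟩ := DT x hx
      have hmm := hmb (S' x) (T x) a3 a4 b1 b4
      fin_cases i
      · have hi' : x 0 = 0 := hi
        have h := q0 (x 1) (hx' 1) (T x) b1 b4 b5
        show θ (q1 (x 0, x 1), q2 (x 0, x 1)) - η (q2 (x 0, x 1), T x) ≤ 0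
        rw [hi']
        linarith
      · have hi' : x 1 = 0 := hi
        have h := qn (x 0) (hx' 0)
        show ‖f (q2 (x 0, x 1)) - f (q1 (x 0, x 1))‖ - m (S' x, T x) ≤ 0
        rw [hi']
        linarith [hmm.1]
      · have hi' : x 2 = 0 := hi
        have h := g0 (x 3) (hx' 3) (S' x) a3 a4 a5
        show η (S' x, g1 (x 2, x 3)) - (θ (g1 (x 2, x 3), g2 (x 2, x 3)) - Real.pi) ≤ 0
        rw [hi']
        linarith
      · have hi' : x 3 = 0 := hi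
        have h := gn (x 2) (hx' 2)
        show ‖f (g2 (x 2, x 3)) - f (g1 (x 2, x 3))‖ - m (S' x, T x) ≤ 0
        rw [hi']
        linarith [hmm.1])
    (by
      intro x hx i hi
      have hx' := hbox x hx
      obtain ⟨a1, a2, a3, a4, a5⟩ := DS x hx
      obtain ⟨b1, b2, b3, b4, b5⟩ := DT x hx
      have hmm := hmb (S' x) (T x) a3 a4 b1 b4
      fin_cases i
      · have hi' : x 0 = 1 := hi
        have h := q1' (x 1) (hx' 1) (T x) b1 b4 b5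
        show 0 ≤ θ (q1 (x 0, x 1), q2 (x 0, x 1)) - η (q2 (x 0, x 1), T x)
        rw [hi']
        linarith
      · have hi' : x 1 = 1 := hi
        have h := qf (x 0) (hx' 0)
        show 0 ≤ ‖f (q2 (x 0, x 1)) - f (q1 (x 0, x 1))‖ - m (S' x, T x)
        rw [hi']
        linarith [hmm.2]
      · have hi' : x 2 = 1 := hi
        have h := g1' (x 3) (hx' 3) (S' x) a3 a4 a5
        show 0 ≤ η (S' x, g1 (x 2, x 3)) - (θ (g1 (x 2, x 3), g2 (x 2, x 3)) - Real.pi)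
        rw [hi']
        linarith
      · have hi' : x 3 = 1 := hi
        have h := gf (x 2) (hx' 2)
        show 0 ≤ ‖f (g2 (x 2, x 3)) - f (g1 (x 2, x 3))‖ - m (S' x, T x)
        rw [hi']
        linarith [hmm.2])
  have z0 : θ (S x, S' x) - η (S' x, T x) = 0 := congrFun hx0 0
  have z1 : ‖f (S' x) - f (S x)‖ - m (S' x, T x) = 0 := congrFun hx0 1
  have z2 : η (S' x, T x) - (θ (T x, T' x) - Real.pi) = 0 := congrFun hx0 2
  have z3 : ‖f (T' x) - f (T x)‖ - m (S' x, T x) = 0 := congrFun hx0 3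
  obtain ⟨a1, a2, a3, a4, a5⟩ := DS x hx
  obtain ⟨b1, b2, b3, b4, b5⟩ := DT x hx
  have hmm := hmb (S' x) (T x) a3 a4 b1 b4
  obtain ⟨st, e1, e2⟩ := gen (S x) (S' x) (T x) (T' x) a1 a2 a3 a4 b1 b4 b2 b3 a5 b5
    (by linarith) (by linarith)
  have pS := hP _ (sS x hx)
  have pT := hP _ (sT x hx)
  have pB := hP _ st
  simp only at pS pT pB
  set φ := η (S' x, T x) with hφ
  set ν := m (S' x, T x) with hν
  have k1 : θ (S x, S' x) = φ := by linarith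
  have k2 : θ (T x, T' x) = φ + Real.pi := by linarith
  have k3 : θ (S' x, T x) = φ + Real.pi / 2 := by linarith
  have n1 : ‖f (S' x) - f (S x)‖ = ν := by linarith
  have n2 : ‖f (T' x) - f (T x)‖ = ν := by linarith
  have n3 : ‖f (T x) - f (S' x)‖ = r * ν := by
    rw [e2]
    field_simp
  have hν0 : 0 < ν := lt_of_lt_of_le hδ hmm.1
  refine ⟨S x, S' x, T x, T' x, f (S' x) - f (S x), ?_, by ring, ?_, ?_⟩
  · rw [← norm_pos_iff, n1]
    exact hν0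
  · have g1 : f (T' x) - f (T x) = -(f (S' x) - f (S x)) := by
      apply Complex.ext
      · rw [pT.1, Complex.neg_re, pS.1, n1, n2, k1, k2, Real.cos_add_pi]
        ring
      · rw [pT.2, Complex.neg_im, pS.2, n1, n2, k1, k2, Real.sin_add_pi]
        ring
    have g2 : f (T x) - f (S' x) = Complex.I * (r : ℂ) * (f (S' x) - f (S x)) := by
      apply Complex.ext
      · rw [pB.1, n3, k3, Real.cos_add_pi_div_two]
        simp only [Complex.mul_re, Complex.mul_im, Complex.I_re, Complex.I_im, Complex.ofReal_re,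
          Complex.ofReal_im]
        rw [pS.1, pS.2, n1, k1]
        ring
      · rw [pB.2, n3, k3, Real.sin_add_pi_div_two]
        simp only [Complex.mul_re, Complex.mul_im, Complex.I_re, Complex.I_im, Complex.ofReal_re,
          Complex.ofReal_im]
        rw [pS.1, pS.2, n1, k1]
        ring
    linear_combination g1 + g2
  · have g2 : f (T x) - f (S' x) = Complex.I * (r : ℂ) * (f (S' x) - f (S x)) := by
      apply Complex.ext
      · rw [pB.1, n3, k3, Real.cos_add_pi_div_two]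
        simp only [Complex.mul_re, Complex.mul_im, Complex.I_re, Complex.I_im, Complex.ofReal_re,
          Complex.ofReal_im]
        rw [pS.1, pS.2, n1, k1]
        ring
      · rw [pB.2, n3, k3, Real.sin_add_pi_div_two]
        simp only [Complex.mul_re, Complex.mul_im, Complex.I_re, Complex.I_im, Complex.ofReal_re,
          Complex.ofReal_im]
        rw [pS.1, pS.2, n1, k1]
        ring
    linear_combination g2

end Pool.MP_7ec17a_gt.D
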