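import Pool.Agent.Work.MP_7ec17a_gt_W.CONF

/-!
# A configuration exists
-/

set_option autoImplicit false

open Set

namespace Pool.MP_7ec17a_gt.D

open Pool.MP_7ec17a_gt.T Pool.MP_7ec17a_gt.M

/-- The components of a vector in terms of `up` and `rt`. -/
lemma re_im_of_up_rt (θ : ℝ) (z : ℂ) : z.re = rt θ z * Real.cos θ - up θ z * Real.sin θ ∧
    z.im = rt θ z * Real.sin θ + up θ z * Real.cos θ := by
  unfold rt up
  have h := Real.sin_sq_add_cos_sq θ
  constructor
  · linear_combination (-z.re) * h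
  · linear_combination (-z.im) * h

lemma exc_dir {f : ℝ → ℂ} {θ D s t : ℝ} (h : up θ (f t - f s) = D ∧ rt θ (f t - f s) = 0) :
    (f t - f s).re = -(D * Real.sin θ) ∧ (f t - f s).im = D * Real.cos θ := by
  have e := re_im_of_up_rt θ (f t - f s)
  rw [h.1, h.2] at e
  constructor
  · rw [e.1]; ring
  · rw [e.2]; ring

/-- All the strict inequalities hold on neighbourhoods. -/
lemma margins (hSTR : Stmt_STR) (hTUBE : Stmt_TUBE) (hUNI : Stmt_UNI) {f : ℝ → ℂ}
    {θ : ℝ × ℝ → ℝ} {D ϑa ϑb sa sb ta tb : ℝ} (W : Wide f θ D ϑa ϑb) (Sa : Sup f θ sa ϑa)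
    (Sb : Sup f θ sb ϑb) (Ta : Sup f θ ta (ϑa + Real.pi)) (Tb : Sup f θ tb (ϑb + Real.pi))
    (o1 : sa < sb) (o2 : sb < ta) (o3 : ta < tb) (o4 : tb ≤ sa + 1) :
    ∃ κ c : ℝ, 0 < κ ∧ 0 < c ∧
      (∀ s t, sb - κ ≤ s → s ≤ sb + κ → ta - κ ≤ t → t ≤ tb + κ → ϑb + c ≤ θ (s, t)) ∧
      (∀ s t, sa - κ ≤ s → s ≤ sb + κ → ta - κ ≤ t → t ≤ ta + κ → θ (s, t) ≤ ϑa + Real.pi - c) ∧
      (∀ s t, sb - κ ≤ s → s ≤ sb + κ → ta - κ ≤ t → t ≤ ta + κ →
        ϑa + Real.pi / 2 ≤ θ (s, t) ∧ θ (s, t) ≤ ϑb + Real.pi / 2) ∧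
      (tb < sa + 1 →
        (∀ s t, sa - κ ≤ s → s ≤ sa + κ → tb - κ ≤ t → t ≤ tb + κ →
          ϑa + Real.pi / 2 ≤ θ (s, t) ∧ θ (s, t) ≤ ϑb + Real.pi / 2) ∧
        (∀ s t, sa - κ ≤ s → s ≤ sa + κ → ta - κ ≤ t → t ≤ tb + κ →
          θ (s, t) ≤ ϑa + Real.pi - c) ∧
        (∀ s t, sa - κ ≤ s → s ≤ sb + κ → tb - κ ≤ t → t ≤ tb + κ → ϑb + c ≤ θ (s, t))) := by
  have hpi := Real.pi_pos
  have hwide := W.wide
  have hab : ϑa ≤ ϑb := by linarith
  have cθ := W.lift.cont
  obtain ⟨ua1, ua2, ua3⟩ := hUNI f θ D ϑa ϑb ϑa W le_rfl hab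
  obtain ⟨ub1, ub2, ub3⟩ := hUNI f θ D ϑa ϑb ϑb W hab le_rfl
  obtain ⟨st1, st2, -, -⟩ := hSTR f θ D ϑa ϑb sa sb ta tb W Sa Sb Ta Tb
  obtain ⟨κ2, c2, hκ2, hc2, H2⟩ := hTUBE (fun z => θ z - ϑb) sb sb ta tb
    (cθ.sub continuousOn_const) le_rfl o3.le (fun s t a b c d => by
      have es : s = sb := le_antisymm b a
      rw [es]
      have h1 : sb < t := by linarith
      have h2 : t < sb + 1 := by linarith
      exact ⟨⟨h1, h2⟩, by linarith [((ub1 sb Sb).2 t h1 h2).1]⟩)
  obtain ⟨κ2', c2', hκ2', hc2', H2'⟩ := hTUBE (fun z => ϑa + Real.pi - θ z) sa sb ta ta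
    (continuousOn_const.sub cθ) o1.le le_rfl (fun s t a b c d => by
      have et : t = ta := le_antisymm d c
      rw [et]
      have h1 : s < ta := by linarith
      have h2 : ta - 1 < s := by linarith
      exact ⟨⟨h1, by show ta < s + 1; linarith⟩, by linarith [((ua2 ta Ta).2 s h2 h1).2]⟩)
  have hstr2 := st2 o2 (by linarith)
  obtain ⟨κ3, c3, hκ3, hc3, H3⟩ := hTUBE (fun z => θ z - (ϑa + Real.pi / 2)) sb sb ta ta
    (cθ.sub continuousOn_const) le_rfl le_rfl (fun s t a b c d => by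
      have es : s = sb := le_antisymm b a
      have et : t = ta := le_antisymm d c
      rw [es, et]
      exact ⟨⟨o2, by show ta < sb + 1; linarith⟩, by linarith [hstr2.1]⟩)
  obtain ⟨κ3', c3', hκ3', hc3', H3'⟩ := hTUBE (fun z => ϑb + Real.pi / 2 - θ z) sb sb ta ta
    (continuousOn_const.sub cθ) le_rfl le_rfl (fun s t a b c d => by
      have es : s = sb := le_antisymm b a
      have et : t = ta := le_antisymm d c
      rw [es, et]
      exact ⟨⟨o2, by show ta < sb + 1; linarith⟩, by linarith [hstr2.2]⟩)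
  -- the common constants of the first four
  set κ0 := min (min κ2 κ2') (min κ3 κ3') with hκ0
  set c0 := min c2 c2' with hc0
  have p1 : 0 < κ0 := lt_min (lt_min hκ2 hκ2') (lt_min hκ3 hκ3')
  have p2 : 0 < c0 := lt_min hc2 hc2'
  have l1 : κ0 ≤ κ2 := (min_le_left _ _).trans (min_le_left _ _)
  have l2 : κ0 ≤ κ2' := (min_le_left _ _).trans (min_le_right _ _)
  have l3 : κ0 ≤ κ3 := (min_le_right _ _).trans (min_le_left _ _)
  have l4 : κ0 ≤ κ3' := (min_le_right _ _).trans (min_le_right _ _)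
  have l5 : c0 ≤ c2 := min_le_left _ _
  have l6 : c0 ≤ c2' := min_le_right _ _
  have G2 : ∀ κ c : ℝ, κ ≤ κ0 → c ≤ c0 →
      (∀ s t, sb - κ ≤ s → s ≤ sb + κ → ta - κ ≤ t → t ≤ tb + κ → ϑb + c ≤ θ (s, t)) ∧
      (∀ s t, sa - κ ≤ s → s ≤ sb + κ → ta - κ ≤ t → t ≤ ta + κ → θ (s, t) ≤ ϑa + Real.pi - c) ∧
      (∀ s t, sb - κ ≤ s → s ≤ sb + κ → ta - κ ≤ t → t ≤ ta + κ →
        ϑa + Real.pi / 2 ≤ θ (s, t) ∧ θ (s, t) ≤ ϑb + Real.pi / 2) := by
    intro κ c hκ hc
    refine ⟨fun s t a b d e => ?_, fun s t a b d e => ?_, fun s t a b d e => ⟨?_, ?_⟩⟩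
    · have := (H2 s t (by linarith) (by linarith) (by linarith) (by linarith)).2
      linarith
    · have := (H2' s t (by linarith) (by linarith) (by linarith) (by linarith)).2
      linarith
    · have := (H3 s t (by linarith) (by linarith) (by linarith) (by linarith)).2
      linarith
    · have := (H3' s t (by linarith) (by linarith) (by linarith) (by linarith)).2
      linarith
  by_cases h0 : tb < sa + 1
  · have hstr1 := st1 (by linarith) h0
    obtain ⟨κ1, c1, hκ1, hc1, H1⟩ := hTUBE (fun z => θ z - (ϑa + Real.pi / 2)) sa sa tb tb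
      (cθ.sub continuousOn_const) le_rfl le_rfl (fun s t a b c d => by
        have es : s = sa := le_antisymm b a
        have et : t = tb := le_antisymm d c
        rw [es, et]
        exact ⟨⟨by show sa < tb; linarith, h0⟩, by linarith [hstr1.1]⟩)
    obtain ⟨κ1', c1', hκ1', hc1', H1'⟩ := hTUBE (fun z => ϑb + Real.pi / 2 - θ z) sa sa tb tb
      (continuousOn_const.sub cθ) le_rfl le_rfl (fun s t a b c d => by
        have es : s = sa := le_antisymm b a
        have et : t = tb := le_antisymm d c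
        rw [es, et]
        exact ⟨⟨by show sa < tb; linarith, h0⟩, by linarith [hstr1.2]⟩)
    obtain ⟨κ4, c4, hκ4, hc4, H4⟩ := hTUBE (fun z => ϑa + Real.pi - θ z) sa sa ta tb
      (continuousOn_const.sub cθ) le_rfl o3.le (fun s t a b c d => by
        have es : s = sa := le_antisymm b a
        rw [es]
        have h1 : sa < t := by linarith
        have h2 : t < sa + 1 := by linarith
        exact ⟨⟨h1, h2⟩, by linarith [((ua1 sa Sa).2 t h1 h2).2]⟩)
    obtain ⟨κ4', c4', hκ4', hc4', H4'⟩ := hTUBE (fun z => θ z - ϑb) sa sb tb tb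
      (cθ.sub continuousOn_const) o1.le le_rfl (fun s t a b c d => by
        have et : t = tb := le_antisymm d c
        rw [et]
        have h1 : s < tb := by linarith
        have h2 : tb - 1 < s := by linarith
        exact ⟨⟨h1, by show tb < s + 1; linarith⟩, by linarith [((ub2 tb Tb).2 s h2 h1).1]⟩)
    set κ := min κ0 (min (min κ1 κ1') (min κ4 κ4')) with hκ
    set c := min c0 (min c4 c4') with hc
    have m0 : κ ≤ κ0 := min_le_left _ _
    have m1 : κ ≤ κ1 := (min_le_right _ _).trans ((min_le_left _ _).trans (min_le_left _ _))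
    have m2 : κ ≤ κ1' := (min_le_right _ _).trans ((min_le_left _ _).trans (min_le_right _ _))
    have m3 : κ ≤ κ4 := (min_le_right _ _).trans ((min_le_right _ _).trans (min_le_left _ _))
    have m4 : κ ≤ κ4' := (min_le_right _ _).trans ((min_le_right _ _).trans (min_le_right _ _))
    have m5 : c ≤ c0 := min_le_left _ _
    have m6 : c ≤ c4 := (min_le_right _ _).trans (min_le_left _ _)
    have m7 : c ≤ c4' := (min_le_right _ _).trans (min_le_right _ _)
    have hκp : 0 < κ := lt_min p1 (lt_min (lt_min hκ1 hκ1') (lt_min hκ4 hκ4'))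
    have hcp : 0 < c := lt_min p2 (lt_min hc4 hc4')
    obtain ⟨g1, g2, g3⟩ := G2 κ c m0 m5
    refine ⟨κ, c, hκp, hcp, g1, g2, g3, fun _ => ⟨fun s t a b d e => ⟨?_, ?_⟩,
      fun s t a b d e => ?_, fun s t a b d e => ?_⟩⟩
    · have := (H1 s t (by linarith) (by linarith) (by linarith) (by linarith)).2
      linarith
    · have := (H1' s t (by linarith) (by linarith) (by linarith) (by linarith)).2
      linarith
    · have := (H4 s t (by linarith) (by linarith) (by linarith) (by linarith)).2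
      linarith
    · have := (H4' s t (by linarith) (by linarith) (by linarith) (by linarith)).2
      linarith
  · obtain ⟨g1, g2, g3⟩ := G2 κ0 c0 le_rfl le_rfl
    exact ⟨κ0, c0, p1, p2, g1, g2, g3, fun h => absurd h h0⟩

/-- A configuration, if the lower end of the first arc is not the upper end of the second one. -/
theorem exc (hSUPP : Stmt_SUPP) (hMONO : Stmt_MONO) (hHULL : Stmt_HULL) (hSTR : Stmt_STR)
    (hTUBE : Stmt_TUBE) (hCLOSE : Stmt_CLOSE) (hUNI : Stmt_UNI) {f : ℝ → ℂ}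
    {θ : ℝ × ℝ → ℝ} {D ϑa ϑb sa sb ta tb : ℝ} (W : Wide f θ D ϑa ϑb) (Sa : Sup f θ sa ϑa)
    (Sb : Sup f θ sb ϑb) (Ta : Sup f θ ta (ϑa + Real.pi)) (Tb : Sup f θ tb (ϑb + Real.pi))
    (o1 : sa < sb) (o2 : sb < ta) (o3 : ta < tb) (o4 : tb ≤ sa + 1) :
    ∃ θ1 θ2 k1 k2 l sm sp tp tm : ℝ, Conf f θ ϑa ϑb θ1 θ2 k1 k2 l sm sa sb sp tp ta tb tm ∧
      (tb < sa + 1 → tm < sm + 1) ∧ (tb = sa + 1 → sm = sa ∧ tm = tb) := by
  have hpi := Real.pi_pos
  have hwide := W.wide
  have hgap := W.gap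
  have hab : ϑa ≤ ϑb := by linarith
  have hf := W.crv
  have hθ := W.lift
  have cθ := W.lift.cont
  have cf := hf.cont
  obtain ⟨ua1, ua2, ua3⟩ := hUNI f θ D ϑa ϑb ϑa W le_rfl hab
  obtain ⟨ub1, ub2, ub3⟩ := hUNI f θ D ϑa ϑb ϑb W hab le_rfl
  obtain ⟨κ, c, hκ, hc, n2, n2', n3, nn⟩ := margins hSTR hTUBE hUNI W Sa Sb Ta Tb o1 o2 o3 o4
  -- the size of the neighbourhoods
  obtain ⟨κ', hκ', q1, q2, q3⟩ : ∃ κ' : ℝ, 0 < κ' ∧ κ' ≤ κ / 4 ∧ κ' ≤ (ta - sb) / 8 ∧
      (tb < sa + 1 → κ' ≤ (sa + 1 - tb) / 4) := by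
    by_cases h : tb < sa + 1
    · refine ⟨min (κ / 4) (min ((ta - sb) / 8) ((sa + 1 - tb) / 4)),
        lt_min (by linarith) (lt_min (by linarith) (by linarith)), min_le_left _ _,
        (min_le_right _ _).trans (min_le_left _ _),
        fun _ => (min_le_right _ _).trans (min_le_right _ _)⟩
    · exact ⟨min (κ / 4) ((ta - sb) / 8), lt_min (by linarith) (by linarith), min_le_left _ _,
        min_le_right _ _, fun h' => absurd h' h⟩
  -- nearby support points
  obtain ⟨ε1, hε1, H1⟩ := hCLOSE f sb ta sb ϑb κ' cf hκ' (fun s a b h => by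
    have hlt : sb < s := lt_of_le_of_ne a (Ne.symm h)
    refine ⟨sb, ?_⟩
    by_contra hcon
    push Not at hcon
    have h1 := (ub1 sb Sb).1 s (by rw [up_sub] at hcon ⊢; linarith)
    exact crv_ne hf (sb, s) ⟨hlt, by show s < sb + 1; linarith⟩ h1)
  obtain ⟨ε2, hε2, H2⟩ := hCLOSE f sb ta ta (ϑa + Real.pi) κ' cf hκ' (fun s a b h => by
    have hlt : s < ta := lt_of_le_of_ne b h
    refine ⟨ta, ?_⟩
    by_contra hcon
    push Not at hcon
    rw [up_add_pi] at hcon
    have h1 := (ua2 ta Ta).1 s (by rw [up_sub] at hcon ⊢; linarith)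
    exact crv_ne hf (s, ta) ⟨hlt, by show ta < s + 1; linarith⟩ h1.symm)
  obtain ⟨ε3, hε3, H3⟩ := hCLOSE f (tb - 1) sa sa ϑa κ' cf hκ' (fun s a b h => by
    have hlt : s < sa := lt_of_le_of_ne b h
    refine ⟨sa, ?_⟩
    by_contra hcon
    push Not at hcon
    have h1 := (ua1 sa Sa).1 s (by rw [up_sub] at hcon ⊢; linarith)
    exact crv_ne hf (s, sa) ⟨hlt, by show sa < s + 1; linarith⟩ h1.symm)
  obtain ⟨ε4, hε4, H4⟩ := hCLOSE f tb (sa + 1) tb (ϑb + Real.pi) κ' cf hκ' (fun s a b h => by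
    have hlt : tb < s := lt_of_le_of_ne a (Ne.symm h)
    refine ⟨tb, ?_⟩
    by_contra hcon
    push Not at hcon
    rw [up_add_pi] at hcon
    have h1 := (ub2 tb Tb).1 s (by rw [up_sub] at hcon ⊢; linarith)
    exact crv_ne hf (tb, s) ⟨hlt, by show s < tb + 1; linarith⟩ h1)
  -- the trapping directions
  set g := Real.pi - (ϑb - ϑa) with hg
  have hg0 : 0 < g := by linarith
  set ε := min (min (min ε1 ε2) (min ε3 ε4)) (min c (g / 2)) with hε
  have hε0 : 0 < ε := lt_min (lt_min (lt_min hε1 hε2) (lt_min hε3 hε4)) (lt_min hc (by linarith))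
  have l1 : ε ≤ ε1 := (min_le_left _ _).trans ((min_le_left _ _).trans (min_le_left _ _))
  have l2 : ε ≤ ε2 := (min_le_left _ _).trans ((min_le_left _ _).trans (min_le_right _ _))
  have l3 : ε ≤ ε3 := (min_le_left _ _).trans ((min_le_right _ _).trans (min_le_left _ _))
  have l4 : ε ≤ ε4 := (min_le_left _ _).trans ((min_le_right _ _).trans (min_le_right _ _))
  have l5 : ε ≤ c := (min_le_right _ _).trans (min_le_left _ _)
  have l6 : ε ≤ g / 2 := (min_le_right _ _).trans (min_le_right _ _)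
  obtain ⟨dre1, dim1⟩ := exc_dir (ub3 sb tb Sb Tb)
  obtain ⟨dre2, dim2⟩ := exc_dir (ua3 sa ta Sa Ta)
  obtain ⟨θ1, a1, a2, xp, xm, b1, b2, b3⟩ := trap_left hf W.pos (show ϑb < ϑb + ε by linarith)
    dre1 dim1 W.diam (W.out (ϑb + ε) (by linarith) (by linarith))
  obtain ⟨θ2, a3, a4, ym, yp, b4, b5, b6⟩ := trap_right hf W.pos (show ϑa - ε < ϑa by linarith)
    dre2 dim2 W.diam (fun s t => by
      have h := W.out (ϑa - ε + Real.pi) (by linarith) (by linarith) t s
      rw [up_add_pi, up_sub] at h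
      rw [up_sub]
      linarith)
  obtain ⟨n1, Sp⟩ := hSUPP f θ xp θ1 hf hθ b1
  obtain ⟨m1, Tm⟩ := hSUPP f θ xm (θ1 + Real.pi) hf hθ (fun x => by
    rw [up_add_pi]
    have := b2 x
    rw [up_sub] at this ⊢
    linarith)
  obtain ⟨i1, Sm⟩ := hSUPP f θ ym θ2 hf hθ b4
  obtain ⟨j1, Tp⟩ := hSUPP f θ yp (θ2 + Real.pi) hf hθ (fun x => by
    rw [up_add_pi]
    have := b5 x
    rw [up_sub] at this ⊢
    linarith)
  rw [← crv_int hf xp n1, ← crv_int hf xm m1] at b3
  rw [← crv_int hf ym i1, ← crv_int hf yp j1] at b6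
  generalize xp + (n1 : ℝ) = sp at *
  generalize xm + (m1 : ℝ) = tm at *
  generalize ym + (i1 : ℝ) = sm at *
  generalize yp + (j1 : ℝ) = tp at *
  have Sa' := sup_shift hf hθ Sa
  have Sm' := sup_shift hf hθ Sm
  -- order
  have r1 : sb ≤ sp := hMONO f θ _ _ _ _ hf hθ Sb Sp a1
  have r2 : sp ≤ ta := hMONO f θ _ _ _ _ hf hθ Sp Ta (by linarith)
  have r3 : tb ≤ tm := hMONO f θ _ _ _ _ hf hθ Tb Tm (by linarith)
  have r4 : tm ≤ sa + 1 := hMONO f θ _ _ _ _ hf hθ Tm Sa' (by linarith)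
  have r5 : tb ≤ sm + 1 := hMONO f θ _ _ _ _ hf hθ Tb Sm' (by linarith)
  have r6 : sm ≤ sa := hMONO f θ _ _ _ _ hf hθ Sm Sa a4
  have r7 : sb ≤ tp := hMONO f θ _ _ _ _ hf hθ Sb Tp (by linarith)
  have r8 : tp ≤ ta := hMONO f θ _ _ _ _ hf hθ Tp Ta (by linarith)
  have r9 : tm ≤ sm + 1 := hMONO f θ _ _ _ _ hf hθ Tm Sm' (by linarith)
  -- closeness
  have t1 := H1 θ1 (by rw [abs_of_pos (by linarith)]; linarith) sp r1 r2 Sp.above
  have t2 := H2 (θ2 + Real.pi) (by
    have e : θ2 + Real.pi - (ϑa + Real.pi) = -(ϑa - θ2) := by ring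
    rw [e, abs_neg, abs_of_pos (by linarith)]; linarith) tp r7 r8 Tp.above
  have t3 := H3 θ2 (by
    have e : θ2 - ϑa = -(ϑa - θ2) := by ring
    rw [e, abs_neg, abs_of_pos (by linarith)]; linarith) sm (by linarith) r6 Sm.above
  have t4 := H4 (θ1 + Real.pi) (by
    have e : θ1 + Real.pi - (ϑb + Real.pi) = θ1 - ϑb := by ring
    rw [e, abs_of_pos (by linarith)]; linarith) tm r3 r4 Tm.above
  rw [abs_lt] at t1 t2 t3 t4
  -- the lines
  rw [rt_sub] at b3 b6
  set k1 := (rt θ1 (f sp) + rt θ1 (f tm)) / 2 with hk1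
  set k2 := (rt θ2 (f sm) + rt θ2 (f tp)) / 2 with hk2
  have c3 : rt θ1 (f sp) < k1 := by linarith
  have c4 : k1 < rt θ1 (f tm) := by linarith
  have c1 : k2 < rt θ2 (f sm) := by linarith
  have c2 : rt θ2 (f tp) < k2 := by linarith
  -- the extension
  obtain ⟨l, hl, hlκ, e1, e2⟩ : ∃ l : ℝ, 0 < l ∧ l ≤ κ' ∧
      (∀ s, sp ≤ s → s ≤ sp + l → rt θ1 (f s) ≤ k1) ∧
      (∀ t, tp - l ≤ t → t ≤ tp → rt θ2 (f t) ≤ k2) := by
    have ho1 : IsOpen {s : ℝ | rt θ1 (f s) < k1} :=
      isOpen_lt ((continuous_rt θ1).comp cf) continuous_const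
    have ho2 : IsOpen {s : ℝ | rt θ2 (f s) < k2} :=
      isOpen_lt ((continuous_rt θ2).comp cf) continuous_const
    obtain ⟨δ1, hδ1, hb1⟩ := Metric.isOpen_iff.1 ho1 sp c3
    obtain ⟨δ2, hδ2, hb2⟩ := Metric.isOpen_iff.1 ho2 tp c2
    refine ⟨min κ' (min (δ1 / 2) (δ2 / 2)), lt_min hκ' (lt_min (by linarith) (by linarith)),
      min_le_left _ _, fun s a b => ?_, fun t a b => ?_⟩
    · have h1 : min κ' (min (δ1 / 2) (δ2 / 2)) ≤ δ1 / 2 :=
        (min_le_right _ _).trans (min_le_left _ _)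
      have h2 : s ∈ Metric.ball sp δ1 := by
        rw [Metric.mem_ball, Real.dist_eq, abs_of_nonneg (by linarith)]
        linarith
      have h3 : rt θ1 (f s) < k1 := hb1 h2
      exact h3.le
    · have h1 : min κ' (min (δ1 / 2) (δ2 / 2)) ≤ δ2 / 2 :=
        (min_le_right _ _).trans (min_le_right _ _)
      have h2 : t ∈ Metric.ball tp δ2 := by
        rw [Metric.mem_ball, Real.dist_eq, abs_of_nonpos (by linarith)]
        linarith
      have h3 : rt θ2 (f t) < k2 := hb2 h2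
      exact h3.le
  have hcorner : tb = sa + 1 → sm = sa ∧ tm = tb := fun h =>
    ⟨le_antisymm r6 (by linarith), le_antisymm (by linarith) r3⟩
  have hull := hHULL f θ D ϑa ϑb sa sb ta tb W Sa Sb Ta Tb (by linarith) (by linarith)
  refine ⟨θ1, θ2, k1, k2, l, sm, sp, tp, tm, ?_, fun h => ?_, hcorner⟩
  swap
  · have := q3 h
    linarith [t3.1, t4.2]
  have hno : ∀ s t : ℝ, sm < sa ∨ tb < tm → tb < sa + 1 := by
    intro s t h
    rcases lt_or_eq_of_le o4 with h1 | h1
    · exact h1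
    · obtain ⟨h2, h3⟩ := hcorner h1
      rcases h with h | h <;> linarith
  exact
    { crv := hf
      lift := hθ
      wide := hwide
      hθ2 := a4
      hθ1 := a1
      gap := by linarith
      Sm := Sm
      Sa := Sa
      Sb := Sb
      Sp := Sp
      Tp := Tp
      Ta := Ta
      Tb := Tb
      Tm := Tm
      hullS := hull.1
      hullT := hull.2
      o1 := r6
      o2 := o1
      o3 := r1
      o4 := by linarith [t1.2, t2.1]
      o5 := r8
      o6 := o3
      o7 := r3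
      o8 := r9
      hl := hl
      ol := by linarith [t1.2, t2.1]
      ol' := by linarith [t1.2, t2.1]
      c1 := c1
      c2 := c2
      c3 := c3
      c4 := c4
      e1 := e1
      e2 := e2
      n1 := fun t x1 x2 x3 => by
        rcases lt_or_eq_of_le o4 with h1 | h1
        · have := ((nn h1).1 sm t (by linarith [t3.1]) (by linarith) (by linarith)
            (by linarith [t4.2])).1
          linarith
        · obtain ⟨h2, h3⟩ := hcorner h1
          linarith
      n1' := fun s x1 x2 x3 => by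
        rcases lt_or_eq_of_le o4 with h1 | h1
        · have := ((nn h1).1 s tm (by linarith [t3.1]) (by linarith) (by linarith)
            (by linarith [t4.2])).2
          linarith
        · obtain ⟨h2, h3⟩ := hcorner h1
          linarith
      n2 := fun s t x1 x2 x3 x4 => by
        have := n2 s t (by linarith) (by linarith [t1.2]) (by linarith [t2.1])
          (by linarith [t4.2])
        linarith
      n2' := fun s t x1 x2 x3 x4 => by
        have := n2' s t (by linarith [t3.1]) (by linarith [t1.2]) (by linarith [t2.1])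
          (by linarith)
        linarith
      n3 := fun s t x1 x2 x3 x4 => by
        have := (n3 s t (by linarith) (by linarith [t1.2]) (by linarith [t2.1])
          (by linarith)).2
        linarith
      n3' := fun s t x1 x2 x3 x4 => by
        have := (n3 s t (by linarith) (by linarith [t1.2]) (by linarith [t2.1])
          (by linarith)).1
        linarith
      n4 := fun h s t x1 x2 x3 x4 => by
        have := (nn (hno 0 0 (Or.inl h))).2.1 s t (by linarith [t3.1]) (by linarith)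
          (by linarith [t2.1]) (by linarith [t4.2])
        linarith
      n4' := fun h s t x1 x2 x3 x4 => by
        have := (nn (hno 0 0 (Or.inr h))).2.2 s t (by linarith [t3.1]) (by linarith [t1.2])
          (by linarith) (by linarith [t4.2])
        linarith }

end Pool.MP_7ec17a_gt.D
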