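import Pool.Agent.Work.MP_7ec17a_gt_W.QUADW
import Pool.Agent.Work.MP_7ec17a_gt_W.CORE

/-!
# The base direction stays in the right range
-/

set_option autoImplicit false

open Set

namespace Pool.MP_7ec17a_gt.D

open Pool.MP_7ec17a_gt.T Pool.MP_7ec17a_gt.M

lemma rt_chord {f : ℝ → ℂ} {θ : ℝ × ℝ → ℝ} (hθ : Lift f θ) {s t : ℝ} (h1 : s < t) (h2 : t < s + 1)
    (φ : ℝ) : rt φ (f t - f s) = ‖f t - f s‖ * Real.cos (θ (s, t) - φ) :=
  rt_pol (hθ.pol (s, t) ⟨h1, h2⟩) φ

lemma rt_le_of_arg {f : ℝ → ℂ} {θ : ℝ × ℝ → ℝ} (hθ : Lift f θ) {s t : ℝ} (h1 : s ≤ t)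
    (h2 : t < s + 1) {φ : ℝ} (a : s < t → Real.pi / 2 ≤ θ (s, t) - φ)
    (b : s < t → θ (s, t) - φ ≤ Real.pi + Real.pi / 2) : rt φ (f t) ≤ rt φ (f s) := by
  rcases lt_or_eq_of_le h1 with h | h
  · have e := rt_chord hθ h h2 φ
    rw [rt_sub] at e
    have hc : Real.cos (θ (s, t) - φ) ≤ 0 :=
      Real.cos_nonpos_of_pi_div_two_le_of_le (a h) (b h)
    have := mul_nonpos_of_nonneg_of_nonpos (norm_nonneg (f t - f s)) hc
    linarith
  · rw [h]

section
variable {f : ℝ → ℂ} {θ : ℝ × ℝ → ℝ} {ϑa ϑb θ1 θ2 k1 k2 l sm sa sb sp tp ta tb tm : ℝ}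

lemma geo1 (C : Conf f θ ϑa ϑb θ1 θ2 k1 k2 l sm sa sb sp tp ta tb tm) {t : ℝ} (h1 : tp - l ≤ t)
    (h2 : t ≤ tm) (h3 : t < sm + 1) (g : t ≤ ta → rt θ2 (f t) ≤ k2) :
    θ2 + Real.pi / 2 ≤ θ (sm, t) := by
  have hpi := Real.pi_pos
  have hsmt : sm < t := by linarith [C.o1, C.o2, C.o3, C.o4, C.hl]
  have hrow := C.Sm.row t hsmt h3
  -- if `f t` is on the left of the line
  have key : rt θ2 (f t) ≤ k2 → θ2 + Real.pi / 2 ≤ θ (sm, t) := by
    intro h
    have e := rt_chord C.lift hsmt h3 θ2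
    rw [rt_sub] at e
    by_contra hcon
    push Not at hcon
    have hc : 0 ≤ Real.cos (θ (sm, t) - θ2) :=
      Real.cos_nonneg_of_neg_pi_div_two_le_of_le (by linarith [hrow.1]) (by linarith)
    have := mul_nonneg (norm_nonneg (f t - f sm)) hc
    linarith [C.c1]
  rcases le_total t ta with h4 | h4
  · exact key (g h4)
  · rcases le_total tb t with h5 | h5
    · exact C.n1 t h5 h2 h3
    · obtain ⟨ψ, a1, a2, a3⟩ := C.hullT t h4 h5
      rcases le_total (θ2 + Real.pi / 2) ψ with h6 | h6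
      · have := (a3.col sm (by linarith) hsmt).1
        linarith
      · apply key
        -- `f t` is on the left of `f ta`, and `f ta` on the left of `f tp`
        have hlen1 : t < ta + 1 := by linarith [C.o1, C.o2, C.o3, C.o4, C.o5, C.hl]
        have hlen2 : ta < tp + 1 := by
          linarith [C.o1, C.o2, C.o3, C.o4, C.o5, C.o6, C.o7, C.o8, C.hl]
        have b1 : rt θ2 (f t) ≤ rt θ2 (f ta) := by
          refine rt_le_of_arg C.lift h4 hlen1 (fun h => ?_) (fun h => ?_)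
          · linarith [(C.Ta.row t h hlen1).1, C.hθ2]
          · linarith [(a3.col ta (by linarith) h).2]
        have b2 : rt θ2 (f ta) ≤ rt θ2 (f tp) := by
          refine rt_le_of_arg C.lift C.o5 hlen2 (fun h => ?_) (fun h => ?_)
          · linarith [(C.Tp.row ta h hlen2).1]
          · have := (C.Ta.col tp (by linarith) h).2
            linarith [C.wide, C.gap, C.hθ1]
        linarith [C.c2]

lemma geo3 (C : Conf f θ ϑa ϑb θ1 θ2 k1 k2 l sm sa sb sp tp ta tb tm) {s t : ℝ} (h0 : sp ≤ s)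
    (h0' : s ≤ sp + l) (h1 : tp - l ≤ t) (h2 : t ≤ tm) (g : tb ≤ t → k1 ≤ rt θ1 (f t)) :
    θ (s, t) ≤ θ1 + Real.pi / 2 := by
  have hpi := Real.pi_pos
  have hlt : ∀ x, sp ≤ x → x ≤ sp + l → x < t ∧ t < x + 1 := fun x a b =>
    ⟨by linarith [C.o4], by linarith [C.o8, C.o1, C.o2, C.o3]⟩
  -- if `f t` is on the right of the line
  have key : k1 ≤ rt θ1 (f t) → θ (s, t) ≤ θ1 + Real.pi / 2 := by
    intro h
    have hcos : ∀ x ∈ Icc sp s, 0 ≤ Real.cos (θ (x, t) - θ1) := by
      intro x hx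
      obtain ⟨x1, x2⟩ := hlt x hx.1 (by linarith [hx.2])
      have e := rt_chord C.lift x1 x2 θ1
      rw [rt_sub] at e
      have e1 := C.e1 x hx.1 (by linarith [hx.2])
      have hn : 0 < ‖f t - f x‖ := norm_pos_iff.2 (sub_ne_zero.2 (crv_ne C.crv (x, t) ⟨x1, x2⟩))
      by_contra hcon
      push Not at hcon
      have := mul_neg_of_pos_of_neg hn hcon
      linarith
    have hcont : ContinuousOn (fun x => θ (x, t) - (θ1 - Real.pi / 2)) (Icc sp s) := by
      refine ContinuousOn.sub ?_ continuousOn_const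
      exact C.lift.cont.comp (by fun_prop) (fun x hx => hlt x hx.1 (by linarith [hx.2]))
    have hspS : sp ∈ Icc sp s := ⟨le_rfl, h0⟩
    obtain ⟨y1, y2⟩ := hlt sp le_rfl (by linarith [C.hl])
    have hrow := C.Sp.row t y1 y2
    have hst := stay_nn isPreconnected_Icc (θ := fun x => θ (x, t) - (θ1 - Real.pi / 2)) hcont
      (fun x hx => by
        have e3 : θ (x, t) - (θ1 - Real.pi / 2) = (θ (x, t) - θ1) + Real.pi / 2 := by ring
        rw [e3, Real.sin_add_pi_div_two]
        exact hcos x hx) hspS (by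
        constructor
        · linarith [hrow.1]
        · by_contra hcon
          push Not at hcon
          have h3 := hcos sp hspS
          have h4 : 0 < Real.cos (θ (sp, t) - θ1 - Real.pi) :=
            Real.cos_pos_of_mem_Ioo ⟨by linarith, by linarith [hrow.2]⟩
          rw [Real.cos_sub_pi] at h4
          linarith) s ⟨h0, le_rfl⟩
    linarith [hst.2]
  rcases le_total tb t with h5 | h5
  · exact key (g h5)
  · rcases le_total t ta with h4 | h4
    · exact C.n3 s t h0 h0' h1 h4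
    · obtain ⟨ψ, a1, a2, a3⟩ := C.hullT t h4 h5
      obtain ⟨y1, y2⟩ := hlt s h0 h0'
      rcases le_total ψ (θ1 - Real.pi / 2) with h6 | h6
      · have := (a3.col s (by linarith) y1).2
        linarith
      · apply key
        have hlen1 : tb < t + 1 := by
          linarith [C.o1, C.o2, C.o3, C.o4, C.o5, C.o6, C.o7, C.o8, C.hl]
        have hlen2 : tm < tb + 1 := by
          linarith [C.o1, C.o2, C.o3, C.o4, C.o5, C.o6, C.o7, C.o8, C.hl]
        have b1 : rt θ1 (f tb) ≤ rt θ1 (f t) := by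
          refine rt_le_of_arg C.lift h5 hlen1 (fun h => ?_) (fun h => ?_)
          · linarith [(a3.row tb h hlen1).1]
          · linarith [(C.Tb.col t (by linarith) h).2, C.hθ1]
        have b2 : rt θ1 (f tm) ≤ rt θ1 (f tb) := by
          refine rt_le_of_arg C.lift C.o7 hlen2 (fun h => ?_) (fun h => ?_)
          · have := (C.Tb.row tm h hlen2).1
            linarith [C.wide, C.gap, C.hθ2]
          · linarith [(C.Tm.col tb (by linarith) h).2]
        linarith [C.c4]

end

end Pool.MP_7ec17a_gt.D
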