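import Pool.Agent.Work.MP_7ec17a_gt_D.TRAPG

/-!
# MP_7ec17a_gt, Theorem E: every Jordan curve inscribes all sufficiently large aspect ratios

Interface of part A (the directions of the diametral pairs do not fill everything).
Notation of `Work/MP_7ec17a_gt_D/Interface.lean`: `up θ z`, `rt θ z` are the components of `z` in the
directions `i e^{iθ}` and `e^{iθ}`; `Crv f`: `f` has period `1` and is injective modulo the period;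
`Strip`: the pairs `s < s' < s + 1`; `Lift f θ`: `θ` is a continuous argument of the chords
`f s' - f s`, normalised by `θ (s', s + 1) = θ (s, s') + π`; `Sup f θ s ψ`: the curve is above the line
through `f s` with inner normal `i e^{iψ}` and `ψ` is the lifted direction: `ψ ≤ θ (s, s') ≤ ψ + π`
(row), `ψ - π ≤ θ (s', s) ≤ ψ` (column).  `Stmt_SUPP`, `Stmt_MONO` are proved
(`Pool.MP_7ec17a_gt.D.stmt_SUPP`, `stmt_MONO`, files `Work/MP_7ec17a_gt_D/SUPP.lean`, `MONO.lean`);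
`crv_int`, `crv_ne`, `lift_shift`, `sup_shift`, `up_add_pi`, `up_sub`, `rt_sub`, `up_pol`, `rt_pol`,
`up_le_norm`, `trap_left`, `trap_right`, `assem` are in `MAIN.lean`, `QUAD.lean`, `TRAPG.lean`.
-/

set_option autoImplicit false

open Set

namespace Pool.MP_7ec17a_gt.D

/-- The reflected curve. -/
noncomputable def tf (f : ℝ → ℂ) : ℝ → ℂ := fun t => (starRingEnd ℂ) (f (-t))

/-- The lift of the reflected curve. -/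
noncomputable def tθ (θ : ℝ × ℝ → ℝ) : ℝ × ℝ → ℝ := fun z => Real.pi - θ (-z.2, -z.1)

/-- The directions of the diametral pairs (the width `D` is attained) contain `[ϑa, ϑb]`, and the
width is smaller than `D` in the gap `(ϑb, ϑa + π)`; `π / 2 ≤ ϑb - ϑa < π`. -/
structure Wide (f : ℝ → ℂ) (θ : ℝ × ℝ → ℝ) (D ϑa ϑb : ℝ) : Prop where
  crv : Crv f
  lift : Lift f θ
  pos : 0 < D
  diam : ∀ s t, ‖f t - f s‖ ≤ D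
  wide : Real.pi / 2 ≤ ϑb - ϑa
  gap : ϑb - ϑa < Real.pi
  plat : ∀ ψ, ϑa ≤ ψ → ψ ≤ ϑb → ∃ s t, up ψ (f t - f s) = D
  out : ∀ ψ, ϑb < ψ → ψ < ϑa + Real.pi → ∀ s t, up ψ (f t - f s) < D

/-- The configuration: all data of the box.  `n1, ..., n4` and their mirror images `n1', ..., n4'` are
the inequalities which come from strict inequalities and compactness. -/
structure Conf (f : ℝ → ℂ) (θ : ℝ × ℝ → ℝ)
    (ϑa ϑb θ1 θ2 k1 k2 l sm sa sb sp tp ta tb tm : ℝ) : Prop where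
  crv : Crv f
  lift : Lift f θ
  wide : Real.pi / 2 ≤ ϑb - ϑa
  hθ2 : θ2 < ϑa
  hθ1 : ϑb < θ1
  gap : θ1 < θ2 + Real.pi
  Sm : Sup f θ sm θ2
  Sa : Sup f θ sa ϑa
  Sb : Sup f θ sb ϑb
  Sp : Sup f θ sp θ1
  Tp : Sup f θ tp (θ2 + Real.pi)
  Ta : Sup f θ ta (ϑa + Real.pi)
  Tb : Sup f θ tb (ϑb + Real.pi)
  Tm : Sup f θ tm (θ1 + Real.pi)
  hullS : ∀ s, sa ≤ s → s ≤ sb → ∃ ψ, ϑa ≤ ψ ∧ ψ ≤ ϑb ∧ Sup f θ s ψ
  hullT : ∀ t, ta ≤ t → t ≤ tb → ∃ ψ, ϑa ≤ ψ ∧ ψ ≤ ϑb ∧ Sup f θ t (ψ + Real.pi)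
  o1 : sm ≤ sa
  o2 : sa < sb
  o3 : sb ≤ sp
  o4 : sp + l < tp - l
  o5 : tp ≤ ta
  o6 : ta < tb
  o7 : tb ≤ tm
  o8 : tm ≤ sm + 1
  hl : 0 < l
  ol : sp + l < sm - l + 1
  ol' : tm + l < tp - l + 1
  c1 : k2 < rt θ2 (f sm)
  c2 : rt θ2 (f tp) < k2
  c3 : rt θ1 (f sp) < k1
  c4 : k1 < rt θ1 (f tm)
  e1 : ∀ s, sp ≤ s → s ≤ sp + l → rt θ1 (f s) ≤ k1
  e2 : ∀ t, tp - l ≤ t → t ≤ tp → rt θ2 (f t) ≤ k2
  n1 : ∀ t, tb ≤ t → t ≤ tm → t < sm + 1 → θ2 + Real.pi / 2 ≤ θ (sm, t)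
  n1' : ∀ s, sm ≤ s → s ≤ sa → tm < s + 1 → θ (s, tm) ≤ θ1 + Real.pi / 2
  n2 : ∀ s t, sb ≤ s → s ≤ sp + l → tp - l ≤ t → t ≤ tm → θ1 ≤ θ (s, t)
  n2' : ∀ s t, sm ≤ s → s ≤ sp + l → tp - l ≤ t → t ≤ ta → θ (s, t) ≤ θ2 + Real.pi
  n3 : ∀ s t, sp ≤ s → s ≤ sp + l → tp - l ≤ t → t ≤ ta → θ (s, t) ≤ θ1 + Real.pi / 2
  n3' : ∀ s t, sb ≤ s → s ≤ sp + l → tp - l ≤ t → t ≤ tp → θ2 + Real.pi / 2 ≤ θ (s, t)
  n4 : sm < sa → ∀ s t, sm ≤ s → s ≤ sa → tp - l ≤ t → t ≤ tm → θ (s, t) ≤ θ2 + Real.pi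
  n4' : tb < tm → ∀ s t, sm ≤ s → s ≤ sp + l → tb ≤ t → t ≤ tm → θ1 ≤ θ (s, t)

/-- **TIL.** The reflection `z ↦ conj z` with the time reversed.  Facts: `up (-ψ) (conj z) = - up ψ z`,
`rt (-ψ) (conj z) = rt ψ z`; `tf f u' - tf f u = - conj (f (-u) - f (-u'))`, whose argument is
`π - θ (-u', -u)`; `Sup f θ s ψ` becomes `Sup (tf f) (tθ θ) (-s) (π - ψ)` (row and column are
exchanged; the turning rule of `θ` gives that of `tθ θ`).  The configuration goes to itself with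
`ϑa, ϑb, θ1, θ2, k1, k2, l, sm, sa, sb, sp, tp, ta, tb, tm` replaced by
`-ϑb, -ϑa, -θ2, -θ1, k2, k1, l, -tm, -tb, -ta, -tp, -sp, -sb, -sa, -sm`, and `ni` exchanged with
`ni'`. -/
def Stmt_TIL : Prop := ∀ (f : ℝ → ℂ) (θ : ℝ × ℝ → ℝ)
  (ϑa ϑb θ1 θ2 k1 k2 l sm sa sb sp tp ta tb tm : ℝ),
  Conf f θ ϑa ϑb θ1 θ2 k1 k2 l sm sa sb sp tp ta tb tm →
  Conf (tf f) (tθ θ) (-ϑb) (-ϑa) (-θ2) (-θ1) k2 k1 l (-tm) (-tb) (-ta) (-tp) (-sp) (-sb) (-sa) (-sm)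

/-- **PLAT.** The structure of the set of diametral directions if the narrow case does not apply.

Proof.  Take `ψ0 ∉ Θ`, `b = sInf (Θ ∩ [ψ0, ∞))`, `a = sSup (Θ ∩ (-∞, ψ0])`, both in `Θ`, so
`a < ψ0 < b`, `(a, b) ∩ Θ = ∅`, and `b ≤ a + π` (because `a + π ∈ Θ` is `≥ ψ0`).
(1) `[b, b + π/2] ⊆ Θ`: if `0 < x < π/2` and `b + x ∉ Θ`, use `h` with `ψ = b`, `α = x` and a small
`β < b - a`, `β ≤ π/2 - x`; the end point by closedness.  (2) `[a - π/2, a] ⊆ Θ` in the same way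
(`ψ = a`, `β = x`, `α` small).  (3) `b - a ≤ π/2`: otherwise `b + π/2 ∈ Θ` would be in
`(a + π, b + π)`, which does not meet `Θ`.  Take `ϑa = b`, `ϑb = a + π`:
`[b, a + π] ⊆ [b, b + π/2] ∪ [a + π/2, a + π]`. -/
def Stmt_PLAT : Prop := ∀ Θ : Set ℝ, IsClosed Θ → Θ.Nonempty → (∀ ψ, ψ ∈ Θ → ψ + Real.pi ∈ Θ) →
  (∀ ψ, ψ ∈ Θ → ψ - Real.pi ∈ Θ) → (∃ ψ, ψ ∉ Θ) →
  (∀ ψ α β, ψ ∈ Θ → 0 < α → 0 < β → α + β ≤ Real.pi / 2 → ψ + α ∉ Θ → ψ - β ∉ Θ → False) →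
  ∃ ϑa ϑb : ℝ, Real.pi / 2 ≤ ϑb - ϑa ∧ ϑb - ϑa < Real.pi ∧ (∀ ψ, ϑa ≤ ψ → ψ ≤ ϑb → ψ ∈ Θ) ∧
    ∀ ψ, ϑb < ψ → ψ < ϑa + Real.pi → ψ ∉ Θ

/-- **UNI.** In a direction in which the width is the diameter the support points are unique, and
every chord at such a point is strictly inside the two tangent directions.

Proof.  Let `up ψ (f t0 - f s0) = D`.  Then `‖f t0 - f s0‖ ≤ D` gives `rt ψ (f t0 - f s0) = 0`
(`up² + rt² = ‖·‖²`).  If `up ψ (f x - f s0) ≤ 0` then `up ψ (f t0 - f x) ≥ D`, so `= D` and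
`rt ψ (f t0 - f x) = 0`, so `f x = f s0`.  In particular `up ψ (f x - f s0) ≥ 0` for all `x`, and a
point `s` with `Sup f θ s ψ` has `f s = f s0` (take `x = s`: `up ψ (f s - f s0) ≤ 0` from
`above s0`).  (a) For `s < t < s + 1`: `f t ≠ f s`, so `up ψ (f t - f s) > 0`, i.e.
`sin (θ (s, t) - ψ) > 0`, and `θ (s, t) - ψ ∈ [0, π]` (row), so it is in `(0, π)`.
(b) The same with `ψ + π` and the column. -/
def Stmt_UNI : Prop := ∀ (f : ℝ → ℂ) (θ : ℝ × ℝ → ℝ) (D ϑa ϑb ψ : ℝ), Wide f θ D ϑa ϑb →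
  ϑa ≤ ψ → ψ ≤ ϑb →
  (∀ s, Sup f θ s ψ → (∀ x, up ψ (f x - f s) ≤ 0 → f x = f s) ∧
    ∀ t, s < t → t < s + 1 → ψ < θ (s, t) ∧ θ (s, t) < ψ + Real.pi) ∧
  (∀ t, Sup f θ t (ψ + Real.pi) → (∀ x, 0 ≤ up ψ (f x - f t) → f x = f t) ∧
    ∀ s, t - 1 < s → s < t → ψ < θ (s, t) ∧ θ (s, t) < ψ + Real.pi) ∧
  (∀ s t, Sup f θ s ψ → Sup f θ t (ψ + Real.pi) → up ψ (f t - f s) = D ∧ rt ψ (f t - f s) = 0)

/-- **SUPS.** For every direction of the plateau there are the two lifted support points; they are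
in the right order.

Proof.  `Wide.plat` and the remarks in UNI give `s0, t0` with `0 ≤ up ψ (f x - f s0)` and
`0 ≤ up ψ (f t0 - f x)`, i.e. `0 ≤ up (ψ + π) (f x - f t0)`; `stmt_SUPP` gives the lifts.  Order:
`stmt_MONO` (`ψ < ψ + π < ψ + 2π`, `sup_shift`) gives `s ≤ t ≤ s + 1`, and `f t ≠ f s`. -/
def Stmt_SUPS : Prop := ∀ (f : ℝ → ℂ) (θ : ℝ × ℝ → ℝ) (D ϑa ϑb ψ : ℝ), Wide f θ D ϑa ϑb →
  ϑa ≤ ψ → ψ ≤ ϑb → ∃ s t, Sup f θ s ψ ∧ Sup f θ t (ψ + Real.pi) ∧ s < t ∧ t < s + 1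

/-- **HULL.** The two arcs of the curve between the extreme diametral pairs consist of support
points.

Proof (first part).  `I = [ϑa, ϑb]` is connected.  The sets
`A = {ψ ∈ I | ∃ s' ∈ [sa, s], ∀ x, 0 ≤ up ψ (f x - f s')}` and
`B = {ψ ∈ I | ∃ s' ∈ [s, sb], ∀ x, 0 ≤ up ψ (f x - f s')}` are closed (projections of compact sets),
contain `ϑa` and `ϑb`, and cover `I`: for `ψ ∈ I` there is `s'` with `Sup f θ s' ψ` (SUPS), and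
`sa ≤ s' ≤ sb` by `stmt_MONO` if `ϑa < ψ < ϑb`; for `ψ = ϑa` take `sa`, for `ψ = ϑb` take `sb`.  So there
is `ψ ∈ A ∩ B`, with `s' ≤ s ≤ s''`; by UNI `f s' = f s''` (both minimise `up ψ`; the first part of
UNI applied to the `Sup` point of `ψ`), and `s'' - s' ≤ sb - sa < 1`, so `s' = s = s''` (injectivity).
Then `stmt_SUPP` gives `n` with `Sup f θ (s + n) ψ`, and `n = 0`: if `ϑa < ψ < ϑb` because
`sa ≤ s + n ≤ sb`; if `ψ = ϑa` then `f s = f sa` by UNI, so `s = sa` and `Sa` is what we want;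
similarly `ψ = ϑb`.  The hypothesis `sb < sa + 1` follows from `sb ≤ ta < ...`, it is given here.
Second part: the same with `ψ + π`. -/
def Stmt_HULL : Prop := ∀ (f : ℝ → ℂ) (θ : ℝ × ℝ → ℝ) (D ϑa ϑb sa sb ta tb : ℝ),
  Wide f θ D ϑa ϑb → Sup f θ sa ϑa → Sup f θ sb ϑb → Sup f θ ta (ϑa + Real.pi) →
  Sup f θ tb (ϑb + Real.pi) → sb < sa + 1 → tb < ta + 1 →
  (∀ s, sa ≤ s → s ≤ sb → ∃ ψ, ϑa ≤ ψ ∧ ψ ≤ ϑb ∧ Sup f θ s ψ) ∧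
  (∀ t, ta ≤ t → t ≤ tb → ∃ ψ, ϑa ≤ ψ ∧ ψ ≤ ϑb ∧ Sup f θ t (ψ + Real.pi))

/-- **STR.** Four strict inequalities at the corners.

Proof.  The weak inequalities: `θ (sa, tb) ≥ ϑb ≥ ϑa + π/2` (column of `tb`), `θ (sa, tb) ≤ ϑa + π ≤
ϑb + π/2` (row of `sa`), `θ (sb, ta) ≥ ϑb`, `θ (sb, ta) ≤ ϑa + π` in the same way.  In the case of
equality `θ (sa, tb) = ϑa + π/2 = ϑb` one has `f tb - f sa = λ e^{iϑb}`, `λ > 0`, and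
`f tb - f sb = D i e^{iϑb}` (UNI), so `‖f sb - f sa‖² = λ² + D² > D²`, a contradiction.  The other three
cases: `θ (sa, tb) = ϑa + π = ϑb + π/2`: `f tb - f sa = -λ e^{iϑa}` and `f ta - f sa = D i e^{iϑa}`, so
`‖f tb - f ta‖ > D`; `θ (sb, ta) = ϑb = ϑa + π/2`: `f ta - f sb = λ e^{iϑb}`,
`f tb - f sb = D i e^{iϑb}`; `θ (sb, ta) = ϑa + π = ϑb + π/2`: `f ta - f sb = -λ e^{iϑa}`,
`f ta - f sa = D i e^{iϑa}`. Last: `sa < sb` and `ta < tb`: by `stmt_MONO` `sa ≤ sb`; if `sa = sb` then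
`f tb - f ta = D i (e^{iϑb} - e^{iϑa})` has norm `2 D sin ((ϑb - ϑa) / 2) > D`. -/
def Stmt_STR : Prop := ∀ (f : ℝ → ℂ) (θ : ℝ × ℝ → ℝ) (D ϑa ϑb sa sb ta tb : ℝ),
  Wide f θ D ϑa ϑb → Sup f θ sa ϑa → Sup f θ sb ϑb → Sup f θ ta (ϑa + Real.pi) →
  Sup f θ tb (ϑb + Real.pi) →
  (sa < tb → tb < sa + 1 → ϑa + Real.pi / 2 < θ (sa, tb) ∧ θ (sa, tb) < ϑb + Real.pi / 2) ∧
  (sb < ta → ta < sb + 1 → ϑa + Real.pi / 2 < θ (sb, ta) ∧ θ (sb, ta) < ϑb + Real.pi / 2) ∧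
  sa < sb ∧ ta < tb

/-- **TUBE.** Compactness in the strip: a strict inequality on a compact box holds, uniformly, on a
neighbourhood of it. -/
def Stmt_TUBE : Prop := ∀ (g : ℝ × ℝ → ℝ) (x0 x1 y0 y1 : ℝ), ContinuousOn g Strip → x0 ≤ x1 →
  y0 ≤ y1 → (∀ s t, x0 ≤ s → s ≤ x1 → y0 ≤ t → t ≤ y1 → (s, t) ∈ Strip ∧ 0 < g (s, t)) →
  ∃ κ c : ℝ, 0 < κ ∧ 0 < c ∧ ∀ s t, x0 - κ ≤ s → s ≤ x1 + κ → y0 - κ ≤ t → t ≤ y1 + κ →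
    (s, t) ∈ Strip ∧ c ≤ g (s, t)

/-- **CLOSE.** Support points of nearby directions are near.

Proof.  The set `{(s, φ) | ∃ x, up φ (f x - f s) < 0}` is open in the plane (a union of open sets) and
contains `J' × {ϑ}`, `J' = [c, c'] \ (s0 - κ, s0 + κ)` compact; tube lemma
(`generalized_tube_lemma`). -/
def Stmt_CLOSE : Prop := ∀ (f : ℝ → ℂ) (c c' s0 ϑ κ : ℝ), Continuous f → 0 < κ →
  (∀ s, c ≤ s → s ≤ c' → s ≠ s0 → ∃ x, up ϑ (f x - f s) < 0) →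
  ∃ ε : ℝ, 0 < ε ∧ ∀ φ, |φ - ϑ| < ε → ∀ s, c ≤ s → s ≤ c' → (∀ x, 0 ≤ up φ (f x - f s)) →
    |s - s0| < κ

/-- **NARR.** The narrow case (rotate `LargeRatios` back to an arbitrary direction).

Proof.  Let `g t = e^{-iψ} f t`, `θg = θ - ψ`: `Crv g`, `Lift g θg`, `up φ (g t - g s) =
up (φ + ψ) (f t - f s)`, `rt` similarly.  `up 0 (g t0 - g s0) = D` and `‖·‖ ≤ D` give
`(g t0 - g s0).re = 0 = -(D sin 0)`, `.im = D cos 0`.  `trap_left` (with `θe = α`) and `trap_right`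
(with `θe = -β`), then `assem stmt_SUPP stmt_MONO` exactly as at the end of `large_general`; multiply
the result by `e^{iψ}`. -/
def Stmt_NARR : Prop := ∀ (f : ℝ → ℂ) (θ : ℝ × ℝ → ℝ) (D ψ α β s0 t0 : ℝ), Crv f → Lift f θ →
  0 < D → (∀ s t, ‖f t - f s‖ ≤ D) → up ψ (f t0 - f s0) = D → 0 < α → 0 < β →
  α + β ≤ Real.pi / 2 → (∀ s t, up (ψ + α) (f t - f s) < D) →
  (∀ s t, up (ψ - β) (f t - f s) < D) →
  ∃ R : ℝ, 0 < R ∧ ∀ r : ℝ, R ≤ r → ∃ (s s' t t' : ℝ) (v : ℂ), v ≠ 0 ∧ f s' = f s + v ∧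
    f t' = f s + Complex.I * (r : ℂ) * v ∧ f t = f s + v + Complex.I * (r : ℂ) * v

/-- **QUADW.** The quadrilateral of chords (helper77 writes it). -/
def Stmt_QUADW : Prop := ∀ (h : ℝ → ℂ) (θ : ℝ × ℝ → ℝ) (sm sa sb sp θ1 θ2 k1 k2 l : ℝ),
  Continuous h → ContinuousOn θ Strip →
  (∀ z ∈ Strip, Pool.MP_7ec17a_gt.M.Pol (h z.2 - h z.1) (θ z)) →
  (∀ z ∈ Strip, h z.2 ≠ h z.1) → sm ≤ sa → sa < sb → sb ≤ sp → 0 < l →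
  sp + l < sm - l + 1 →
  (∀ s' : ℝ, sm < s' → s' < sm + 1 → θ2 ≤ θ (sm, s') ∧ θ (sm, s') ≤ θ2 + Real.pi) →
  (∀ s' : ℝ, sm - 1 < s' → s' < sm → θ2 - Real.pi ≤ θ (s', sm) ∧ θ (s', sm) ≤ θ2) →
  (∀ s' : ℝ, sp < s' → s' < sp + 1 → θ1 ≤ θ (sp, s') ∧ θ (sp, s') ≤ θ1 + Real.pi) →
  (∀ s' : ℝ, sp - 1 < s' → s' < sp → θ1 - Real.pi ≤ θ (s', sp) ∧ θ (s', sp) ≤ θ1) →
  k2 < rt θ2 (h sm) → k2 < rt θ2 (h sa) → rt θ1 (h sp) < k1 → rt θ1 (h sb) < k1 →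
  ∃ ρ0 : ℝ, 0 < ρ0 ∧ ∀ δ : ℝ, 0 < δ → ∃ q1 q2 : ℝ × ℝ → ℝ, Continuous q1 ∧ Continuous q2 ∧
    (∀ x ∈ Icc (0 : ℝ) 1, ∀ y ∈ Icc (0 : ℝ) 1, sm - l ≤ q1 (x, y) ∧ q1 (x, y) < q2 (x, y) ∧
      sm ≤ q2 (x, y) ∧ q2 (x, y) ≤ sp + l ∧ (q2 (x, y) ≤ sa → k2 ≤ rt θ2 (h (q2 (x, y)))) ∧
      (sb ≤ q2 (x, y) → rt θ1 (h (q2 (x, y))) ≤ k1)) ∧
    (∀ y ∈ Icc (0 : ℝ) 1, (q2 (0, y) = sm ∧ θ (q1 (0, y), q2 (0, y)) ≤ θ2) ∨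
      (sb ≤ q2 (0, y) ∧ θ (q1 (0, y), q2 (0, y)) ≤ θ1 - Real.pi / 2)) ∧
    (∀ y ∈ Icc (0 : ℝ) 1, (sp ≤ q2 (1, y) ∧ θ1 ≤ θ (q1 (1, y), q2 (1, y))) ∨
      (sm < sa ∧ q2 (1, y) ≤ sa ∧ θ2 + Real.pi / 2 ≤ θ (q1 (1, y), q2 (1, y)))) ∧
    (∀ x ∈ Icc (0 : ℝ) 1, ‖h (q2 (x, 0)) - h (q1 (x, 0))‖ ≤ δ) ∧
    (∀ x ∈ Icc (0 : ℝ) 1, ρ0 ≤ ‖h (q2 (x, 1)) - h (q1 (x, 1))‖)

end Pool.MP_7ec17a_gt.D
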