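import Mathlib

/-!
# MP_7ec17a_gt, Theorem E, part B: curves of constant width (interface)

Everything is for sets in the plane `ℂ`.  `(z * e).re`, for `‖e‖ = 1`, is a coordinate of `z`;
multiplication by `e` is a rotation, which preserves the area `volume`.
-/

set_option autoImplicit false

open Set MeasureTheory

namespace Pool.MP_7ec17a_gt.B

/-- The area of the part of `K` in a half plane. -/
noncomputable def ar (K : Set ℂ) (e : ℂ) (u : ℝ) : ℝ :=
  (volume (K ∩ {z : ℂ | (z * e).re ≤ u})).toReal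

/-- The area of the part of `K` in a strip, minus `r / 2` times the square of its breadth. -/
noncomputable def J (K : Set ℂ) (r : ℝ) (e : ℂ) (x y : ℝ) : ℝ :=
  ar K e y - ar K e x - r / 2 * (y - x) ^ 2

/-- **STRI.** A compact set `X` of constant width, equal to its diameter `D`: its convex hull `K` is
strictly convex and the boundary of `K` is contained in `X`.

Proof.  `K = convexHull ℝ X` is compact (`IsCompact.convexHull`) and its diameter is at most `D`
(`convexHull_diam` or: for `w` fixed the closed ball around `w` is convex, twice).  Let `‖e‖ = 1` and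
`m = max ((z * e).re)` over `K`; it is attained at some `w ∈ X`, and by the hypothesis there are
`z0, w0 ∈ X` with `((w0 - z0) * e).re = D`.
(1) If `w' ∈ K` has `(w' * e).re = m` then `((w' - z0) * e).re ≥ D` (because `w0 ∈ K`), and
`‖w' - z0‖ ≤ D`, so `(w' - z0) * e = D` (real part `D`, norm `≤ D`); hence `w' = z0 + D / e` is unique,
and in particular equal to `w0`, a point of `X`.
(2) A point `p` of `frontier K` has a supporting functional (`K` closed convex, `p ∉ interior K`;
e.g. `geometric_hahn_banach_open_point` for `interior K` if it is nonempty, and closure of the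
interior), i.e. some `e` with `‖e‖ = 1` and `(z * e).re ≤ (p * e).re` for `z ∈ K` (a real linear
functional on `ℂ` is `z ↦ (z * c).re`).  By (1) `p ∈ X`.
(3) Strict convexity: if `z ≠ z'` in `K` and `p = a z + b z'` (`a, b > 0`, `a + b = 1`) is not in the
interior, then it is in `frontier K`, has a supporting `e`, and `(z * e).re = (z' * e).re = max`, so
`z = z'` by (1).
(4) Nonempty interior: if it is empty, `K` is contained in a line (`interior_convexHull_nonempty_iff_affineSpan_eq_top`, or `Convex.interior_nonempty_iff_affineSpan_eq_top`), so the width in the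
direction orthogonal to the line is `0 < D`; contradiction with the hypothesis. -/
def Stmt_STRI : Prop := ∀ (X : Set ℂ) (D : ℝ), IsCompact X → 0 < D →
  (∀ z ∈ X, ∀ w ∈ X, ‖w - z‖ ≤ D) →
  (∀ e : ℂ, ‖e‖ = 1 → ∃ z ∈ X, ∃ w ∈ X, ((w - z) * e).re = D) →
  IsCompact (convexHull ℝ X) ∧ StrictConvex ℝ (convexHull ℝ X) ∧
    (interior (convexHull ℝ X)).Nonempty ∧ frontier (convexHull ℝ X) ⊆ X

/-- **SLICE.** The first variation of the area under a half plane.

Proof.  Transport to `ℝ × ℝ` (`Complex.volume_preserving_equiv_real_prod`, coordinates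
`x = re`, `y = im`) and use Fubini: the area is `∫ y, ℓ_y (c + ε (α + β y))` with
`ℓ_y u = λ {x | x + i y ∈ K, x ≤ u}` (`λ` Lebesgue).  For fixed `y` the set `K_y = {x | x + i y ∈ K}`
is a compact convex subset of `ℝ`, so empty or `[p, q]`, and `ℓ_y` is `1`-Lipschitz; its derivative
at `c` is `1` if `c ∈ (p, q)` and `0` if `c ∉ [p, q]`.  Let `S = {y | c + i y ∈ K}`, a compact
interval `[a, b]` or empty.  If `a < y < b` then `c + i y ∈ interior K` (strict convexity), so `c` is
in the interior of `K_y`; if `y ∉ S` then `c ∉ K_y` (and `K_y` is closed); the two values `y = a, b`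
do not matter.  So for almost all `y` the function `ε ↦ ℓ_y (c + ε (α + β y))` has at `0` the
derivative `(α + β y) 1_S (y)`, and it is Lipschitz with constant `|α| + |β| |y|`, and `0` unless
`|y| ≤ M`.  Conclude with `hasDerivAt_integral_of_dominated_loc_of_lip`. -/
def Stmt_SLICE : Prop := ∀ (K : Set ℂ) (c α β : ℝ), IsCompact K → StrictConvex ℝ K →
  HasDerivAt (fun ε : ℝ => (volume (K ∩ {z : ℂ | z.re ≤ c + ε * (α + β * z.im)})).toReal)
    (∫ y in {y : ℝ | (⟨c, y⟩ : ℂ) ∈ K}, (α + β * y)) 0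

/-- **CONT.** The area is continuous in the half plane.

Proof: `ar K e u = ∫ z in K, indicator of {(z * e).re ≤ u}`; at `(e0, u0)` use
`continuousAt_of_dominated` / `tendsto_integral_of_dominated_convergence` with bound `1` (`K` has
finite measure): for `z` with `(z * e0).re ≠ u0` the indicator is locally constant in `(e, u)`, and
the line `{z | (z * e0).re = u0}` has measure zero (`e0 ≠ 0`; e.g. `Measure.addHaar_affineSubspace`,
or the rotation by `e0` and `Complex.volume_preserving_equiv_real_prod`). -/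
def Stmt_CONT : Prop := ∀ (K : Set ℂ), IsCompact K →
  ContinuousOn (fun p : ℂ × ℝ => ar K p.1 p.2) ({e : ℂ | ‖e‖ = 1} ×ˢ (univ : Set ℝ))

/-- **MAXI.** There is an optimal strip, and its value is positive.

Proof.  Let `K` be contained in the ball of radius `M > 0` around `0`.  For `‖e‖ = 1` the function
`ar K e` is constant on `[M, ∞)`, and `0` on `(-∞, -M)`; at `-M` it is `0` too, by CONT (or because a
line has measure zero).  So with the clamp `c u = max (-M) (min M u)` (which is `1`-Lipschitz)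
`J K r e x y ≤ J K r e (c x) (c y)`.  The continuous function `J K r` has a maximum on the compact set
`{‖e‖ = 1} × [-M, M] × [-M, M]`, and it is the maximum over everything.  It is positive: `K` contains a
closed ball, so a square `[p - ρ, p + ρ] × [q - ρ, q + ρ]`, `ρ > 0`; for `e = 1`, `x = p`,
`y = p + δ` with `0 < δ ≤ ρ` one has `J ≥ 2 ρ δ - r δ² / 2 > 0` if `r δ < 2 ρ`. -/
def Stmt_MAXI : Prop := ∀ (K : Set ℂ) (r : ℝ), IsCompact K → (interior K).Nonempty → 0 < r →
  ∃ (e0 : ℂ) (x0 y0 : ℝ), ‖e0‖ = 1 ∧ 0 < J K r e0 x0 y0 ∧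
    ∀ (e : ℂ) (x y : ℝ), ‖e‖ = 1 → J K r e x y ≤ J K r e0 x0 y0

/-- **FIN.** A rectangle from the optimal strip.

Proof.  Let `K' = (fun z => z * e0) '' K` (compact, strictly convex: linear isometry), so that
`ar K' e u = ar K (e0 * e) u` (rotations preserve `volume`) and the strip `(1, x0, y0)` is optimal for
`K'`.  For real `α1, α2, β` put `N ε = √(1 + ε² β²)` and `e ε = (1 + i ε β) / N ε`, a unit vector with
`(z * e ε).re = (x - ε β y) / N ε`; so `(z * e ε).re ≤ (c + ε α) / N ε` iff `x ≤ c + ε (α + β y)`.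
Hence `j ε = h2 ε - h1 ε - r / 2 * (y0 - x0 + ε (α2 - α1))² / (1 + ε² β²)`, where `h1`, `h2` are the
areas of `K' ∩ {x ≤ x0 + ε (α1 + β y)}` and of `K' ∩ {x ≤ y0 + ε (α2 + β y)}`, has a maximum at `0`, and
by SLICE its derivative `S2 - S1 - r (y0 - x0) (α2 - α1)` is `0`, where
`S1 = ∫ y in {x0 + i y ∈ K'}, (α1 + β y)`, `S2` similarly.  The two slices are empty or intervals
`[a1, b1]`, `[a2, b2]`.  `(α1, α2, β) = (0, 1, 0), (1, 0, 0), (0, 0, 1)` give `b1 - a1 = b2 - a2 =
r (y0 - x0)` and `b1² - a1² = b2² - a2²`; here `y0 > x0` because `J > 0` (if `y0 = x0` then `J = 0`, and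
the lengths are `≥ 0`).  So `a1 = a2`, `b1 = b2 = a1 + r (y0 - x0)`.  The four points
`x0 + i a1, y0 + i a2, y0 + i b2, x0 + i b1` are in `frontier K'` (ends of vertical slices), so
`v = (y0 - x0) / e0` etc. after the rotation back. -/
def Stmt_FIN : Prop := ∀ (K : Set ℂ) (r : ℝ) (e0 : ℂ) (x0 y0 : ℝ), IsCompact K →
  StrictConvex ℝ K → 0 < r → ‖e0‖ = 1 → 0 < J K r e0 x0 y0 →
  (∀ (e : ℂ) (x y : ℝ), ‖e‖ = 1 → J K r e x y ≤ J K r e0 x0 y0) →
  ∃ a v : ℂ, v ≠ 0 ∧ a ∈ frontier K ∧ a + v ∈ frontier K ∧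
    a + v + Complex.I * (r : ℂ) * v ∈ frontier K ∧ a + Complex.I * (r : ℂ) * v ∈ frontier K

/-- Part B. -/
theorem partB (hSTRI : Stmt_STRI) (hMAXI : Stmt_MAXI) (hFIN : Stmt_FIN) (X : Set ℂ) (D : ℝ)
    (hX : IsCompact X) (hD : 0 < D) (hdiam : ∀ z ∈ X, ∀ w ∈ X, ‖w - z‖ ≤ D)
    (hw : ∀ e : ℂ, ‖e‖ = 1 → ∃ z ∈ X, ∃ w ∈ X, ((w - z) * e).re = D) (r : ℝ) (hr : 0 < r) :
    ∃ a v : ℂ, v ≠ 0 ∧ a ∈ X ∧ a + v ∈ X ∧
      a + v + Complex.I * (r : ℂ) * v ∈ X ∧ a + Complex.I * (r : ℂ) * v ∈ X := by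
  obtain ⟨h1, h2, h3, h4⟩ := hSTRI X D hX hD hdiam hw
  obtain ⟨e0, x0, y0, a1, a2, a3⟩ := hMAXI _ r h1 h3 hr
  obtain ⟨a, v, hv, b1, b2, b3, b4⟩ := hFIN _ r e0 x0 y0 h1 h2 hr a1 a2 a3
  exact ⟨a, v, hv, h4 b1, h4 b2, h4 b3, h4 b4⟩

end Pool.MP_7ec17a_gt.B
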