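import Pool.Agent.Work.MP_7ec17a_gt_W.Interface

/-!
# The quadrilateral of chords, plateau case
-/

set_option autoImplicit false

open Set

namespace Pool.MP_7ec17a_gt.D

open Pool.MP_7ec17a_gt.T Pool.MP_7ec17a_gt.M

/-- Chords between two moving parameters. -/
lemma quadw_build {h : ℝ → ℂ} {A0 A1 : ℝ} (hc : Continuous h)
    (hne : ∀ z ∈ Strip, h z.2 ≠ h z.1) (hlen : A1 < A0 + 1)
    (S0 S1 S0' S1' τ0 : ℝ) (b0 : A0 ≤ S0) (b1 : S1' ≤ A1) (hτ0 : 0 < τ0)
    {G : ℝ → Prop} (hΛ' : ∀ s, S0' ≤ s → s ≤ S1' → G s)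
    {F0 F1 : ℝ → ℝ → Prop}
    (n : ℝ → ℝ → ℝ) (m1 m2 : ℝ → ℝ) (hm1 : Continuous m1) (hm2 : Continuous m2)
    (hnc : ∀ τ, Continuous (n τ))
    (hn : ∀ τ, 0 < τ → τ ≤ τ0 → ∀ x ∈ Icc (0 : ℝ) 1, S0 ≤ n τ x ∧ n τ x ≤ S1 ∧
      S0' ≤ n τ x + τ ∧ n τ x + τ ≤ S1')
    (hm : ∀ x ∈ Icc (0 : ℝ) 1, S0 ≤ m1 x ∧ m1 x ≤ S1 ∧ S0' ≤ m2 x ∧ m2 x ≤ S1' ∧ m1 x < m2 x)
    (h0 : ∀ τ, 0 < τ → τ ≤ τ0 → ∀ y ∈ Icc (0 : ℝ) 1,
      F0 ((1 - y) * n τ 0 + y * m1 0) ((1 - y) * (n τ 0 + τ) + y * m2 0))
    (h1 : ∀ τ, 0 < τ → τ ≤ τ0 → ∀ y ∈ Icc (0 : ℝ) 1,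
      F1 ((1 - y) * n τ 1 + y * m1 1) ((1 - y) * (n τ 1 + τ) + y * m2 1)) :
    ∃ ρ0 : ℝ, 0 < ρ0 ∧ ∀ δ : ℝ, 0 < δ → ∃ q1 q2 : ℝ × ℝ → ℝ, Continuous q1 ∧ Continuous q2 ∧
    (∀ x ∈ Icc (0 : ℝ) 1, ∀ y ∈ Icc (0 : ℝ) 1, A0 ≤ q1 (x, y) ∧ q1 (x, y) < q2 (x, y) ∧
      S0' ≤ q2 (x, y) ∧ q2 (x, y) ≤ A1 ∧ G (q2 (x, y))) ∧
    (∀ y ∈ Icc (0 : ℝ) 1, F0 (q1 (0, y)) (q2 (0, y))) ∧
    (∀ y ∈ Icc (0 : ℝ) 1, F1 (q1 (1, y)) (q2 (1, y))) ∧
    (∀ x ∈ Icc (0 : ℝ) 1, ‖h (q2 (x, 0)) - h (q1 (x, 0))‖ ≤ δ) ∧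
    (∀ x ∈ Icc (0 : ℝ) 1, ρ0 ≤ ‖h (q2 (x, 1)) - h (q1 (x, 1))‖) := by
  have i0 : (0 : ℝ) ∈ Icc (0 : ℝ) 1 := ⟨le_rfl, zero_le_one⟩
  -- the far side
  obtain ⟨x0, hx0, hmin⟩ := isCompact_Icc.exists_isMinOn (s := Icc (0 : ℝ) 1)
    (f := fun x => ‖h (m2 x) - h (m1 x)‖) ⟨0, i0⟩ (by fun_prop)
  have hx0' := hm x0 hx0
  have hpos : 0 < ‖h (m2 x0) - h (m1 x0)‖ := by
    rw [norm_pos_iff, sub_ne_zero]
    exact hne (m1 x0, m2 x0) ⟨hx0'.2.2.2.2, by
      show m2 x0 < m1 x0 + 1
      linarith [hx0'.1, hx0'.2.2.2.1]⟩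
  refine ⟨‖h (m2 x0) - h (m1 x0)‖, hpos, fun δ hδ => ?_⟩
  -- the near side
  have huc : UniformContinuousOn h (Icc A0 A1) :=
    isCompact_Icc.uniformContinuousOn_of_continuous hc.continuousOn
  obtain ⟨ε, hε, hu⟩ := Metric.uniformContinuousOn_iff.1 huc δ hδ
  set τ := min τ0 (ε / 2) with hτ
  have hτp : 0 < τ := lt_min hτ0 (by linarith)
  have hτl : τ ≤ τ0 := min_le_left _ _
  have hτε : τ < ε := lt_of_le_of_lt (min_le_right _ _) (by linarith)
  have hnc' := hnc τ
  have hdom : ∀ x ∈ Icc (0 : ℝ) 1, ∀ y ∈ Icc (0 : ℝ) 1,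
      (S0 ≤ (1 - y) * n τ x + y * m1 x ∧ (1 - y) * n τ x + y * m1 x ≤ S1) ∧
      (S0' ≤ (1 - y) * (n τ x + τ) + y * m2 x ∧ (1 - y) * (n τ x + τ) + y * m2 x ≤ S1') ∧
      (1 - y) * n τ x + y * m1 x < (1 - y) * (n τ x + τ) + y * m2 x := by
    intro x hx y hy
    obtain ⟨a1, a2, a3, a4⟩ := hn τ hτp hτl x hx
    obtain ⟨c1, c2, c3, c4, c5⟩ := hm x hx
    have hy1 : 0 ≤ 1 - y := by linarith [hy.2]
    refine ⟨⟨?_, ?_⟩, ⟨?_, ?_⟩, ?_⟩
    · nlinarith [mul_le_mul_of_nonneg_left a1 hy1, mul_le_mul_of_nonneg_left c1 hy.1]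
    · nlinarith [mul_le_mul_of_nonneg_left a2 hy1, mul_le_mul_of_nonneg_left c2 hy.1]
    · nlinarith [mul_le_mul_of_nonneg_left a3 hy1, mul_le_mul_of_nonneg_left c3 hy.1]
    · nlinarith [mul_le_mul_of_nonneg_left a4 hy1, mul_le_mul_of_nonneg_left c4 hy.1]
    · rcases lt_or_eq_of_le hy.1 with h2 | h2
      · have k1 := mul_lt_mul_of_pos_left c5 h2
        have k2 := mul_nonneg hy1 hτp.le
        nlinarith
      · rw [← h2]
        linarith
  refine ⟨fun z => (1 - z.2) * n τ z.1 + z.2 * m1 z.1,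
    fun z => (1 - z.2) * (n τ z.1 + τ) + z.2 * m2 z.1, by fun_prop, by fun_prop, ?_, ?_, ?_, ?_, ?_⟩
  · intro x hx y hy
    obtain ⟨d1, d2, d3⟩ := hdom x hx y hy
    exact ⟨b0.trans d1.1, d3, d2.1, d2.2.trans b1, hΛ' _ d2.1 d2.2⟩
  · intro y hy
    exact h0 τ hτp hτl y hy
  · intro y hy
    exact h1 τ hτp hτl y hy
  · intro x hx
    obtain ⟨d1, d2, d3⟩ := hdom x hx 0 i0
    simp only [sub_zero, one_mul, zero_mul, add_zero] at d1 d2 d3 ⊢
    have hd : dist (h (n τ x + τ)) (h (n τ x)) < δ := by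
      refine hu _ ⟨?_, d2.2.trans b1⟩ _ ⟨b0.trans d1.1, ?_⟩ ?_
      · linarith [b0.trans d1.1]
      · linarith [d2.2.trans b1]
      · rw [Real.dist_eq]
        have : n τ x + τ - n τ x = τ := by ring
        rw [this, abs_of_pos hτp]
        exact hτε
    rw [dist_eq_norm] at hd
    exact hd.le
  · intro x hx
    simp only [sub_self, zero_mul, one_mul, zero_add]
    exact hmin hx

theorem stmt_QUADW : Stmt_QUADW := by
  intro h θ sm sa sb sp θ1 θ2 k1 k2 l hc hθc hP hne hs1 hs2 hs3 hl hlen Rm Cm Rp Cp r2 r2' r1 r1'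
  have hpi := Real.pi_pos
  have hrc1 : Continuous (fun s => rt θ1 (h s)) := (continuous_rt θ1).comp hc
  have hrc2 : Continuous (fun s => rt θ2 (h s)) := (continuous_rt θ2).comp hc
  -- a smaller extension
  obtain ⟨l', hl', hl'l, hin2, hin1⟩ : ∃ l' : ℝ, 0 < l' ∧ l' ≤ l ∧
      (∀ s, |s - sm| ≤ l' → k2 < rt θ2 (h s)) ∧ (∀ s, |s - sp| ≤ l' → rt θ1 (h s) < k1) := by
    have ho2 : IsOpen {s : ℝ | k2 < rt θ2 (h s)} := isOpen_lt continuous_const hrc2
    have ho1 : IsOpen {s : ℝ | rt θ1 (h s) < k1} := isOpen_lt hrc1 continuous_const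
    obtain ⟨ε2, hε2, hb2⟩ := Metric.isOpen_iff.1 ho2 sm r2
    obtain ⟨ε1, hε1, hb1⟩ := Metric.isOpen_iff.1 ho1 sp r1
    refine ⟨min l (min (ε2 / 2) (ε1 / 2)), lt_min hl (lt_min (by linarith) (by linarith)),
      min_le_left _ _, fun s hs => ?_, fun s hs => ?_⟩
    · apply hb2
      rw [Metric.mem_ball, Real.dist_eq]
      have : min l (min (ε2 / 2) (ε1 / 2)) ≤ ε2 / 2 := (min_le_right _ _).trans (min_le_left _ _)
      linarith
    · apply hb1
      rw [Metric.mem_ball, Real.dist_eq]
      have : min l (min (ε2 / 2) (ε1 / 2)) ≤ ε1 / 2 := (min_le_right _ _).trans (min_le_right _ _)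
      linarith
  have hleft : ∀ s, sm - l' ≤ s → s ≤ sm → k2 < rt θ2 (h s) :=
    fun s a b => hin2 s (abs_le.2 ⟨by linarith, by linarith⟩)
  have hright : ∀ s, sp ≤ s → s ≤ sp + l' → rt θ1 (h s) < k1 :=
    fun s a b => hin1 s (abs_le.2 ⟨by linarith, by linarith⟩)
  have hstrip : ∀ s s' : ℝ, sm - l ≤ s → s < s' → s' ≤ sp + l → (s, s') ∈ Strip :=
    fun s s' a b c => ⟨b, by show s' < s + 1; linarith⟩
  -- the bad parameters on the left
  set B2 : Set ℝ := Icc sm sa ∩ {s | ¬ (k2 < rt θ2 (h s))} with hB2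
  have hB2c : IsCompact B2 := by
    apply isCompact_Icc.inter_right
    exact (isOpen_lt continuous_const hrc2).isClosed_compl
  set B1 : Set ℝ := Icc sb sp ∩ {s | ¬ (rt θ1 (h s) < k1)} with hB1
  have hB1c : IsCompact B1 := by
    apply isCompact_Icc.inter_right
    exact (isOpen_lt hrc1 continuous_const).isClosed_compl
  rcases B2.eq_empty_or_nonempty with hB2e | hB2ne
  · have hg2 : ∀ s, sm ≤ s → s ≤ sa → k2 ≤ rt θ2 (h s) := by
      intro s a b
      by_contra hcon
      push Not at hcon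
      have : s ∈ B2 := ⟨⟨a, b⟩, fun h' => by linarith⟩
      rw [hB2e] at this
      exact this
    rcases B1.eq_empty_or_nonempty with hB1e | hB1ne
    · -- case (i)
      have hg1 : ∀ s, sb ≤ s → s ≤ sp + l' → rt θ1 (h s) ≤ k1 := by
        intro s a b
        rcases le_total s sp with h1 | h1
        · by_contra hcon
          push Not at hcon
          have : s ∈ B1 := ⟨⟨a, h1⟩, fun h' => by linarith⟩
          rw [hB1e] at this
          exact this
        · exact (hright s h1 b).le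
      obtain ⟨ρ0, hρ0, H⟩ := quadw_build (G := fun s => (s ≤ sa → k2 ≤ rt θ2 (h s)) ∧
          (sb ≤ s → rt θ1 (h s) ≤ k1))
        (F0 := fun s s' => s' = sm ∧ θ (s, s') ≤ θ2) (F1 := fun s s' => sp ≤ s' ∧ θ1 ≤ θ (s, s'))
        (A0 := sm - l) (A1 := sp + l)
        hc hne (by linarith) (sm - l') sp sm (sp + l') l' (by linarith) (by linarith) hl'
        (fun s a b => ⟨fun h' => hg2 s a h', fun h' => hg1 s h' b⟩)
        (fun τ x => sm - τ + x * (sp - sm + τ)) (fun x => sm - l' + cl (2 * x - 1) * (sp - sm + l'))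
        (fun x => sm + cl (2 * x) * (sp - sm + l'))
        (by have := continuous_cl; fun_prop) (by have := continuous_cl; fun_prop)
        (fun τ => by fun_prop) (by
          intro τ hτ hτ' x hx
          have e1 := mul_nonneg hx.1 (by linarith : (0 : ℝ) ≤ sp - sm + τ)
          have e2 := mul_le_mul_of_nonneg_right hx.2 (by linarith : (0 : ℝ) ≤ sp - sm + τ)
          refine ⟨?_, ?_, ?_, ?_⟩ <;> linarith) (by
          intro x hx
          have c1 := cl_mem (2 * x - 1)
          have c2 := cl_mem (2 * x)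
          have hnn : (0 : ℝ) ≤ sp - sm + l' := by linarith
          have e1 := mul_nonneg c1.1 hnn
          have e2 := mul_le_mul_of_nonneg_right c1.2 hnn
          have e3 := mul_nonneg c2.1 hnn
          have e4 := mul_le_mul_of_nonneg_right c2.2 hnn
          refine ⟨by linarith, by linarith, by linarith, by linarith, ?_⟩
          rcases le_total (2 * x) 1 with h1 | h1
          · rw [cl_neg (show 2 * x - 1 ≤ 0 by linarith)]
            linarith
          · rw [cl_big h1]
            linarith) (by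
          intro τ hτ hτ' y hy
          simp only [mul_zero, zero_mul, add_zero, zero_sub]
          rw [cl_neg (show (-1 : ℝ) ≤ 0 by norm_num), cl_neg (le_refl (0 : ℝ))]
          have e1 : (1 - y) * (sm - τ) + y * (sm - l' + 0 * (sp - sm + l')) =
              sm - ((1 - y) * τ + y * l') := by ring
          have e2 : (1 - y) * (sm - τ + τ) + y * (sm + 0 * (sp - sm + l')) = sm := by ring
          rw [e1, e2]
          have hpos : 0 < (1 - y) * τ + y * l' := by
            rcases lt_or_eq_of_le hy.1 with h2 | h2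
            · have := mul_pos h2 hl'
              have := mul_nonneg (by linarith [hy.2] : (0 : ℝ) ≤ 1 - y) hτ.le
              linarith
            · rw [← h2]; linarith
          have hle : (1 - y) * τ + y * l' ≤ l' := by
            have := mul_le_mul_of_nonneg_left hτ' (by linarith [hy.2] : (0 : ℝ) ≤ 1 - y)
            linarith
          exact ⟨rfl, (Cm _ (by linarith) (by linarith)).2⟩) (by
          intro τ hτ hτ' y hy
          simp only [mul_one, one_mul]
          rw [show (2 : ℝ) - 1 = 1 by norm_num, cl_big (le_refl (1 : ℝ)),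
            cl_big (show (1 : ℝ) ≤ 2 by norm_num)]
          have e1 : (1 - y) * (sm - τ + (sp - sm + τ)) + y * (sm - l' + 1 * (sp - sm + l')) =
              sp := by ring
          have e2 : (1 - y) * (sm - τ + (sp - sm + τ) + τ) + y * (sm + 1 * (sp - sm + l')) =
              sp + ((1 - y) * τ + y * l') := by ring
          rw [e1, e2]
          have hpos : 0 < (1 - y) * τ + y * l' := by
            rcases lt_or_eq_of_le hy.1 with h2 | h2
            · have := mul_pos h2 hl'
              have := mul_nonneg (by linarith [hy.2] : (0 : ℝ) ≤ 1 - y) hτ.le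
              linarith
            · rw [← h2]; linarith
          have hle : (1 - y) * τ + y * l' ≤ l' := by
            have := mul_le_mul_of_nonneg_left hτ' (by linarith [hy.2] : (0 : ℝ) ≤ 1 - y)
            linarith
          exact ⟨by linarith, (Rp _ (by linarith) (by linarith)).1⟩)
      refine ⟨ρ0, hρ0, fun δ hδ => ?_⟩
      obtain ⟨q1, q2, d1, d2, d3, d4, d5, d6, d7⟩ := H δ hδ
      refine ⟨q1, q2, d1, d2, fun x hx y hy => ?_, fun y hy => Or.inl (d4 y hy),
        fun y hy => Or.inl (d5 y hy), d6, d7⟩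
      obtain ⟨f1, f2, f3, f4, f5, f6⟩ := d3 x hx y hy
      exact ⟨f1, f2, f3, f4, f5, f6⟩
    · -- case (iii)
      obtain ⟨e2, he2, he2'⟩ := hB1c.exists_isGreatest hB1ne
      have hsp2 : e2 < sp := by
        rcases lt_or_eq_of_le he2.1.2 with h2 | h2
        · exact h2
        · exfalso
          rw [h2] at he2
          exact he2.2 r1
      have hsb2 : sb < e2 := by
        rcases lt_or_eq_of_le he2.1.1 with h2 | h2
        · exact h2
        · exfalso
          rw [← h2] at he2
          exact he2.2 r1'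
      have haft : ∀ s, e2 < s → s ≤ sp → rt θ1 (h s) < k1 := by
        intro s a b
        by_contra hcon
        have := he2' (⟨⟨by linarith, b⟩, hcon⟩ : s ∈ B1)
        linarith
      have g1 : rt θ1 (h e2) = k1 := by
        apply le_antisymm
        · by_contra hcon
          push Not at hcon
          obtain ⟨s, hs1, hs2⟩ := intermediate_value_Icc' hsp2.le hrc1.continuousOn
            (⟨r1.le, hcon.le⟩ : k1 ∈ Icc (rt θ1 (h sp)) (rt θ1 (h e2)))
          rcases lt_or_eq_of_le hs1.1 with h2 | h2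
          · have := haft s h2 hs1.2
            simp only at hs2
            linarith
          · rw [← h2] at hs2
            simp only at hs2
            linarith
        · by_contra hcon
          push Not at hcon
          exact he2.2 hcon
      have haft' : ∀ s, e2 ≤ s → s ≤ sp + l' → rt θ1 (h s) ≤ k1 := by
        intro s a b
        rcases le_total sp s with h1 | h1
        · exact (hright s h1 b).le
        · rcases lt_or_eq_of_le a with h2 | h2
          · exact (haft s h2 h1).le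
          · rw [← h2]; exact g1.le
      have key : ∀ s, e2 < s → s ≤ sp + l' → θ (e2, s) ≤ θ1 - Real.pi / 2 := by
        have hcos : ∀ x ∈ Ioc e2 (sp + l'), Real.cos (θ (e2, x) - θ1) ≤ 0 := by
          intro x hx
          have hst := hstrip e2 x (by linarith) hx.1 (by linarith [hx.2])
          refine cos_nonpos_of_rt (hP (e2, x) hst) (sub_ne_zero.2 (hne (e2, x) hst)) ?_
          show rt θ1 (h x - h e2) ≤ 0
          rw [rt_sub, g1]
          linarith [haft' x hx.1.le hx.2]
        have hcont : ContinuousOn (fun x => θ (e2, x) - (θ1 - 3 * Real.pi / 2))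
            (Ioc e2 (sp + l')) := by
          refine ContinuousOn.sub ?_ continuousOn_const
          exact hθc.comp (by fun_prop)
            (fun x hx => hstrip e2 x (by linarith) hx.1 (by linarith [hx.2]))
        have hspS : sp ∈ Ioc e2 (sp + l') := ⟨hsp2, by linarith⟩
        intro s h8 h9
        have hst := stay_nn isPreconnected_Ioc (θ := fun x => θ (e2, x) - (θ1 - 3 * Real.pi / 2))
          hcont
          (fun x hx => by
            have e3 : θ (e2, x) - (θ1 - 3 * Real.pi / 2) =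
                ((θ (e2, x) - θ1) - Real.pi / 2) + 2 * Real.pi := by ring
            rw [e3, Real.sin_add_two_pi, Real.sin_sub_pi_div_two]
            linarith [hcos x hx]) hspS (by
            have q := Cp e2 (by linarith) hsp2
            have q2 := hcos sp hspS
            constructor
            · linarith [q.1]
            · by_contra hcon
              push Not at hcon
              have := Real.cos_pos_of_mem_Ioo (x := θ (e2, sp) - θ1)
                ⟨by linarith, by linarith [q.2]⟩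
              linarith) s ⟨h8, h9⟩
        linarith [hst.2]
      obtain ⟨ρ0, hρ0, H⟩ := quadw_build (G := fun s => (s ≤ sa → k2 ≤ rt θ2 (h s)) ∧
          (sb ≤ s → rt θ1 (h s) ≤ k1))
        (F0 := fun s s' => sb ≤ s' ∧ θ (s, s') ≤ θ1 - Real.pi / 2)
        (F1 := fun s s' => sp ≤ s' ∧ θ1 ≤ θ (s, s'))
        (A0 := sm - l) (A1 := sp + l)
        hc hne (by linarith) e2 sp e2 (sp + l') l' (by linarith) (by linarith) hl'
        (fun s a b => ⟨fun h' => absurd h' (by linarith), fun _ => haft' s a b⟩)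
        (fun τ x => e2 + x * (sp - e2)) (fun x => e2 + x * (sp - e2))
        (fun x => sp + l') (by fun_prop) (by fun_prop) (fun τ => by fun_prop) (by
          intro τ hτ hτ' x hx
          have e1' := mul_nonneg hx.1 (by linarith : (0 : ℝ) ≤ sp - e2)
          have e2' := mul_le_mul_of_nonneg_right hx.2 (by linarith : (0 : ℝ) ≤ sp - e2)
          refine ⟨?_, ?_, ?_, ?_⟩ <;> linarith) (by
          intro x hx
          have e1' := mul_nonneg hx.1 (by linarith : (0 : ℝ) ≤ sp - e2)
          have e2' := mul_le_mul_of_nonneg_right hx.2 (by linarith : (0 : ℝ) ≤ sp - e2)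
          refine ⟨?_, ?_, ?_, ?_, ?_⟩ <;> linarith) (by
          intro τ hτ hτ' y hy
          have e1 : (1 - y) * (e2 + 0 * (sp - e2)) + y * (e2 + 0 * (sp - e2)) = e2 := by ring
          have e2' : (1 - y) * (e2 + 0 * (sp - e2) + τ) + y * (sp + l') =
              (1 - y) * (e2 + τ) + y * (sp + l') := by ring
          rw [e1, e2']
          have hy1 : (0 : ℝ) ≤ 1 - y := by linarith [hy.2]
          have hlt : e2 < (1 - y) * (e2 + τ) + y * (sp + l') := by
            rcases lt_or_eq_of_le hy.1 with h2 | h2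
            · nlinarith [mul_pos h2 (by linarith : (0 : ℝ) < sp + l' - e2), mul_nonneg hy1 hτ.le]
            · rw [← h2]; linarith
          refine ⟨by linarith, key _ hlt ?_⟩
          nlinarith [mul_nonneg hy1 (by linarith : (0 : ℝ) ≤ sp + l' - (e2 + τ))]) (by
          intro τ hτ hτ' y hy
          have e1 : (1 - y) * (e2 + 1 * (sp - e2)) + y * (e2 + 1 * (sp - e2)) = sp := by ring
          have e2' : (1 - y) * (e2 + 1 * (sp - e2) + τ) + y * (sp + l') =
              sp + ((1 - y) * τ + y * l') := by ring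
          rw [e1, e2']
          have hpos : 0 < (1 - y) * τ + y * l' := by
            rcases lt_or_eq_of_le hy.1 with h2 | h2
            · have := mul_pos h2 hl'
              have := mul_nonneg (by linarith [hy.2] : (0 : ℝ) ≤ 1 - y) hτ.le
              linarith
            · rw [← h2]; linarith
          have hle : (1 - y) * τ + y * l' ≤ l' := by
            have := mul_le_mul_of_nonneg_left hτ' (by linarith [hy.2] : (0 : ℝ) ≤ 1 - y)
            linarith
          exact ⟨by linarith, (Rp _ (by linarith) (by linarith)).1⟩)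
      refine ⟨ρ0, hρ0, fun δ hδ => ?_⟩
      obtain ⟨q1, q2, d1, d2, d3, d4, d5, d6, d7⟩ := H δ hδ
      refine ⟨q1, q2, d1, d2, fun x hx y hy => ?_, fun y hy => Or.inr (d4 y hy),
        fun y hy => Or.inl (d5 y hy), d6, d7⟩
      obtain ⟨f1, f2, f3, f4, f5, f6⟩ := d3 x hx y hy
      exact ⟨f1, f2, by linarith, f4, f5, f6⟩
  · -- case (ii)
    obtain ⟨e1, he1, he1'⟩ := hB2c.exists_isLeast hB2ne
    have hsm1 : sm < e1 := by
      rcases lt_or_eq_of_le he1.1.1 with h2 | h2
      · exact h2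
      · exfalso
        rw [← h2] at he1
        exact he1.2 r2
    have hsa1 : e1 < sa := by
      rcases lt_or_eq_of_le he1.1.2 with h2 | h2
      · exact h2
      · exfalso
        rw [h2] at he1
        exact he1.2 r2'
    have hbef : ∀ s, sm ≤ s → s < e1 → k2 < rt θ2 (h s) := by
      intro s a b
      by_contra hcon
      have := he1' (⟨⟨a, by linarith⟩, hcon⟩ : s ∈ B2)
      linarith
    have f2 : rt θ2 (h e1) = k2 := by
      apply le_antisymm
      · by_contra hcon
        push Not at hcon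
        exact he1.2 hcon
      · by_contra hcon
        push Not at hcon
        obtain ⟨s, hs1, hs2⟩ := intermediate_value_Icc' hsm1.le hrc2.continuousOn
          (⟨hcon.le, r2.le⟩ : k2 ∈ Icc (rt θ2 (h e1)) (rt θ2 (h sm)))
        rcases lt_or_eq_of_le hs1.2 with h2 | h2
        · have := hbef s hs1.1 h2
          simp only at hs2
          linarith
        · rw [h2] at hs2
          simp only at hs2
          linarith
    have hbef' : ∀ s, sm - l' ≤ s → s ≤ e1 → k2 ≤ rt θ2 (h s) := by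
      intro s a b
      rcases le_total s sm with h1 | h1
      · exact (hleft s a h1).le
      · rcases lt_or_eq_of_le b with h2 | h2
        · exact (hbef s h1 h2).le
        · rw [h2]; exact f2.ge
    have key : ∀ s, sm - l' ≤ s → s < e1 → θ2 + Real.pi / 2 ≤ θ (s, e1) := by
      have hcos : ∀ x ∈ Ico (sm - l') e1, Real.cos (θ (x, e1) - θ2) ≤ 0 := by
        intro x hx
        have hst := hstrip x e1 (by linarith [hx.1]) hx.2 (by linarith)
        refine cos_nonpos_of_rt (hP (x, e1) hst) (sub_ne_zero.2 (hne (x, e1) hst)) ?_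
        show rt θ2 (h e1 - h x) ≤ 0
        rw [rt_sub, f2]
        linarith [hbef' x hx.1 hx.2.le]
      have hcont : ContinuousOn (fun x => θ (x, e1) - (θ2 + Real.pi / 2)) (Ico (sm - l') e1) := by
        refine ContinuousOn.sub ?_ continuousOn_const
        exact hθc.comp (by fun_prop)
          (fun x hx => hstrip x e1 (by linarith [hx.1]) hx.2 (by linarith))
      have hsmS : sm ∈ Ico (sm - l') e1 := ⟨by linarith, hsm1⟩
      intro s h8 h9
      have hst := stay_nn isPreconnected_Ico (θ := fun x => θ (x, e1) - (θ2 + Real.pi / 2)) hcont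
        (fun x hx => by
          have e3 : θ (x, e1) - (θ2 + Real.pi / 2) = (θ (x, e1) - θ2) - Real.pi / 2 := by ring
          rw [e3, Real.sin_sub_pi_div_two]
          linarith [hcos x hx]) hsmS (by
          have q := Rm e1 hsm1 (by linarith)
          have q2 := hcos sm hsmS
          constructor
          · by_contra hcon
            push Not at hcon
            have := Real.cos_pos_of_mem_Ioo (x := θ (sm, e1) - θ2)
              ⟨by linarith [q.1], by linarith⟩
            linarith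
          · linarith [q.2]) s ⟨h8, h9⟩
      linarith [hst.1]
    obtain ⟨ρ0, hρ0, H⟩ := quadw_build (G := fun s => (s ≤ sa → k2 ≤ rt θ2 (h s)) ∧
        (sb ≤ s → rt θ1 (h s) ≤ k1))
      (F0 := fun s s' => s' = sm ∧ θ (s, s') ≤ θ2)
      (F1 := fun s s' => s' ≤ sa ∧ θ2 + Real.pi / 2 ≤ θ (s, s'))
      (A0 := sm - l) (A1 := sp + l)
      hc hne (by linarith) (sm - l') e1 sm e1 (min l' (e1 - sm)) (by linarith)
      (by linarith) (lt_min hl' (by linarith))
      (fun s a b => ⟨fun _ => hbef' s (by linarith) b, fun h' => absurd h' (by linarith)⟩)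
      (fun τ x => sm - τ + x * (e1 - sm)) (fun x => sm - l')
      (fun x => sm + x * (e1 - sm)) (by fun_prop) (by fun_prop) (fun τ => by fun_prop) (by
        intro τ hτ hτ' x hx
        have e1' := mul_nonneg hx.1 (by linarith : (0 : ℝ) ≤ e1 - sm)
        have e2' := mul_le_mul_of_nonneg_right hx.2 (by linarith : (0 : ℝ) ≤ e1 - sm)
        have e3' := hτ'.trans (min_le_left _ _)
        refine ⟨?_, ?_, ?_, ?_⟩ <;> linarith) (by
        intro x hx
        have e1' := mul_nonneg hx.1 (by linarith : (0 : ℝ) ≤ e1 - sm)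
        have e2' := mul_le_mul_of_nonneg_right hx.2 (by linarith : (0 : ℝ) ≤ e1 - sm)
        refine ⟨?_, ?_, ?_, ?_, ?_⟩ <;> linarith) (by
        intro τ hτ hτ' y hy
        have e3' := hτ'.trans (min_le_left _ _)
        have e1' : (1 - y) * (sm - τ + 0 * (e1 - sm)) + y * (sm - l') =
            sm - ((1 - y) * τ + y * l') := by ring
        have e2' : (1 - y) * (sm - τ + 0 * (e1 - sm) + τ) + y * (sm + 0 * (e1 - sm)) = sm := by
          ring
        rw [e1', e2']
        have hpos : 0 < (1 - y) * τ + y * l' := by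
          rcases lt_or_eq_of_le hy.1 with h2 | h2
          · have := mul_pos h2 hl'
            have := mul_nonneg (by linarith [hy.2] : (0 : ℝ) ≤ 1 - y) hτ.le
            linarith
          · rw [← h2]; linarith
        have hle : (1 - y) * τ + y * l' ≤ l' := by
          have := mul_le_mul_of_nonneg_left e3' (by linarith [hy.2] : (0 : ℝ) ≤ 1 - y)
          linarith
        exact ⟨rfl, (Cm _ (by linarith) (by linarith)).2⟩) (by
        intro τ hτ hτ' y hy
        have e1' : (1 - y) * (sm - τ + 1 * (e1 - sm)) + y * (sm - l') =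
            (1 - y) * (e1 - τ) + y * (sm - l') := by ring
        have e2' : (1 - y) * (sm - τ + 1 * (e1 - sm) + τ) + y * (sm + 1 * (e1 - sm)) = e1 := by
          ring
        rw [e1', e2']
        have hτ2 := hτ'.trans (min_le_right _ _)
        have hτ3 := hτ'.trans (min_le_left _ _)
        have hy1 : (0 : ℝ) ≤ 1 - y := by linarith [hy.2]
        refine ⟨hsa1.le, ?_⟩
        apply key
        · nlinarith [mul_nonneg hy1 (by linarith : (0 : ℝ) ≤ e1 - τ - (sm - l'))]
        · rcases lt_or_eq_of_le hy.1 with h2 | h2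
          · nlinarith [mul_pos h2 (by linarith : (0 : ℝ) < e1 - (sm - l')), mul_nonneg hy1 hτ.le]
          · rw [← h2]; linarith)
    refine ⟨ρ0, hρ0, fun δ hδ => ?_⟩
    obtain ⟨q1, q2, d1, d2, d3, d4, d5, d6, d7⟩ := H δ hδ
    refine ⟨q1, q2, d1, d2, fun x hx y hy => ?_, fun y hy => Or.inl (d4 y hy),
      fun y hy => Or.inr ⟨by linarith, d5 y hy⟩, d6, d7⟩
    obtain ⟨f1, f2, f3, f4, f5, f6⟩ := d3 x hx y hy
    exact ⟨f1, f2, f3, f4, f5, f6⟩

end Pool.MP_7ec17a_gt.D
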