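import Pool.Agent.Work.MP_7ec17a_gt_W.InterfaceB

/-!
# MP_7ec17a_gt, part B, block SLICE: first variation of the area under a half plane
-/

set_option autoImplicit false

open Set MeasureTheory Filter Topology

namespace Pool.MP_7ec17a_gt.B

namespace SLICE_

/-- horizontal sections -/
def sec (K : Set ℂ) (y u : ℝ) : Set ℝ := {x : ℝ | (⟨x, y⟩ : ℂ) ∈ K ∧ x ≤ u}

/-- length of the sections -/
noncomputable def ll (K : Set ℂ) (y u : ℝ) : ℝ := (volume (sec K y u)).toReal

theorem cont_mk : Continuous (fun p : ℝ × ℝ => (⟨p.1, p.2⟩ : ℂ)) :=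
  Complex.equivRealProdCLM.symm.continuous

theorem sec_sub {K : Set ℂ} {M : ℝ} (hM : ∀ z ∈ K, ‖z‖ ≤ M) (y u : ℝ) :
    sec K y u ⊆ Icc (-M) M := by
  intro x hx
  have h1 := hM _ hx.1
  have h2 := (Complex.abs_re_le_norm (⟨x, y⟩ : ℂ)).trans h1
  exact abs_le.1 h2

theorem sec_fin {K : Set ℂ} {M : ℝ} (hM : ∀ z ∈ K, ‖z‖ ≤ M) (y u : ℝ) :
    volume (sec K y u) < ⊤ :=
  lt_of_le_of_lt (measure_mono (sec_sub hM y u)) measure_Icc_lt_top

theorem sec_empty {K : Set ℂ} {M : ℝ} (hM : ∀ z ∈ K, ‖z‖ ≤ M) {y : ℝ} (hy : y ∉ Icc (-M) M)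
    (u : ℝ) : ll K y u = 0 := by
  have : sec K y u = ∅ := by
    refine eq_empty_iff_forall_notMem.2 fun x hx => hy ?_
    have h1 := hM _ hx.1
    have h2 := (Complex.abs_im_le_norm (⟨x, y⟩ : ℂ)).trans h1
    exact abs_le.1 h2
  unfold ll
  rw [this]; simp

theorem area_eq {K : Set ℂ} (hK : IsCompact K) (c α β ε : ℝ) :
    (volume (K ∩ {z : ℂ | z.re ≤ c + ε * (α + β * z.im)})).toReal
      = ∫ y, ll K y (c + ε * (α + β * y)) := by
  obtain ⟨M, hM⟩ := hK.isBounded.exists_norm_le
  have hcl : IsClosed {z : ℂ | z.re ≤ c + ε * (α + β * z.im)} :=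
    isClosed_le (by fun_prop) (by fun_prop)
  have hAm : MeasurableSet (K ∩ {z : ℂ | z.re ≤ c + ε * (α + β * z.im)}) :=
    (hK.inter_right hcl).measurableSet
  have hB := Complex.measurableEquivRealProd.symm.measurable hAm
  have e1 := (Complex.volume_preserving_equiv_real_prod.symm _).measure_preimage
    hAm.nullMeasurableSet
  rw [← e1, Measure.volume_eq_prod, Measure.prod_apply_symm hB, ← integral_toReal]
  · rfl
  · exact (measurable_measure_prodMk_right hB).aemeasurable
  · refine Eventually.of_forall fun y => ?_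
    exact sec_fin hM y (c + ε * (α + β * y))

theorem ll_mono {K : Set ℂ} {M : ℝ} (hM : ∀ z ∈ K, ‖z‖ ≤ M) (y : ℝ) {u v : ℝ} (h : u ≤ v) :
    ll K y u ≤ ll K y v ∧ ll K y v ≤ ll K y u + (v - u) := by
  constructor
  · exact ENNReal.toReal_mono (sec_fin hM y v).ne (measure_mono fun x hx => ⟨hx.1, hx.2.trans h⟩)
  · have h1 : sec K y v ⊆ sec K y u ∪ Ioc u v := by
      intro x hx
      rcases le_or_gt x u with h2 | h2
      · exact Or.inl ⟨hx.1, h2⟩
      · exact Or.inr ⟨h2, hx.2⟩
    have h2 : volume (sec K y v) ≤ volume (sec K y u) + ENNReal.ofReal (v - u) := by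
      refine (measure_mono h1).trans ((measure_union_le _ _).trans ?_)
      rw [Real.volume_Ioc]
    have h3 := ENNReal.toReal_mono (by
      exact ENNReal.add_ne_top.2 ⟨(sec_fin hM y u).ne, ENNReal.ofReal_ne_top⟩) h2
    rw [ENNReal.toReal_add (sec_fin hM y u).ne ENNReal.ofReal_ne_top,
      ENNReal.toReal_ofReal (by linarith)] at h3
    exact h3

theorem ll_lip {K : Set ℂ} {M : ℝ} (hM : ∀ z ∈ K, ‖z‖ ≤ M) (y u v : ℝ) :
    |ll K y u - ll K y v| ≤ |u - v| := by
  rcases le_total u v with h | h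
  · obtain ⟨h1, h2⟩ := ll_mono hM y h
    rw [abs_sub_comm, abs_of_nonneg (by linarith), abs_sub_comm, abs_of_nonneg (by linarith)]
    linarith
  · obtain ⟨h1, h2⟩ := ll_mono hM y h
    rw [abs_of_nonneg (by linarith), abs_of_nonneg (by linarith)]
    linarith

/-- off the slice the length is locally constant -/
theorem ll_const {K : Set ℂ} (hK : IsClosed K) {y c : ℝ} (hy : (⟨c, y⟩ : ℂ) ∉ K) :
    ∀ᶠ u in 𝓝 c, ll K y u = ll K y c := by
  have h1 : Continuous (fun x : ℝ => (⟨x, y⟩ : ℂ)) :=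
    cont_mk.comp (continuous_id.prodMk continuous_const)
  have h2 : {x : ℝ | (⟨x, y⟩ : ℂ) ∉ K} ∈ 𝓝 c := (hK.isOpen_compl.preimage h1).mem_nhds hy
  obtain ⟨δ, hδ, hball⟩ := Metric.mem_nhds_iff.1 h2
  filter_upwards [Metric.ball_mem_nhds c hδ] with u hu
  have : sec K y u = sec K y c := by
    ext x
    constructor
    · intro hx
      refine ⟨hx.1, ?_⟩
      by_contra hc
      rw [not_le] at hc
      refine hball ?_ hx.1
      rw [Metric.mem_ball, Real.dist_eq, abs_lt] at hu ⊢
      constructor <;> linarith [hx.2]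
    · intro hx
      refine ⟨hx.1, ?_⟩
      by_contra hc
      rw [not_le] at hc
      refine hball ?_ hx.1
      rw [Metric.mem_ball, Real.dist_eq, abs_lt] at hu ⊢
      constructor <;> linarith [hx.2]
  unfold ll
  rw [this]

theorem sec_meas {K : Set ℂ} (hK : IsClosed K) (y u : ℝ) : MeasurableSet (sec K y u) := by
  have h1 : Continuous (fun x : ℝ => (⟨x, y⟩ : ℂ)) :=
    cont_mk.comp (continuous_id.prodMk continuous_const)
  exact ((hK.preimage h1).inter isClosed_Iic).measurableSet

/-- at an interior point of the slice the length grows with speed one -/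
theorem ll_one {K : Set ℂ} (hK : IsClosed K) {M : ℝ} (hM : ∀ z ∈ K, ‖z‖ ≤ M) {y c : ℝ}
    (hy : (⟨c, y⟩ : ℂ) ∈ interior K) :
    ∀ᶠ u in 𝓝 c, ll K y u = ll K y c + (u - c) := by
  have h1 : Continuous (fun x : ℝ => (⟨x, y⟩ : ℂ)) :=
    cont_mk.comp (continuous_id.prodMk continuous_const)
  have h2 : {x : ℝ | (⟨x, y⟩ : ℂ) ∈ K} ∈ 𝓝 c :=
    mem_of_superset ((isOpen_interior.preimage h1).mem_nhds hy) fun x hx => by
      have hx' : (⟨x, y⟩ : ℂ) ∈ interior K := hx
      have hx'' : (⟨x, y⟩ : ℂ) ∈ K := interior_subset hx'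
      exact hx''
  obtain ⟨δ, hδ, hball⟩ := Metric.mem_nhds_iff.1 h2
  have key : ∀ u v : ℝ, u ∈ Metric.ball c δ → v ∈ Metric.ball c δ → u ≤ v →
      ll K y v = ll K y u + (v - u) := by
    intro u v hu hv huv
    have e1 : sec K y v = sec K y u ∪ Ioc u v := by
      ext x
      constructor
      · intro hx
        rcases le_or_gt x u with h2 | h2
        · exact Or.inl ⟨hx.1, h2⟩
        · exact Or.inr ⟨h2, hx.2⟩
      · rintro (hx | hx)
        · exact ⟨hx.1, hx.2.trans huv⟩
        · refine ⟨hball ?_, hx.2⟩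
          rw [Metric.mem_ball, Real.dist_eq, abs_lt] at hu hv ⊢
          constructor <;> linarith [hx.1, hx.2]
    have e2 : volume (sec K y v) = volume (sec K y u) + volume (Ioc u v) := by
      rw [e1, measure_union _ measurableSet_Ioc]
      rw [Set.disjoint_left]
      intro x hx hx'
      exact absurd hx.2 (not_le.2 hx'.1)
    unfold ll
    rw [e2, Real.volume_Ioc, ENNReal.toReal_add (sec_fin hM y u).ne ENNReal.ofReal_ne_top,
      ENNReal.toReal_ofReal (by linarith)]
  filter_upwards [Metric.ball_mem_nhds c hδ] with u hu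
  have hc : c ∈ Metric.ball c δ := Metric.mem_ball_self hδ
  rcases le_total u c with h | h
  · have := key u c hu hc h
    linarith
  · exact key c u hc hu h

/-- derivative for one row -/
theorem row_deriv {K : Set ℂ} (hK : IsClosed K) {M : ℝ} (hM : ∀ z ∈ K, ‖z‖ ≤ M) (c s y : ℝ)
    (hy : (⟨c, y⟩ : ℂ) ∉ K ∨ (⟨c, y⟩ : ℂ) ∈ interior K) :
    HasDerivAt (fun ε : ℝ => ll K y (c + ε * s))
      (indicator {y : ℝ | (⟨c, y⟩ : ℂ) ∈ K} (fun _ => s) y) 0 := by
  have hcont : Tendsto (fun ε : ℝ => c + ε * s) (𝓝 0) (𝓝 c) := by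
    have : Continuous (fun ε : ℝ => c + ε * s) := by fun_prop
    have h := this.tendsto 0
    simpa using h
  rcases hy with hy | hy
  · rw [indicator_of_notMem (by exact hy)]
    have h1 := hcont.eventually (ll_const hK hy)
    exact (hasDerivAt_const (0 : ℝ) (ll K y c)).congr_of_eventuallyEq h1
  · have hyK : (⟨c, y⟩ : ℂ) ∈ K := interior_subset hy
    rw [indicator_of_mem (by exact hyK)]
    have h1 := hcont.eventually (ll_one hK hM hy)
    have h2 : HasDerivAt (fun ε : ℝ => ll K y c + (c + ε * s - c)) s 0 := by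
      have h3 : HasDerivAt (fun ε : ℝ => ε * s) s 0 := by
        simpa using (hasDerivAt_id (0 : ℝ)).mul_const s
      have h4 := (h3.const_add c).sub_const c |>.const_add (ll K y c)
      exact h4
    exact h2.congr_of_eventuallyEq h1

/-- almost every point of the slice is an interior point -/
theorem ae_slice {K : Set ℂ} (hK : IsCompact K) (hs : StrictConvex ℝ K) (c : ℝ) :
    ∀ᵐ y : ℝ, (⟨c, y⟩ : ℂ) ∉ K ∨ (⟨c, y⟩ : ℂ) ∈ interior K := by
  set S : Set ℝ := {y : ℝ | (⟨c, y⟩ : ℂ) ∈ K} with hS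
  have h1 : Continuous (fun y : ℝ => (⟨c, y⟩ : ℂ)) :=
    cont_mk.comp (continuous_const.prodMk continuous_id)
  obtain ⟨M, hM⟩ := hK.isBounded.exists_norm_le
  have hSc : IsCompact S := by
    refine Metric.isCompact_of_isClosed_isBounded (hK.isClosed.preimage h1) ?_
    refine (Metric.isBounded_closedBall (x := (0 : ℝ)) (r := M)).subset fun y hy => ?_
    rw [mem_closedBall_zero_iff, Real.norm_eq_abs]
    exact (Complex.abs_im_le_norm (⟨c, y⟩ : ℂ)).trans (hM _ hy)
  have hfin : volume ({sInf S, sSup S} : Set ℝ) = 0 :=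
    (Set.toFinite ({sInf S, sSup S} : Set ℝ)).measure_zero _
  rw [ae_iff]
  refine measure_mono_null ?_ hfin
  intro y hy
  simp only [mem_ofPred_eq, not_or, not_not] at hy
  obtain ⟨hy1, hy2⟩ := hy
  have hne : S.Nonempty := ⟨y, hy1⟩
  have ha : sInf S ∈ S := hSc.sInf_mem hne
  have hb : sSup S ∈ S := hSc.sSup_mem hne
  by_contra hcon
  simp only [mem_insert_iff, mem_singleton_iff, not_or] at hcon
  have l1 : sInf S < y := lt_of_le_of_ne (csInf_le hSc.bddBelow hy1) (Ne.symm hcon.1)
  have l2 : y < sSup S := lt_of_le_of_ne (le_csSup hSc.bddAbove hy1) hcon.2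
  apply hy2
  have hne2 : (⟨c, sInf S⟩ : ℂ) ≠ ⟨c, sSup S⟩ := by
    intro h
    have := congrArg Complex.im h
    simp at this
    linarith
  have hseg := hs.openSegment_subset ha hb hne2
  apply hseg
  rw [openSegment_eq_image]
  have hd : 0 < sSup S - sInf S := by linarith
  obtain ⟨t, ht⟩ : ∃ t : ℝ, t = (y - sInf S) / (sSup S - sInf S) := ⟨_, rfl⟩
  have ht0 : 0 < t := by rw [ht]; apply div_pos <;> linarith
  have ht1 : t < 1 := by rw [ht, div_lt_one hd]; linarith
  have ht2 : t * (sSup S - sInf S) = y - sInf S := by rw [ht]; field_simp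
  refine ⟨t, ⟨ht0, ht1⟩, ?_⟩
  apply Complex.ext
  · simp
    ring
  · simp
    linarith

end SLICE_

open SLICE_ in
theorem stmt_SLICE : Stmt_SLICE := by
  intro K c α β hK hs
  obtain ⟨M, hM⟩ := hK.isBounded.exists_norm_le
  have hSm : MeasurableSet {y : ℝ | (⟨c, y⟩ : ℂ) ∈ K} := by
    have h1 : Continuous (fun y : ℝ => (⟨c, y⟩ : ℂ)) :=
      cont_mk.comp (continuous_const.prodMk continuous_id)
    exact (hK.isClosed.preimage h1).measurableSet
  have hmeas : ∀ ε : ℝ, Measurable (fun y => ll K y (c + ε * (α + β * y))) := by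
    intro ε
    have hcl : IsClosed {z : ℂ | z.re ≤ c + ε * (α + β * z.im)} :=
      isClosed_le (by fun_prop) (by fun_prop)
    have hAm : MeasurableSet (K ∩ {z : ℂ | z.re ≤ c + ε * (α + β * z.im)}) :=
      (hK.inter_right hcl).measurableSet
    have hB := Complex.measurableEquivRealProd.symm.measurable hAm
    exact (measurable_measure_prodMk_right hB).ennreal_toReal
  have hb : Integrable (indicator (Icc (-M) M) (fun y : ℝ => |α + β * y|)) := by
    rw [integrable_indicator_iff measurableSet_Icc]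
    exact (by fun_prop : Continuous fun y : ℝ => |α + β * y|).continuousOn.integrableOn_Icc
  have hint : Integrable (fun y => ll K y (c + 0 * (α + β * y))) := by
    have hbd : Integrable (indicator (Icc (-M) M) (fun _ : ℝ => 2 * |M|)) := by
      rw [integrable_indicator_iff measurableSet_Icc]
      exact continuousOn_const.integrableOn_Icc
    refine hbd.mono' (hmeas 0).aestronglyMeasurable (Eventually.of_forall fun y => ?_)
    by_cases hy : y ∈ Icc (-M) M
    · have h0 : 0 ≤ ll K y (c + 0 * (α + β * y)) := ENNReal.toReal_nonneg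
      rw [indicator_of_mem hy, Real.norm_eq_abs, abs_of_nonneg h0]
      have h2 := ENNReal.toReal_mono measure_Icc_lt_top.ne
        (measure_mono (μ := volume) (sec_sub hM y (c + 0 * (α + β * y))))
      rw [Real.volume_Icc] at h2
      refine h2.trans ?_
      rcases le_total 0 (M - -M) with h3 | h3
      · rw [ENNReal.toReal_ofReal h3]
        have := le_abs_self M
        linarith
      · rw [ENNReal.ofReal_of_nonpos h3]
        simp
    · rw [sec_empty hM hy]
      simp
      exact indicator_nonneg (fun _ _ => by positivity) _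
  have hlip : ∀ᵐ y : ℝ, LipschitzOnWith (Real.nnabs (indicator (Icc (-M) M)
      (fun y : ℝ => |α + β * y|) y)) (fun ε : ℝ => ll K y (c + ε * (α + β * y))) univ := by
    refine Eventually.of_forall fun y => ?_
    refine LipschitzOnWith.of_dist_le_mul fun ε _ ε' _ => ?_
    by_cases hy : y ∈ Icc (-M) M
    · rw [indicator_of_mem hy, Real.dist_eq, Real.dist_eq]
      refine (ll_lip hM y _ _).trans (le_of_eq ?_)
      have e : c + ε * (α + β * y) - (c + ε' * (α + β * y)) = (α + β * y) * (ε - ε') := by ring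
      rw [e, abs_mul]
      simp
    · rw [sec_empty hM hy, sec_empty hM hy]
      simp
      positivity
  have hd : ∀ᵐ y : ℝ, HasDerivAt (fun ε : ℝ => ll K y (c + ε * (α + β * y)))
      (indicator {y : ℝ | (⟨c, y⟩ : ℂ) ∈ K} (fun y => α + β * y) y) 0 := by
    filter_upwards [ae_slice hK hs c] with y hy
    have := row_deriv hK.isClosed hM c (α + β * y) y hy
    refine this.congr_deriv ?_
    by_cases h : y ∈ {y : ℝ | (⟨c, y⟩ : ℂ) ∈ K}
    · rw [indicator_of_mem h, indicator_of_mem h]
    · rw [indicator_of_notMem h, indicator_of_notMem h]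
  have hF' : AEStronglyMeasurable (indicator {y : ℝ | (⟨c, y⟩ : ℂ) ∈ K}
      (fun y => α + β * y)) volume :=
    ((by fun_prop : Measurable fun y : ℝ => α + β * y).indicator hSm).aestronglyMeasurable
  have key := (hasDerivAt_integral_of_dominated_loc_of_lip (s := univ) (x₀ := (0 : ℝ))
    (F := fun (ε : ℝ) (y : ℝ) => ll K y (c + ε * (α + β * y))) univ_mem
    (Eventually.of_forall fun ε => (hmeas ε).aestronglyMeasurable) hint hF' hlip hb hd).2
  rw [integral_indicator hSm] at key
  have e : (fun ε : ℝ => (volume (K ∩ {z : ℂ | z.re ≤ c + ε * (α + β * z.im)})).toReal)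
      = fun ε => ∫ y, ll K y (c + ε * (α + β * y)) := by
    funext ε
    exact area_eq hK c α β ε
  rw [e]
  exact key

end Pool.MP_7ec17a_gt.B
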