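import Pool.Agent.Work.MP_7ec17a_gt_W.EXC
import Pool.Agent.Work.MP_7ec17a_gt_W.InterfaceB
import Pool.Agent.Work.MP_7ec17a_gt_D.Final

/-!
# Every Jordan curve
-/

set_option autoImplicit false

open Set

namespace Pool.MP_7ec17a_gt.D

open Pool.MP_7ec17a_gt.T Pool.MP_7ec17a_gt.M

/-- The plateau case when the first corner is not degenerate. -/
theorem wide_aux (hSUPP : Stmt_SUPP) (hMONO : Stmt_MONO) (hHULL : Stmt_HULL) (hSTR : Stmt_STR)
    (hTUBE : Stmt_TUBE) (hCLOSE : Stmt_CLOSE) (hUNI : Stmt_UNI) (hSUPS : Stmt_SUPS)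
    (hTIL : Stmt_TIL) {f : ℝ → ℂ}
    {θ : ℝ × ℝ → ℝ} {D ϑa ϑb sa sb ta tb : ℝ} (W : Wide f θ D ϑa ϑb) (Sa : Sup f θ sa ϑa)
    (Sb : Sup f θ sb ϑb) (Ta : Sup f θ ta (ϑa + Real.pi)) (Tb : Sup f θ tb (ϑb + Real.pi))
    (o1 : sa < sb) (o2 : sb < ta) (o3 : ta < tb) (o4 : tb ≤ sa + 1) :
    ∃ R : ℝ, 0 < R ∧ ∀ r : ℝ, R ≤ r → ∃ (s s' t t' : ℝ) (v : ℂ), v ≠ 0 ∧ f s' = f s + v ∧
      f t' = f s + Complex.I * (r : ℂ) * v ∧ f t = f s + v + Complex.I * (r : ℂ) * v := by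
  have hpi := Real.pi_pos
  have hwide := W.wide
  have hab : ϑa < ϑb := by linarith
  have hf := W.crv
  have hθ := W.lift
  obtain ⟨θ1, θ2, k1, k2, l, sm, sp, tp, tm, C, h1, h2⟩ := exc hSUPP hMONO hHULL hSTR hTUBE hCLOSE
    hUNI W Sa Sb Ta Tb o1 o2 o3 o4
  rcases lt_or_eq_of_le o4 with h | h
  · exact conf1 hTIL C (h1 h)
  · obtain ⟨e1, e2⟩ := h2 h
    -- two directions in which `f sa` is not a support point
    set A : Set ℝ := {ψ | ∀ x, 0 ≤ up ψ (f x - f sa)} with hA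
    set B : Set ℝ := {ψ | ∀ x, 0 ≤ up ψ (f sa - f x)} with hB
    have hcup : ∀ z : ℂ, Continuous (fun ψ : ℝ => up ψ z) := fun z => by
      unfold up
      fun_prop
    have hAc : IsClosed A := by
      have e : A = ⋂ x : ℝ, {ψ | 0 ≤ up ψ (f x - f sa)} := by
        ext ψ
        simp [hA]
      rw [e]
      exact isClosed_iInter fun x => isClosed_le continuous_const (hcup _)
    have hBc : IsClosed B := by
      have e : B = ⋂ x : ℝ, {ψ | 0 ≤ up ψ (f sa - f x)} := by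
        ext ψ
        simp [hB]
      rw [e]
      exact isClosed_iInter fun x => isClosed_le continuous_const (hcup _)
    have hftb : f tb = f sa := by rw [h, hf.per]
    have hnot : ¬ Icc ϑa ϑb ⊆ A ∪ B := by
      intro hsub
      obtain ⟨ψ, hψ, hψA, hψB⟩ := isPreconnected_closed_iff.1 (isPreconnected_Icc (a := ϑa)
        (b := ϑb)) A B hAc hBc hsub ⟨ϑa, ⟨le_rfl, hab.le⟩, Sa.above⟩ ⟨ϑb, ⟨hab.le, le_rfl⟩, fun x => by
          have := Tb.above x
          rw [up_add_pi, up_sub, hftb] at this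
          rw [up_sub]
          linarith⟩
      obtain ⟨s, t, hst⟩ := W.plat ψ hψ.1 hψ.2
      have i1 := hψA t
      have i2 := hψB t
      have i3 := hψA s
      have i4 := hψB s
      rw [up_sub] at hst i1 i2 i3 i4
      have := W.pos
      linarith
    obtain ⟨ψ0, hψ0, hψ0'⟩ := not_subset.1 hnot
    have hopen : IsOpen (A ∪ B)ᶜ := (hAc.union hBc).isOpen_compl
    obtain ⟨ε, hε, hball⟩ := Metric.isOpen_iff.1 hopen ψ0 hψ0'
    have hne1 : ϑa < ψ0 := by
      rcases lt_or_eq_of_le hψ0.1 with h' | h'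
      · exact h'
      · exact absurd (Or.inl (by rw [← h']; exact Sa.above)) hψ0'
    have hne2 : ψ0 < ϑb := by
      rcases lt_or_eq_of_le hψ0.2 with h' | h'
      · exact h'
      · refine absurd (Or.inr fun x => ?_) hψ0'
        have := Tb.above x
        rw [up_add_pi, up_sub, hftb] at this
        rw [up_sub, h']
        linarith
    set ψ2 := ψ0 + min (ε / 2) ((ϑb - ψ0) / 2) with hψ2
    have hm0 : 0 < min (ε / 2) ((ϑb - ψ0) / 2) := lt_min (by linarith) (by linarith)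
    have hm1 : min (ε / 2) ((ϑb - ψ0) / 2) ≤ ε / 2 := min_le_left _ _
    have hm2 : min (ε / 2) ((ϑb - ψ0) / 2) ≤ (ϑb - ψ0) / 2 := min_le_right _ _
    have hψ2' : ψ2 ∉ A ∪ B := by
      apply hball
      rw [Metric.mem_ball, Real.dist_eq, abs_of_pos (by linarith)]
      linarith
    obtain ⟨ss, -, S1, -, -, -⟩ := hSUPS f θ D ϑa ϑb ψ0 W hne1.le hne2.le
    obtain ⟨-, ts, -, S2, -, -⟩ := hSUPS f θ D ϑa ϑb ψ2 W (by linarith) (by linarith)
    have p1 : sa ≤ ss := hMONO f θ _ _ _ _ hf hθ Sa S1 hne1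
    have p2 : ss ≤ sb := hMONO f θ _ _ _ _ hf hθ S1 Sb hne2
    have p3 : ta ≤ ts := hMONO f θ _ _ _ _ hf hθ Ta S2 (by linarith)
    have p4 : ts ≤ tb := hMONO f θ _ _ _ _ hf hθ S2 Tb (by linarith)
    have p1' : sa < ss := by
      rcases lt_or_eq_of_le p1 with h' | h'
      · exact h'
      · refine absurd (Or.inl fun x => ?_) hψ0'
        have := S1.above x
        rwa [← h'] at this
    have p4' : ts < tb := by
      rcases lt_or_eq_of_le p4 with h' | h'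
      · exact h'
      · refine absurd (Or.inr fun x => ?_) hψ2'
        have := S2.above x
        rw [up_add_pi, up_sub, h', hftb] at this
        rw [up_sub]
        linarith
    exact conf2 hTIL hMONO C (by rw [e1, e2, h]) e1 e2 p1' p2 p3 p4' S1 S2 (by linarith)

/-- The plateau case. -/
theorem wide_case (hSUPP : Stmt_SUPP) (hMONO : Stmt_MONO) (hHULL : Stmt_HULL) (hSTR : Stmt_STR)
    (hTUBE : Stmt_TUBE) (hCLOSE : Stmt_CLOSE) (hUNI : Stmt_UNI) (hSUPS : Stmt_SUPS)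
    (hTIL : Stmt_TIL) {f : ℝ → ℂ} {θ : ℝ × ℝ → ℝ} {D ϑa ϑb : ℝ} (W : Wide f θ D ϑa ϑb) :
    ∃ R : ℝ, 0 < R ∧ ∀ r : ℝ, R ≤ r → ∃ (s s' t t' : ℝ) (v : ℂ), v ≠ 0 ∧ f s' = f s + v ∧
      f t' = f s + Complex.I * (r : ℂ) * v ∧ f t = f s + v + Complex.I * (r : ℂ) * v := by
  have hpi := Real.pi_pos
  have hwide := W.wide
  have hgap := W.gap
  have hab : ϑa < ϑb := by linarith
  have hf := W.crv
  have hθ := W.lift
  obtain ⟨sa, ta, Sa, Ta, x1, x2⟩ := hSUPS f θ D ϑa ϑb ϑa W le_rfl hab.le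
  obtain ⟨sb, tb, Sb, Tb, x3, x4⟩ := hSUPS f θ D ϑa ϑb ϑb W hab.le le_rfl
  obtain ⟨-, -, o1, o3⟩ := hSTR f θ D ϑa ϑb sa sb ta tb W Sa Sb Ta Tb
  have Sa' := sup_shift hf hθ Sa
  have Sb' := sup_shift hf hθ Sb
  have o2 : sb ≤ ta := hMONO f θ _ _ _ _ hf hθ Sb Ta (by linarith)
  have o4 : tb ≤ sa + 1 := hMONO f θ _ _ _ _ hf hθ Tb Sa' (by linarith)
  rcases lt_or_eq_of_le o2 with h | h
  · exact wide_aux hSUPP hMONO hHULL hSTR hTUBE hCLOSE hUNI hSUPS hTIL W Sa Sb Ta Tb o1 h o3 o4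
  · -- rotate by `π`
    have W' : Wide f θ D (ϑa + Real.pi) (ϑb + Real.pi) :=
      { crv := hf
        lift := hθ
        pos := W.pos
        diam := W.diam
        wide := by linarith
        gap := by linarith
        plat := fun ψ h1 h2 => by
          obtain ⟨s, t, hst⟩ := W.plat (ψ - Real.pi) (by linarith) (by linarith)
          refine ⟨t, s, ?_⟩
          have e : ψ = ψ - Real.pi + Real.pi := by ring
          rw [e, up_add_pi, up_sub]
          rw [up_sub] at hst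
          linarith
        out := fun ψ h1 h2 s t => by
          have h3 := W.out (ψ - Real.pi) (by linarith) (by linarith) t s
          have e : ψ = ψ - Real.pi + Real.pi := by ring
          rw [e, up_add_pi, up_sub]
          rw [up_sub] at h3
          linarith }
    have o4' : tb < sa + 1 := by
      rcases lt_or_eq_of_le o4 with h' | h'
      · exact h'
      · exfalso
        obtain ⟨-, -, ua3⟩ := hUNI f θ D ϑa ϑb ϑa W le_rfl hab.le
        obtain ⟨-, -, ub3⟩ := hUNI f θ D ϑa ϑb ϑb W hab.le le_rfl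
        have h1 := ua3 sa ta Sa Ta
        have h2 := (ub3 sb tb Sb Tb).1
        rw [h, h', hf.per] at h2
        have e := re_im_of_up_rt ϑa (f ta - f sa)
        rw [h1.1, h1.2] at e
        have h3 : up ϑb (f sa - f ta) = -(D * Real.cos (ϑb - ϑa)) := by
          have h4 : up ϑb (f sa - f ta) = -up ϑb (f ta - f sa) := by
            rw [up_sub, up_sub]; ring
          rw [h4]
          unfold up
          rw [e.1, e.2, Real.cos_sub]
          ring
        rw [h3] at h2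
        have h5 : 0 < Real.cos (ϑb - ϑa - Real.pi / 2) ∨ True := Or.inr trivial
        have h6 : Real.cos Real.pi < Real.cos (ϑb - ϑa) :=
          Real.cos_lt_cos_of_nonneg_of_le_pi (by linarith) le_rfl hgap
        rw [Real.cos_pi] at h6
        nlinarith [W.pos]
    have e1 : ϑa + Real.pi + Real.pi = ϑa + 2 * Real.pi := by ring
    have e2 : ϑb + Real.pi + Real.pi = ϑb + 2 * Real.pi := by ring
    exact wide_aux hSUPP hMONO hHULL hSTR hTUBE hCLOSE hUNI hSUPS hTIL W' Ta Tb (by rw [e1]; exact Sa')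
      (by rw [e2]; exact Sb') o3 o4' (by linarith) (by linarith)

/-- Every periodic curve with a lift. -/
theorem all_f (hSUPP : Stmt_SUPP) (hMONO : Stmt_MONO) (hHULL : Stmt_HULL) (hSTR : Stmt_STR)
    (hTUBE : Stmt_TUBE) (hCLOSE : Stmt_CLOSE) (hUNI : Stmt_UNI) (hSUPS : Stmt_SUPS)
    (hTIL : Stmt_TIL) (hPLAT : Stmt_PLAT) (hNARR : Stmt_NARR)
    (hSTRI : Pool.MP_7ec17a_gt.B.Stmt_STRI) (hMAXI : Pool.MP_7ec17a_gt.B.Stmt_MAXI)
    (hFIN : Pool.MP_7ec17a_gt.B.Stmt_FIN) {f : ℝ → ℂ} {θ : ℝ × ℝ → ℝ} {D ψ0 s0 t0 : ℝ}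
    (hf : Crv f) (hθ : Lift f θ) (hD : 0 < D) (hdiam : ∀ s t, ‖f t - f s‖ ≤ D)
    (h0 : up ψ0 (f t0 - f s0) = D) :
    ∃ R : ℝ, 0 < R ∧ ∀ r : ℝ, R ≤ r → ∃ a v : ℂ, v ≠ 0 ∧ a ∈ range f ∧
      a + v ∈ range f ∧ a + v + Complex.I * (r : ℂ) * v ∈ range f ∧
      a + Complex.I * (r : ℂ) * v ∈ range f := by
  have hpi := Real.pi_pos
  have cf := hf.cont
  have hconv : (∃ R : ℝ, 0 < R ∧ ∀ r : ℝ, R ≤ r → ∃ (s s' t t' : ℝ) (v : ℂ), v ≠ 0 ∧
      f s' = f s + v ∧ f t' = f s + Complex.I * (r : ℂ) * v ∧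
      f t = f s + v + Complex.I * (r : ℂ) * v) →
      ∃ R : ℝ, 0 < R ∧ ∀ r : ℝ, R ≤ r → ∃ a v : ℂ, v ≠ 0 ∧ a ∈ range f ∧
      a + v ∈ range f ∧ a + v + Complex.I * (r : ℂ) * v ∈ range f ∧
      a + Complex.I * (r : ℂ) * v ∈ range f := by
    rintro ⟨R, hR, hr⟩
    refine ⟨R, hR, fun r hrR => ?_⟩
    obtain ⟨s, s', t, t', v, hv, e1, e2, e3⟩ := hr r hrR
    exact ⟨f s, v, hv, ⟨s, rfl⟩, ⟨s', e1⟩, ⟨t, e3⟩, ⟨t', e2⟩⟩
  have hfr : ∀ t, f t = f (Int.fract t) := fun t => by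
    have h := crv_int hf (Int.fract t) ⌊t⌋
    rw [Int.fract_add_floor] at h
    exact h
  have hfm : ∀ t : ℝ, Int.fract t ∈ Icc (0 : ℝ) 1 := fun t =>
    ⟨Int.fract_nonneg t, (Int.fract_lt_one t).le⟩
  -- the set of diametral directions
  set Θ : Set ℝ := {ψ | ∃ s t, up ψ (f t - f s) = D} with hΘ
  have hlt : ∀ ψ, ψ ∉ Θ → ∀ s t, up ψ (f t - f s) < D := fun ψ h s t =>
    lt_of_le_of_ne ((up_le_norm _ _).trans (hdiam s t)) (fun e => h ⟨s, t, e⟩)
  have hclosed : IsClosed Θ := by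
    rw [← isOpen_compl_iff, isOpen_iff_mem_nhds]
    intro ψ hψ
    have hO : IsOpen {z : ℝ × (ℝ × ℝ) | up z.1 (f z.2.2 - f z.2.1) < D} := by
      refine isOpen_lt ?_ continuous_const
      unfold up
      fun_prop
    obtain ⟨u, w, hu, hw, h1, h2, h3⟩ := generalized_tube_lemma (isCompact_singleton (x := ψ))
      (isCompact_Icc.prod isCompact_Icc : IsCompact (Icc (0 : ℝ) 1 ×ˢ Icc (0 : ℝ) 1)) hO (by
        rintro ⟨x, z⟩ ⟨hx, -⟩
        have hx' : x = ψ := hx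
        show up x (f z.2 - f z.1) < D
        rw [hx']
        exact hlt ψ hψ z.1 z.2)
    refine Filter.mem_of_superset (hu.mem_nhds (h1 rfl)) fun x hx => ?_
    rintro ⟨s, t, hst⟩
    have h4 : ((x, (Int.fract s, Int.fract t)) : ℝ × (ℝ × ℝ)) ∈ u ×ˢ w :=
      ⟨hx, h2 ⟨hfm s, hfm t⟩⟩
    have h5 : up x (f (Int.fract t) - f (Int.fract s)) < D := h3 h4
    rw [← hfr, ← hfr] at h5
    linarith
  have hper : ∀ ψ, ψ ∈ Θ → ψ + Real.pi ∈ Θ := by
    rintro ψ ⟨s, t, h⟩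
    refine ⟨t, s, ?_⟩
    rw [up_add_pi, up_sub]
    rw [up_sub] at h
    linarith
  have hper' : ∀ ψ, ψ ∈ Θ → ψ - Real.pi ∈ Θ := by
    rintro ψ ⟨s, t, h⟩
    refine ⟨t, s, ?_⟩
    have e : ψ = ψ - Real.pi + Real.pi := by ring
    rw [e, up_add_pi, up_sub] at h
    rw [up_sub]
    linarith
  by_cases hall : ∀ ψ, ψ ∈ Θ
  · -- constant width
    have hcomp : IsCompact (range f) := by
      have e : range f = f '' Icc (0 : ℝ) 1 := by
        ext z
        constructor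
        · rintro ⟨t, rfl⟩
          exact ⟨Int.fract t, hfm t, (hfr t).symm⟩
        · rintro ⟨t, -, rfl⟩
          exact ⟨t, rfl⟩
      rw [e]
      exact isCompact_Icc.image cf
    refine ⟨1, one_pos, fun r hr => ?_⟩
    refine Pool.MP_7ec17a_gt.B.partB hSTRI hMAXI hFIN (range f) D hcomp hD ?_ ?_ r
      (by linarith)
    · rintro _ ⟨s, rfl⟩ _ ⟨t, rfl⟩
      exact hdiam s t
    · intro e he
      set φ := e.arg with hφ
      obtain ⟨s, t, hst⟩ := hall (-φ - Real.pi / 2)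
      refine ⟨f s, ⟨s, rfl⟩, f t, ⟨t, rfl⟩, ?_⟩
      have h1 : e.re = Real.cos φ := by
        have := Complex.norm_mul_cos_arg e
        rw [he, one_mul] at this
        exact this.symm
      have h2 : e.im = Real.sin φ := by
        have := Complex.norm_mul_sin_arg e
        rw [he, one_mul] at this
        exact this.symm
      have h3 : Real.cos (-φ - Real.pi / 2) = -Real.sin φ := by
        rw [show -φ - Real.pi / 2 = -(φ + Real.pi / 2) by ring, Real.cos_neg,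
          Real.cos_add_pi_div_two]
      have h4 : Real.sin (-φ - Real.pi / 2) = -Real.cos φ := by
        rw [show -φ - Real.pi / 2 = -(φ + Real.pi / 2) by ring, Real.sin_neg,
          Real.sin_add_pi_div_two]
      unfold up at hst
      rw [h3, h4] at hst
      rw [Complex.mul_re, h1, h2]
      linarith
  · push Not at hall
    by_cases hnar : ∃ ψ α β, ψ ∈ Θ ∧ 0 < α ∧ 0 < β ∧ α + β ≤ Real.pi / 2 ∧ ψ + α ∉ Θ ∧ ψ - β ∉ Θ
    · obtain ⟨ψ, α, β, ⟨s, t, hst⟩, hα, hβ, hαβ, h1, h2⟩ := hnar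
      exact hconv (hNARR f θ D ψ α β s t hf hθ hD hdiam hst hα hβ hαβ (hlt _ h1) (hlt _ h2))
    · obtain ⟨ϑa, ϑb, h1, h2, h3, h4⟩ := hPLAT Θ hclosed ⟨ψ0, s0, t0, h0⟩ hper hper' hall
        (fun ψ α β a b c d e g => hnar ⟨ψ, α, β, a, b, c, d, e, g⟩)
      have W : Wide f θ D ϑa ϑb :=
        { crv := hf
          lift := hθ
          pos := hD
          diam := hdiam
          wide := h1
          gap := h2
          plat := h3
          out := fun ψ a b => hlt ψ (h4 ψ a b) }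
      exact hconv (wide_case hSUPP hMONO hHULL hSTR hTUBE hCLOSE hUNI hSUPS hTIL W)

/-- Every Jordan curve inscribes all sufficiently large aspect ratios. -/
theorem every (hSUPP : Stmt_SUPP) (hMONO : Stmt_MONO) (hORI : Stmt_ORI) (hHULL : Stmt_HULL)
    (hSTR : Stmt_STR)
    (hTUBE : Stmt_TUBE) (hCLOSE : Stmt_CLOSE) (hUNI : Stmt_UNI) (hSUPS : Stmt_SUPS)
    (hTIL : Stmt_TIL) (hPLAT : Stmt_PLAT) (hNARR : Stmt_NARR)
    (hSTRI : Pool.MP_7ec17a_gt.B.Stmt_STRI) (hMAXI : Pool.MP_7ec17a_gt.B.Stmt_MAXI)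
    (hFIN : Pool.MP_7ec17a_gt.B.Stmt_FIN) (γ : Circle → ℂ) (hγ : Continuous γ)
    (hinj : Function.Injective γ) :
    ∃ R : ℝ, 0 < R ∧ ∀ r : ℝ, R ≤ r → ∃ a v : ℂ, v ≠ 0 ∧ a ∈ range γ ∧ a + v ∈ range γ ∧
      a + v + Complex.I * (r : ℂ) * v ∈ range γ ∧ a + Complex.I * (r : ℂ) * v ∈ range γ := by
  have hpi := Real.pi_pos
  obtain ⟨⟨cP, cQ⟩, hmax⟩ : ∃ z : Circle × Circle, ∀ w : Circle × Circle,
      ‖γ w.1 - γ w.2‖ ≤ ‖γ z.1 - γ z.2‖ := by
    obtain ⟨z, -, hz⟩ := isCompact_univ.exists_isMaxOn (s := (univ : Set (Circle × Circle)))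
      (f := fun w => ‖γ w.1 - γ w.2‖) ⟨(1, 1), mem_univ _⟩ (by fun_prop)
    exact ⟨z, fun w => hz (mem_univ w)⟩
  simp only at hmax
  -- the diameter is positive
  have hD : 0 < ‖γ cP - γ cQ‖ := by
    by_contra hcon
    have h0 : ‖γ cP - γ cQ‖ = 0 := le_antisymm (not_lt.1 hcon) (norm_nonneg _)
    have h1 := hmax ((1 : Circle), Circle.exp Real.pi)
    simp only at h1
    rw [h0] at h1
    have h2 : γ 1 = γ (Circle.exp Real.pi) :=
      sub_eq_zero.1 (norm_eq_zero.1 (le_antisymm h1 (norm_nonneg _)))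
    have h3 := hinj h2
    have h4 := congrArg (fun c : Circle => (c : ℂ)) h3
    simp only [Circle.coe_one, Circle.coe_exp, Complex.exp_pi_mul_I] at h4
    have h5 := congrArg Complex.re h4
    rw [Complex.one_re, Complex.neg_re, Complex.one_re] at h5
    linarith
  set D := ‖γ cP - γ cQ‖ with hDdef
  -- the parametrised curve
  set F : ℝ → ℂ := fun t => γ (Circle.exp (2 * Real.pi * t)) with hFdef
  have hF : Crv F := by
    refine ⟨?_, fun t => ?_, fun s t h => ?_⟩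
    · have h1 : Continuous (fun t : ℝ => Circle.exp (2 * Real.pi * t)) :=
        Circle.exp.continuous.comp (by fun_prop)
      exact hγ.comp h1
    · simp only [hFdef]
      have e : 2 * Real.pi * (t + 1) = 2 * Real.pi * t + 2 * Real.pi := by ring
      rw [e, Circle.periodic_exp]
    · obtain ⟨m, hm⟩ := Circle.exp_eq_exp.1 (hinj h)
      refine ⟨m, ?_⟩
      have h2 : (0 : ℝ) < 2 * Real.pi := by linarith
      have h3 : 2 * Real.pi * s = 2 * Real.pi * (t + m) := by rw [hm]; ring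
      exact mul_left_cancel₀ h2.ne' h3
  obtain ⟨xP, rfl⟩ := Circle.exp_surjective cP
  obtain ⟨xQ, rfl⟩ := Circle.exp_surjective cQ
  have hpp : (2 : ℝ) * Real.pi ≠ 0 := by positivity
  have eP : F (xP / (2 * Real.pi)) = γ (Circle.exp xP) := by
    simp only [hFdef]
    rw [mul_div_cancel₀ _ hpp]
  have eQ : F (xQ / (2 * Real.pi)) = γ (Circle.exp xQ) := by
    simp only [hFdef]
    rw [mul_div_cancel₀ _ hpp]
  set s0 := xQ / (2 * Real.pi) with hs0
  set t0 := xP / (2 * Real.pi) with ht0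
  have hn : ‖F t0 - F s0‖ = D := by rw [eP, eQ]
  set ϑ := (F t0 - F s0).arg - Real.pi / 2 with hϑ
  have hre : (F t0 - F s0).re = -(D * Real.sin ϑ) := by
    rw [hϑ, Real.sin_sub_pi_div_two, ← hn]
    have := Complex.norm_mul_cos_arg (F t0 - F s0)
    linarith
  have him : (F t0 - F s0).im = D * Real.cos ϑ := by
    rw [hϑ, Real.cos_sub_pi_div_two, ← hn]
    exact (Complex.norm_mul_sin_arg (F t0 - F s0)).symm
  have hdiamF : ∀ s t, ‖F t - F s‖ ≤ D := fun s t => hmax (_, _)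
  obtain ⟨f, θ, hfF, hf, hθ⟩ := hORI F s0 t0 D ϑ hF hD hre him hdiamF
  obtain ⟨s1, t1, hre', him', hdiam', hr1, hr2⟩ : ∃ s1 t1 : ℝ,
      (f t1 - f s1).re = -(D * Real.sin ϑ) ∧ (f t1 - f s1).im = D * Real.cos ϑ ∧
      (∀ s t, ‖f t - f s‖ ≤ D) ∧ range f ⊆ range γ ∧ True := by
    rcases hfF with rfl | rfl
    · refine ⟨s0, t0, hre, him, hdiamF, ?_, trivial⟩
      rintro _ ⟨t, rfl⟩
      exact ⟨_, rfl⟩
    · refine ⟨-s0, -t0, ?_, ?_, fun s t => hdiamF _ _, ?_, trivial⟩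
      · simp only [neg_neg]; exact hre
      · simp only [neg_neg]; exact him
      · rintro _ ⟨t, rfl⟩
        exact ⟨_, rfl⟩
  have hup : up ϑ (f t1 - f s1) = D := by
    unfold up
    rw [hre', him']
    have := Real.sin_sq_add_cos_sq ϑ
    linear_combination D * this
  obtain ⟨R, hR, hr⟩ := all_f hSUPP hMONO hHULL hSTR hTUBE hCLOSE hUNI hSUPS hTIL hPLAT hNARR hSTRI
    hMAXI hFIN hf hθ hD hdiam' hup
  refine ⟨R, hR, fun r hrR => ?_⟩
  obtain ⟨a, v, hv, m1, m2, m3, m4⟩ := hr r hrR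
  exact ⟨a, v, hv, hr1 m1, hr1 m2, hr1 m3, hr1 m4⟩

end Pool.MP_7ec17a_gt.D
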